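import Mathlib

/-! Fair division instances, EF1, fractional Pareto optimality, and mean-payoff games. -/

namespace Pool.Agent.P.MP_12de15_lc

open Finset

/-- A fair division instance: row `i` lists the values `v_i(g)` of the goods `g = 0, 1, ...`. -/
abbrev Inst : Type := List (List ℚ)

/-- Number of agents. -/
def nAgents (I : Inst) : ℕ := I.length

/-- Number of goods. -/
def nGoods (I : Inst) : ℕ := (I.headD []).length

/-- The value `v_i(g)`. -/
def val (I : Inst) (i g : ℕ) : ℚ := (I.getD i []).getD g 0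

/-- At least one agent, all rows of the same length, all values nonnegative. -/
def ValidInst (I : Inst) : Prop :=
  I ≠ [] ∧ (∀ r ∈ I, r.length = nGoods I) ∧ ∀ r ∈ I, ∀ x ∈ r, 0 ≤ x

/-- An allocation lists, for every good, the agent who receives it. -/
def IsAlloc (I : Inst) (A : List ℕ) : Prop :=
  A.length = nGoods I ∧ ∀ a ∈ A, a < nAgents I

/-- The bundle of agent `i`. -/
def bundle (I : Inst) (A : List ℕ) (i : ℕ) : Finset ℕ :=
  (range (nGoods I)).filter fun g => A.getD g 0 = i

/-- The additive value `v_i(S)`. -/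
def bval (I : Inst) (i : ℕ) (S : Finset ℕ) : ℚ := ∑ g ∈ S, val I i g

/-- Envy-freeness up to one good. -/
def EF1 (I : Inst) (A : List ℕ) : Prop :=
  ∀ i < nAgents I, ∀ j < nAgents I, (bundle I A j).Nonempty →
    ∃ g ∈ bundle I A j, bval I i (bundle I A j \ {g}) ≤ bval I i (bundle I A i)

/-- Pareto optimality: no allocation `B` Pareto dominates `A`. -/
def PO (I : Inst) (A : List ℕ) : Prop :=
  ¬ ∃ B, IsAlloc I B ∧ (∀ i < nAgents I, bval I i (bundle I A i) ≤ bval I i (bundle I B i)) ∧
    ∃ j < nAgents I, bval I j (bundle I A j) < bval I j (bundle I B j)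

/-- Fractional Pareto optimality: no fractional allocation `x` Pareto dominates `A`. -/
def FPO (I : Inst) (A : List ℕ) : Prop :=
  ¬ ∃ x : ℕ → ℕ → ℝ, (∀ i < nAgents I, ∀ g < nGoods I, 0 ≤ x i g) ∧
    (∀ g < nGoods I, ∑ i ∈ range (nAgents I), x i g = 1) ∧
    (∀ i < nAgents I, (bval I i (bundle I A i) : ℝ) ≤
      ∑ g ∈ range (nGoods I), x i g * (val I i g : ℝ)) ∧
    ∃ j < nAgents I, (bval I j (bundle I A j) : ℝ) <
      ∑ g ∈ range (nGoods I), x j g * (val I j g : ℝ)

/-- An edge of a game graph: tail, head, integer weight. -/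
abbrev Edge : Type := ℕ × ℕ × ℤ

/-- A mean-payoff game: the owner of each vertex (`true` for Max, `false` for Min), the edges,
and the start vertex. -/
abbrev Game : Type := List Bool × List Edge × ℕ

/-- The start vertex and the ends of all edges are vertices, and every vertex has an outgoing
edge. -/
def ValidGame (G : Game) : Prop :=
  G.2.2 < G.1.length ∧ (∀ e ∈ G.2.1, e.1 < G.1.length ∧ e.2.1 < G.1.length) ∧
    ∀ v < G.1.length, ∃ e ∈ G.2.1, e.1 = v

/-- An infinite walk from the start vertex, as a sequence of edges. -/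
def IsPlay (G : Game) (p : ℕ → Edge) : Prop :=
  (∀ t, p t ∈ G.2.1) ∧ (p 0).1 = G.2.2 ∧ ∀ t, (p (t + 1)).1 = (p t).2.1

/-- A strategy maps the edges played so far and the current vertex to an outgoing edge. -/
def IsStrategy (G : Game) (σ : List Edge → ℕ → Edge) : Prop :=
  ∀ h, ∀ v < G.1.length, σ h v ∈ G.2.1 ∧ (σ h v).1 = v

/-- At every vertex of Max the play takes the edge chosen by `σ`. -/
def Follows (G : Game) (σ : List Edge → ℕ → Edge) (p : ℕ → Edge) : Prop :=
  ∀ t, G.1.getD (p t).1 false = true → p t = σ ((List.range t).map p) (p t).1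

/-- The average weight of the first `t` edges. -/
noncomputable def avg (p : ℕ → Edge) (t : ℕ) : ℝ := (∑ i ∈ range t, ((p i).2.2 : ℝ)) / t

/-- Max has a strategy that secures a nonnegative lower limit of the average weight. -/
def MaxWins (G : Game) : Prop :=
  ∃ σ, IsStrategy G σ ∧ ∀ p, IsPlay G p → Follows G σ p →
    0 ≤ Filter.liminf (fun t => (avg p t : EReal)) Filter.atTop

end Pool.Agent.P.MP_12de15_lc
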