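import Pool.Agent.P.MP_12de15_lc.Market

/-! The gadgets: potentials of the vertex agents solve the clipped min-max equations. -/

namespace Pool.Agent.P.MP_12de15_lc

open Finset

/-- Bonus of agent `k` for a good with the two owners `o1`, `o2`. -/
def bon (o1 b1 o2 b2 k : ℕ) : ℕ := if k = o1 then b1 else if k = o2 then b2 else 0

/-- Number of indices `c < E` with `f c = i`. -/
def cnt (E : ℕ) (f : ℕ → ℕ) (i : ℕ) : ℕ := ((range E).filter fun c => f c = i).card

theorem sum_ite_cnt (E x i : ℕ) (f s : ℕ → ℕ) (hs : ∀ c < E, s c = x) :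
    ∑ c ∈ range E, (if f c = i then s c else 0) = x * cnt E f i := by
  unfold cnt
  rw [← sum_filter, sum_congr rfl (fun c hc => hs c (mem_range.1 (mem_filter.1 hc).1))]
  simp [mul_comm]

theorem cnt_mono {E i : ℕ} {f g : ℕ → ℕ} (h : ∀ c < E, f c = i → g c = i) :
    cnt E f i ≤ cnt E g i :=
  card_le_card fun c hc => by
    rw [mem_filter] at hc ⊢; exact ⟨hc.1, h c (mem_range.1 hc.1) hc.2⟩

theorem cnt_pos {E i c : ℕ} {f : ℕ → ℕ} (hc : c < E) (h : f c = i) : 1 ≤ cnt E f i :=
  card_pos.2 ⟨c, mem_filter.2 ⟨mem_range.2 hc, h⟩⟩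

theorem cnt_two {E i c c' : ℕ} {f : ℕ → ℕ} (hc : c < E) (hc' : c' < E) (hne : c ≠ c')
    (h : f c = i) (h' : f c' = i) : 2 ≤ cnt E f i :=
  one_lt_card.2 ⟨c, mem_filter.2 ⟨mem_range.2 hc, h⟩, c', mem_filter.2 ⟨mem_range.2 hc', h'⟩, hne⟩

theorem cnt_eq_zero {E i : ℕ} {f : ℕ → ℕ} (h : ∀ c < E, f c ≠ i) : cnt E f i = 0 :=
  card_eq_zero.2 (filter_eq_empty_iff.2 fun c hc => h c (mem_range.1 hc))

theorem cnt_le_one {E i c : ℕ} {f : ℕ → ℕ} (h : ∀ c' < E, f c' = i → c' = c) : cnt E f i ≤ 1 :=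
  card_le_one.2 fun a ha b hb => by
    rw [mem_filter, mem_range] at ha hb; rw [h a ha.1 ha.2, h b hb.1 hb.2]

theorem cnt_le_add {E i : ℕ} {f g h : ℕ → ℕ} (H : ∀ c < E, f c = i → g c = i ∨ h c = i) :
    cnt E f i ≤ cnt E g i + cnt E h i := by
  refine le_trans (card_le_card fun c hc => ?_) (card_union_le _ _)
  rw [mem_filter] at hc
  rcases H c (mem_range.1 hc.1) hc.2 with h | h
  · exact mem_union_left _ (mem_filter.2 ⟨hc.1, h⟩)
  · exact mem_union_right _ (mem_filter.2 ⟨hc.1, h⟩)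

theorem cnt_add_le {E i : ℕ} {f g h : ℕ → ℕ} (H1 : ∀ c < E, g c = i → f c = i)
    (H2 : ∀ c < E, h c = i → f c = i) (H3 : ∀ c < E, g c = i → h c ≠ i) :
    cnt E g i + cnt E h i ≤ cnt E f i := by
  unfold cnt
  rw [← card_union_of_disjoint]
  · refine card_le_card fun c hc => ?_
    rcases mem_union.1 hc with hc | hc <;> rw [mem_filter] at hc ⊢
    · exact ⟨hc.1, H1 c (mem_range.1 hc.1) hc.2⟩
    · exact ⟨hc.1, H2 c (mem_range.1 hc.1) hc.2⟩
  · exact disjoint_filter.2 fun c hc => H3 c (mem_range.1 hc)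

theorem cnt_add_two_le {E i c c' : ℕ} {f g : ℕ → ℕ} (H : ∀ c < E, g c = i → f c = i)
    (hc : c < E) (hc' : c' < E) (hne : c ≠ c') (h : f c = i) (h' : f c' = i)
    (k : g c ≠ i) (k' : g c' ≠ i) : cnt E g i + 2 ≤ cnt E f i := by
  unfold cnt
  rw [← card_pair hne, ← card_union_of_disjoint]
  · refine card_le_card fun x hx => ?_
    rcases mem_union.1 hx with hx | hx
    · rw [mem_filter] at hx ⊢; exact ⟨hx.1, H x (mem_range.1 hx.1) hx.2⟩
    · rcases mem_insert.1 hx with rfl | hx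
      · exact mem_filter.2 ⟨mem_range.2 hc, h⟩
      · rw [mem_singleton.1 hx]; exact mem_filter.2 ⟨mem_range.2 hc', h'⟩
  · rw [disjoint_right]
    intro x hx hx'
    rcases mem_insert.1 hx with rfl | hx
    · exact k (mem_filter.1 hx').2
    · rw [mem_singleton.1 hx] at hx'; exact k' (mem_filter.1 hx').2

theorem gadget (n E P N T0 M C We v0 : ℕ) (own : ℕ → Bool)
    (src tgt wp wm po pad s o1 b1 o2 b2 a : ℕ → ℕ) (ℓ : ℕ → ℝ)
    (hN : n + E < N) (hv0 : v0 < n) (hst : ∀ c < E, src c < n ∧ tgt c < n ∧ wp c ≤ We ∧ wm c ≤ We)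
    (hpo : ∀ p < P, po p < N) (hM : 1 ≤ M)
    (hc : o1 0 = v0 ∧ o2 0 = n + E ∧ b1 0 = M + C ∧ b2 0 = M ∧ s 0 = 1)
    (ht : ∀ c < E, o1 (1 + c) = src c ∧ o2 (1 + c) = n + c ∧ b1 (1 + c) = M + wm c ∧
      b2 (1 + c) = M + wp c ∧ s (1 + c) = 7)
    (hh0 : ∀ c < E, o1 (1 + E + c) = n + c ∧ o2 (1 + E + c) = tgt c ∧ b1 (1 + E + c) = M ∧
      b2 (1 + E + c) = M ∧ s (1 + E + c) = 10)
    (hh1 : ∀ c < E, o1 (1 + E + E + c) = n + c ∧ o2 (1 + E + E + c) = tgt c ∧
      b1 (1 + E + E + c) = M ∧ b2 (1 + E + E + c) = M ∧ s (1 + E + E + c) = 10)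
    (hp : ∀ p < P, o1 (1 + E + E + E + p) = po p ∧ o2 (1 + E + E + E + p) = po p ∧
      b1 (1 + E + E + E + p) = M ∧ b2 (1 + E + E + E + p) = M ∧ s (1 + E + E + E + p) = 1)
    (hpad : ∀ i < N, cnt P po i = pad i)
    (hpv : ∀ v < n, 1 ≤ cnt E src v ∧
      pad v + 10 * cnt E tgt v + 7 * (if own v = true then cnt E src v - 1 else 1) = T0 + 4)
    (hpc : ∀ c < E, pad (n + c) + 9 = T0) (hpt : pad (n + E) + 3 = T0)
    (haN : ∀ j < 1 + E + E + E + P, a j < N)
    (hpot : ∀ j < 1 + E + E + E + P, ∀ k < N, ℓ k + bon (o1 j) (b1 j) (o2 j) (b2 j) k ≤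
      ℓ (a j) + bon (o1 j) (b1 j) (o2 j) (b2 j) (a j) + 1 / 2)
    (hwin : ∀ i < N, T0 ≤ load (1 + E + E + E + P) s a i + 1 ∧
      load (1 + E + E + E + P) s a i ≤ T0 + 10) :
    (∀ v < n, ℓ (n + E) + 3 / 2 - M + We < ℓ v →
      (own v = true → ∃ c < E, src c = v ∧ ℓ v ≤ ℓ (tgt c) + wp c - wm c + 1) ∧
      (own v = false → ∀ c < E, ∀ c' < E, c ≠ c' → src c = v → src c' = v →
        ℓ v ≤ ℓ (tgt c) + wp c - wm c + 1 ∨ ℓ v ≤ ℓ (tgt c') + wp c' - wm c' + 1)) ∧
    (∀ v < n, ℓ v < ℓ (n + E) - 1 - We →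
      (own v = false → ∃ c < E, src c = v ∧ ℓ (tgt c) + wp c - wm c ≤ ℓ v + 1) ∧
      (own v = true → ∀ c < E, ∀ c' < E, c ≠ c' → src c = v → src c' = v →
        ℓ (tgt c) + wp c - wm c ≤ ℓ v + 1 ∨ ℓ (tgt c') + wp c' - wm c' ≤ ℓ v + 1)) ∧
    (a 0 = v0 → ℓ (n + E) - C - 1 / 2 ≤ ℓ v0) ∧ (a 0 ≠ v0 → ℓ v0 ≤ ℓ (n + E) + 1 / 2 - C) := by
  set m := 1 + E + E + E + P with hm
  have hMR : (1 : ℝ) ≤ M := by exact_mod_cast hM
  have hWe : (0 : ℝ) ≤ We := Nat.cast_nonneg _
  -- decomposition of the load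
  have hload : ∀ i, load m s a i = (if a 0 = i then 1 else 0) + 7 * cnt E (fun c => a (1 + c)) i +
      10 * cnt E (fun c => a (1 + E + c)) i + 10 * cnt E (fun c => a (1 + E + E + c)) i +
      cnt P (fun p => a (1 + E + E + E + p)) i := by
    intro i
    unfold load
    rw [hm, sum_range_add, sum_range_add, sum_range_add, sum_range_add, sum_range_one, hc.2.2.2.2,
      sum_ite_cnt E 7 i _ _ (fun c h => (ht c h).2.2.2.2),
      sum_ite_cnt E 10 i _ _ (fun c h => (hh0 c h).2.2.2.2),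
      sum_ite_cnt E 10 i _ _ (fun c h => (hh1 c h).2.2.2.2),
      sum_ite_cnt P 1 i _ _ (fun c h => (hp c h).2.2.2.2), one_mul]
  have hall : ∀ j < m, o1 j < N ∧ o2 j < N ∧ M ≤ b1 j ∧ M ≤ b2 j := by
    intro j hj
    by_cases h0 : j = 0
    · subst h0; omega
    by_cases h1 : j < 1 + E
    · obtain ⟨c, rfl⟩ : ∃ c, j = 1 + c := ⟨j - 1, by omega⟩
      have := ht c (by omega); have := hst c (by omega); omega
    by_cases h2 : j < 1 + E + E
    · obtain ⟨c, rfl⟩ : ∃ c, j = 1 + E + c := ⟨j - (1 + E), by omega⟩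
      have := hh0 c (by omega); have := hst c (by omega); omega
    by_cases h3 : j < 1 + E + E + E
    · obtain ⟨c, rfl⟩ : ∃ c, j = 1 + E + E + c := ⟨j - (1 + E + E), by omega⟩
      have := hh1 c (by omega); have := hst c (by omega); omega
    · obtain ⟨c, rfl⟩ : ∃ c, j = 1 + E + E + E + c := ⟨j - (1 + E + E + E), by omega⟩
      have := hp c (by omega); have := hpo c (by omega); omega
  have hfor : ∀ j < m, a j ≠ o1 j → a j ≠ o2 j → ∀ k < N,
      ℓ k + bon (o1 j) (b1 j) (o2 j) (b2 j) k ≤ ℓ (a j) + 1 / 2 := by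
    intro j hj h1 h2 k hk
    have := hpot j hj k hk
    rwa [show bon (o1 j) (b1 j) (o2 j) (b2 j) (a j) = 0 by simp [bon, h1, h2], Nat.cast_zero,
      add_zero] at this
  have padle : ∀ i < N, (∀ j < m, a j = i → i = o1 j ∨ i = o2 j) →
      cnt P (fun p => a (1 + E + E + E + p)) i ≤ pad i := by
    intro i hi h
    rw [← hpad i hi]
    refine cnt_mono fun p hp' e => ?_
    have := h _ (by omega) e
    have := hp p hp'
    omega
  -- the needy agent is on top
  have htop : ∀ k < N, ℓ k ≤ ℓ (n + E) + 1 / 2 := by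
    by_contra hcon
    have hrel : ∀ j < m, a j = n + E → n + E = o1 j ∨ n + E = o2 j := by
      intro j hj e
      by_contra h
      push Not at h
      apply hcon
      intro k hk
      have := hfor j hj (e ▸ h.1) (e ▸ h.2) k hk
      have h0 : (0 : ℝ) ≤ bon (o1 j) (b1 j) (o2 j) (b2 j) k := Nat.cast_nonneg _
      rw [e] at this; linarith
    have h1 := (hwin _ hN).1
    have h2 := padle _ hN hrel
    rw [hload, cnt_eq_zero, cnt_eq_zero (E := E), cnt_eq_zero (E := E)] at h1
    · split_ifs at h1 <;> omega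
    · intro c hc' e
      have := hrel _ (by omega) e; have := hh1 c hc'; have := hst c hc'; omega
    · intro c hc' e
      have := hrel _ (by omega) e; have := hh0 c hc'; have := hst c hc'; omega
    · intro c hc' e
      have := hrel _ (by omega) e; have := ht c hc'; have := hst c hc'; omega
  have up : ∀ j < m, ∀ k, (k = o1 j ∨ k = o2 j) → ℓ (n + E) + 1 - M < ℓ k →
      a j = o1 j ∨ a j = o2 j := by
    intro j hj k hk h
    by_contra hcon
    push Not at hcon
    have h0 := hall j hj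
    have h1 := hfor j hj hcon.1 hcon.2 k (by omega)
    have h2 : (M : ℝ) ≤ bon (o1 j) (b1 j) (o2 j) (b2 j) k := by
      unfold bon; split_ifs <;> first | exact_mod_cast h0.2.2.1 | exact_mod_cast h0.2.2.2 | omega
    have h3 := htop _ (haN j hj)
    linarith
  have dn : ∀ j < m, ℓ (a j) < ℓ (n + E) - 1 / 2 → a j = o1 j ∨ a j = o2 j := by
    intro j hj h
    by_contra hcon
    push Not at hcon
    have h1 := hfor j hj hcon.1 hcon.2 _ hN
    have h0 : (0 : ℝ) ≤ bon (o1 j) (b1 j) (o2 j) (b2 j) (n + E) := Nat.cast_nonneg _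
    linarith
  have pair1 : ∀ j < m, o1 j ≠ o2 j → a j = o1 j → ℓ (o2 j) + b2 j ≤ ℓ (o1 j) + b1 j + 1 / 2 := by
    intro j hj hne e
    have := hpot j hj _ (hall j hj).2.1
    simpa [bon, e, hne.symm] using this
  have pair2 : ∀ j < m, o1 j ≠ o2 j → a j = o2 j → ℓ (o1 j) + b1 j ≤ ℓ (o2 j) + b2 j + 1 / 2 := by
    intro j hj hne e
    have := hpot j hj _ (hall j hj).1
    simpa [bon, e, hne.symm] using this
  have padge : ∀ i < N, ℓ (n + E) + 1 - M < ℓ i →
      pad i ≤ cnt P (fun p => a (1 + E + E + E + p)) i := by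
    intro i hi h
    rw [← hpad i hi]
    refine cnt_mono fun p hp' e => ?_
    have h1 := hp p hp'
    have := up (1 + E + E + E + p) (by omega) i (by omega) h
    change a (1 + E + E + E + p) = i
    omega
  have padle' : ∀ i < N, ℓ i < ℓ (n + E) - 1 / 2 →
      cnt P (fun p => a (1 + E + E + E + p)) i ≤ pad i := by
    intro i hi h
    refine padle i hi fun j hj e => ?_
    have := dn j hj (e ▸ h)
    omega
  -- the two large goods of a copy
  have hA0 : ∀ c < E, a (1 + E + c) = n + c → ℓ (tgt c) ≤ ℓ (n + c) + 1 / 2 := by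
    intro c hc' e
    have h1 := hh0 c hc'; have h2 := hst c hc'
    have := pair1 (1 + E + c) (by omega) (by omega) (by omega)
    rw [h1.1, h1.2.1, h1.2.2.1, h1.2.2.2.1] at this; linarith
  have hA1 : ∀ c < E, a (1 + E + E + c) = n + c → ℓ (tgt c) ≤ ℓ (n + c) + 1 / 2 := by
    intro c hc' e
    have h1 := hh1 c hc'; have h2 := hst c hc'
    have := pair1 (1 + E + E + c) (by omega) (by omega) (by omega)
    rw [h1.1, h1.2.1, h1.2.2.1, h1.2.2.2.1] at this; linarith
  have hB0 : ∀ c < E, a (1 + E + c) = tgt c → ℓ (n + c) ≤ ℓ (tgt c) + 1 / 2 := by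
    intro c hc' e
    have h1 := hh0 c hc'; have h2 := hst c hc'
    have := pair2 (1 + E + c) (by omega) (by omega) (by omega)
    rw [h1.1, h1.2.1, h1.2.2.1, h1.2.2.2.1] at this; linarith
  have hB1 : ∀ c < E, a (1 + E + E + c) = tgt c → ℓ (n + c) ≤ ℓ (tgt c) + 1 / 2 := by
    intro c hc' e
    have h1 := hh1 c hc'; have h2 := hst c hc'
    have := pair2 (1 + E + E + c) (by omega) (by omega) (by omega)
    rw [h1.1, h1.2.1, h1.2.2.1, h1.2.2.2.1] at this; linarith
  have U1 : ∀ c < E, ℓ (n + E) + 1 - M < ℓ (n + c) →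
      a (1 + E + c) = tgt c ∨ a (1 + E + E + c) = tgt c := by
    intro c hc' h
    have h1 := hh0 c hc'; have h2 := hh1 c hc'
    have h3 := up (1 + E + c) (by omega) (n + c) (by omega) h
    have h4 := up (1 + E + E + c) (by omega) (n + c) (by omega) h
    by_contra hcon
    have e0 := cnt_pos (f := fun c => a (1 + E + c)) (i := n + c) hc' (by
      omega)
    have e1 := cnt_pos (f := fun c => a (1 + E + E + c)) (i := n + c) hc' (by
      omega)
    have e2 := padge (n + c) (by omega) h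
    have e3 := (hwin (n + c) (by omega)).2
    have e4 := hpc c hc'
    rw [hload] at e3
    omega
  have L1 : ∀ c < E, ℓ (n + c) < ℓ (n + E) - 1 / 2 →
      a (1 + E + c) = n + c ∨ a (1 + E + E + c) = n + c := by
    intro c hc' h
    by_contra hcon
    have e0 : cnt E (fun c => a (1 + E + c)) (n + c) = 0 := cnt_eq_zero fun c' h' e => by
      have := dn (1 + E + c') (by omega) (by rw [e]; exact h)
      have := hh0 c' h'; have := hst c' h'
      have : c' = c := by omega
      subst this; exact hcon (Or.inl e)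
    have e1 : cnt E (fun c => a (1 + E + E + c)) (n + c) = 0 := cnt_eq_zero fun c' h' e => by
      have := dn (1 + E + E + c') (by omega) (by rw [e]; exact h)
      have := hh1 c' h'; have := hst c' h'
      have : c' = c := by omega
      subst this; exact hcon (Or.inr e)
    have e2 : cnt E (fun c => a (1 + c)) (n + c) ≤ 1 := cnt_le_one (c := c) fun c' h' e => by
      have := dn (1 + c') (by omega) (by rw [e]; exact h)
      have := ht c' h'; have := hst c' h'
      omega
    have e3 : a 0 ≠ n + c := fun e => by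
      have := dn 0 (by omega) (by rw [e]; exact h)
      omega
    have e4 := padle' (n + c) (by omega) h
    have e5 := (hwin (n + c) (by omega)).1
    have e6 := hpc c hc'
    rw [hload, if_neg e3] at e5
    omega
  have U3 : ∀ v < n, ℓ (n + E) + 3 / 2 - M < ℓ v →
      cnt E (fun c => a (1 + c)) v ≤ if own v = true then cnt E src v - 1 else 1 := by
    intro v hv h
    have e0 : cnt E tgt v ≤ cnt E (fun c => a (1 + E + c)) v +
        cnt E (fun c => a (1 + E + E + c)) v := cnt_le_add fun c hc' e => by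
      have h1 := hh0 c hc'
      rcases up (1 + E + c) (by omega) v (by omega) (by linarith) with h3 | h3
      · have := hA0 c hc' (by omega)
        rw [e] at this
        have := U1 c hc' (by linarith)
        rwa [e] at this
      · left; omega
    have e2 := padge v (by omega) (by linarith)
    have e3 := (hwin v (by omega)).2
    have e4 := (hpv v hv).2
    rw [hload] at e3
    omega
  have L3 : ∀ v < n, ℓ v < ℓ (n + E) - 1 →
      (if own v = true then cnt E src v - 1 else 1) ≤ cnt E (fun c => a (1 + c)) v := by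
    intro v hv h
    have e0 : cnt E (fun c => a (1 + E + c)) v + cnt E (fun c => a (1 + E + E + c)) v ≤
        cnt E tgt v := by
      have k0 : ∀ c < E, a (1 + E + c) = v → tgt c = v := fun c hc' e => by
        have := dn (1 + E + c) (by omega) (by rw [e]; linarith)
        have := hh0 c hc'; omega
      have k1 : ∀ c < E, a (1 + E + E + c) = v → tgt c = v := fun c hc' e => by
        have := dn (1 + E + E + c) (by omega) (by rw [e]; linarith)
        have := hh1 c hc'; omega
      refine cnt_add_le k0 k1 fun c hc' e e' => ?_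
      have h1 := k0 c hc' e
      have h2 := hB0 c hc' (by omega)
      rw [h1] at h2
      have := L1 c hc' (by linarith)
      change a (1 + E + c) = v at e
      change a (1 + E + E + c) = v at e'
      omega
    have e2 := padle' v (by omega) (by linarith)
    have e3 := (hwin v (by omega)).1
    have e4 := (hpv v hv).2
    rw [hload] at e3
    have : (if a 0 = v then 1 else 0) ≤ 1 := by split_ifs <;> omega
    omega
  have subc : ∀ c < E, ℓ (n + E) + 3 / 2 - M + We < ℓ (src c) → a (1 + c) ≠ src c →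
      ℓ (src c) ≤ ℓ (tgt c) + wp c - wm c + 1 := by
    intro c hc' h hne
    have h1 := ht c hc'; have h2 := hst c hc'
    have h3 := up (1 + c) (by omega) (src c) (by omega) (by linarith)
    have h4 := pair2 (1 + c) (by omega) (by omega) (by omega)
    rw [h1.1, h1.2.1, h1.2.2.1, h1.2.2.2.1] at h4
    push_cast at h4
    have h5 : (wp c : ℝ) ≤ We := by exact_mod_cast h2.2.2.1
    have h6 : (0 : ℝ) ≤ wm c := Nat.cast_nonneg _
    rcases U1 c hc' (by linarith) with h7 | h7
    · have := hB0 c hc' h7; linarith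
    · have := hB1 c hc' h7; linarith
  have supc : ∀ c < E, ℓ (src c) < ℓ (n + E) - 1 - We → a (1 + c) = src c →
      ℓ (tgt c) + wp c - wm c ≤ ℓ (src c) + 1 := by
    intro c hc' h he
    have h1 := ht c hc'; have h2 := hst c hc'
    have h4 := pair1 (1 + c) (by omega) (by omega) (by omega)
    rw [h1.1, h1.2.1, h1.2.2.1, h1.2.2.2.1] at h4
    push_cast at h4
    have h5 : (wm c : ℝ) ≤ We := by exact_mod_cast h2.2.2.2
    have h6 : (0 : ℝ) ≤ wp c := Nat.cast_nonneg _
    rcases L1 c hc' (by linarith) with h7 | h7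
    · have := hA0 c hc' h7; linarith
    · have := hA1 c hc' h7; linarith
  have toksrc : ∀ v < n, ℓ v < ℓ (n + E) - 1 / 2 → ∀ c < E, a (1 + c) = v → src c = v := by
    intro v hv h c hc' e
    have := dn (1 + c) (by omega) (by rw [e]; exact h)
    have := ht c hc'; omega
  refine ⟨fun v hv h => ⟨fun ho => ?_, fun ho c hc1 c' hc2 hne e1 e2 => ?_⟩,
    fun v hv h => ⟨fun ho => ?_, fun ho c hc1 c' hc2 hne e1 e2 => ?_⟩, fun e => ?_, fun e => ?_⟩
  · have h1 := U3 v hv (by linarith)
    rw [if_pos ho] at h1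
    by_contra hcon
    have h2 : cnt E src v ≤ cnt E (fun c => a (1 + c)) v := cnt_mono fun c hc' e => by
      by_contra hne
      exact hcon ⟨c, hc', e, e ▸ subc c hc' (e.symm ▸ h) (e.symm ▸ hne)⟩
    have := (hpv v hv).1
    omega
  · have h1 := U3 v hv (by linarith)
    rw [if_neg (by simp [ho])] at h1
    by_cases k1 : a (1 + c) = v
    · by_cases k2 : a (1 + c') = v
      · have := cnt_two (f := fun c => a (1 + c)) hc1 hc2 hne k1 k2
        omega
      · exact Or.inr (e2 ▸ subc c' hc2 (e2.symm ▸ h) (e2.symm ▸ k2))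
    · exact Or.inl (e1 ▸ subc c hc1 (e1.symm ▸ h) (e1.symm ▸ k1))
  · have h1 := L3 v hv (by linarith)
    rw [if_neg (by simp [ho])] at h1
    obtain ⟨c, hc'⟩ := card_pos.1 h1
    rw [mem_filter, mem_range] at hc'
    have e := toksrc v hv (by linarith) c hc'.1 hc'.2
    exact ⟨c, hc'.1, e, e ▸ supc c hc'.1 (e.symm ▸ h) (e.symm ▸ hc'.2)⟩
  · have h1 := L3 v hv (by linarith)
    rw [if_pos ho] at h1
    by_cases k1 : a (1 + c) = v
    · exact Or.inl (e1 ▸ supc c hc1 (e1.symm ▸ h) (e1.symm ▸ k1))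
    · by_cases k2 : a (1 + c') = v
      · exact Or.inr (e2 ▸ supc c' hc2 (e2.symm ▸ h) (e2.symm ▸ k2))
      · have := cnt_add_two_le (g := fun c => a (1 + c)) (toksrc v hv (by linarith))
          hc1 hc2 hne e1 e2 k1 k2
        omega
  · have := pair1 0 (by omega) (by omega) (by omega)
    rw [hc.1, hc.2.1, hc.2.2.1, hc.2.2.2.1] at this
    push_cast at this; linarith
  · by_cases k : a 0 = n + E
    · have := pair2 0 (by omega) (by omega) (by omega)
      rw [hc.1, hc.2.1, hc.2.2.1, hc.2.2.2.1] at this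
      push_cast at this; linarith
    · have h1 := hfor 0 (by omega) (by omega) (by omega) v0 (by omega)
      have h2 := htop _ (haN 0 (by omega))
      rw [hc.1, hc.2.2.1, show bon v0 (M + C) (o2 0) (b2 0) v0 = M + C by simp [bon]] at h1
      push_cast at h1; linarith

end Pool.Agent.P.MP_12de15_lc
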