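import Pool.Agent.P.MP_12de15_lc.Defs

/-! Potentials decide mean-payoff games. -/

namespace Pool.Agent.P.MP_12de15_lc

open Finset Filter

theorem win_of_pot {G : Game} (hG : ValidGame G) (B : ℕ → Prop) (π : ℕ → ℤ) (h0 : B G.2.2)
    (hmax : ∀ v < G.1.length, B v → G.1.getD v false = true →
      ∃ e ∈ G.2.1, e.1 = v ∧ B e.2.1 ∧ π v ≤ π e.2.1 + e.2.2)
    (hmin : ∀ e ∈ G.2.1, B e.1 → G.1.getD e.1 false = false → B e.2.1 ∧ π e.1 ≤ π e.2.1 + e.2.2) :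
    MaxWins G := by
  classical
  have hch : ∀ v, ∃ e : Edge, v < G.1.length → (e ∈ G.2.1 ∧ e.1 = v) ∧
      (B v → G.1.getD v false = true → B e.2.1 ∧ π v ≤ π e.2.1 + e.2.2) := by
    intro v
    by_cases hv : v < G.1.length
    · by_cases hb : B v ∧ G.1.getD v false = true
      · obtain ⟨e, h1, h2, h3⟩ := hmax v hv hb.1 hb.2
        exact ⟨e, fun _ => ⟨⟨h1, h2⟩, fun _ _ => h3⟩⟩
      · obtain ⟨e, h1, h2⟩ := hG.2.2 v hv
        exact ⟨e, fun _ => ⟨⟨h1, h2⟩, fun a b => absurd ⟨a, b⟩ hb⟩⟩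
    · exact ⟨(0, 0, 0), fun h => absurd h hv⟩
  choose s hs using hch
  refine ⟨fun _ v => s v, fun _ v hv => (hs v hv).1, fun p hp hf => ?_⟩
  have step : ∀ t, B (p t).1 → B (p t).2.1 ∧ π (p t).1 ≤ π (p t).2.1 + (p t).2.2 := by
    intro t hb
    cases ho : G.1.getD (p t).1 false
    · exact hmin _ (hp.1 t) hb ho
    · have e : p t = s (p t).1 := hf t ho
      have := (hs _ (hG.2.1 _ (hp.1 t)).1).2 hb ho
      rwa [← e] at this
  have inv : ∀ t, B (p t).1 ∧ π G.2.2 ≤ π (p t).1 + ∑ i ∈ range t, (p i).2.2 := by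
    intro t
    induction t with
    | zero => rw [hp.2.1]; exact ⟨h0, by simp⟩
    | succ t ih =>
      obtain ⟨h1, h2⟩ := step t ih.1
      rw [hp.2.2 t, sum_range_succ]
      exact ⟨h1, by linarith [ih.2]⟩
  obtain ⟨K, hK⟩ : ∃ K : ℝ, ∀ t, -K ≤ ∑ i ∈ range t, ((p i).2.2 : ℝ) := by
    refine ⟨((∑ v ∈ range G.1.length, |π v| - π G.2.2 : ℤ) : ℝ), fun t => ?_⟩
    have h1 := (inv t).2
    have h2 : |π (p t).1| ≤ ∑ v ∈ range G.1.length, |π v| :=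
      single_le_sum (f := fun v => |π v|) (fun _ _ => abs_nonneg _)
        (mem_range.2 (hG.2.1 _ (hp.1 t)).1)
    have h3 := le_abs_self (π (p t).1)
    have h4 : -(∑ v ∈ range G.1.length, |π v| - π G.2.2) ≤ ∑ i ∈ range t, (p i).2.2 := by linarith
    exact_mod_cast h4
  have ht : Tendsto (fun t : ℕ => ((-K / t : ℝ) : EReal)) atTop (nhds 0) := by
    have := (continuous_coe_real_ereal.tendsto 0).comp (tendsto_const_div_atTop_nhds_zero_nat (-K))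
    simpa [Function.comp_def] using this
  rw [← ht.liminf_eq]
  refine liminf_le_liminf (Eventually.of_forall fun t => ?_)
  exact EReal.coe_le_coe_iff.2 (div_le_div_of_nonneg_right (hK t) (Nat.cast_nonneg _))

theorem lose_of_pot {G : Game} (hG : ValidGame G) (B : ℕ → Prop) (ℓ : ℕ → ℝ) (q : ℝ) (hq : 0 < q)
    (h0 : B G.2.2)
    (hmin : ∀ v < G.1.length, B v → G.1.getD v false = false →
      ∃ e ∈ G.2.1, e.1 = v ∧ B e.2.1 ∧ ℓ e.2.1 + q * e.2.2 + 1 ≤ ℓ v)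
    (hmax : ∀ e ∈ G.2.1, B e.1 → G.1.getD e.1 false = true →
      B e.2.1 ∧ ℓ e.2.1 + q * e.2.2 + 1 ≤ ℓ e.1) :
    ¬ MaxWins G := by
  classical
  rintro ⟨σ, hσ, hw⟩
  have hch : ∀ v, ∃ e : Edge, v < G.1.length → B v → G.1.getD v false = false →
      e ∈ G.2.1 ∧ e.1 = v ∧ B e.2.1 ∧ ℓ e.2.1 + q * e.2.2 + 1 ≤ ℓ v := by
    intro v
    by_cases hv : v < G.1.length ∧ B v ∧ G.1.getD v false = false
    · obtain ⟨e, h1, h2⟩ := hmin v hv.1 hv.2.1 hv.2.2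
      exact ⟨e, fun _ _ _ => ⟨h1, h2⟩⟩
    · exact ⟨(0, 0, 0), fun a b c => absurd ⟨a, b, c⟩ hv⟩
  choose s hs using hch
  let nx : List Edge × ℕ → Edge := fun x => if G.1.getD x.2 false = true then σ x.1 x.2 else s x.2
  let st : ℕ → List Edge × ℕ := fun t =>
    Nat.rec ([], G.2.2) (fun _ x => (x.1 ++ [nx x], (nx x).2.1)) t
  let p : ℕ → Edge := fun t => nx (st t)
  have hst : ∀ t, st (t + 1) = ((st t).1 ++ [p t], (p t).2.1) := fun _ => rfl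
  have good : ∀ x : List Edge × ℕ, x.2 < G.1.length → B x.2 →
      nx x ∈ G.2.1 ∧ (nx x).1 = x.2 ∧ B (nx x).2.1 ∧ ℓ (nx x).2.1 + q * (nx x).2.2 + 1 ≤ ℓ x.2 := by
    intro x hx hb
    cases ho : G.1.getD x.2 false
    · have e : nx x = s x.2 := by simp only [nx, ho]; simp
      rw [e]; exact hs _ hx hb ho
    · have e : nx x = σ x.1 x.2 := by simp only [nx, ho]; simp
      obtain ⟨h1, h2⟩ := hσ x.1 x.2 hx
      have := hmax _ h1 (h2.symm ▸ hb) (h2.symm ▸ ho)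
      rw [e]; exact ⟨h1, h2, this.1, by rw [h2] at this; exact this.2⟩
  have inv : ∀ t, (st t).2 < G.1.length ∧ B (st t).2 ∧ (st t).1 = (List.range t).map p ∧
      ℓ (st t).2 + q * ∑ i ∈ range t, ((p i).2.2 : ℝ) + t ≤ ℓ G.2.2 := by
    intro t
    induction t with
    | zero => exact ⟨hG.1, h0, rfl, by simp [st]⟩
    | succ t ih =>
      obtain ⟨h1, h2, h3, h4⟩ := good (st t) ih.1 ih.2.1
      rw [hst]
      refine ⟨(hG.2.1 _ h1).2, h3, by rw [List.range_succ, List.map_append, ih.2.2.1]; rfl, ?_⟩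
      rw [sum_range_succ]
      have := ih.2.2.2
      change ℓ (p t).2.1 + q * (p t).2.2 + 1 ≤ _ at h4
      push_cast
      linarith
  have hsrc : ∀ t, (p t).1 = (st t).2 := fun t => (good _ (inv t).1 (inv t).2.1).2.1
  have hp : IsPlay G p := ⟨fun t => (good _ (inv t).1 (inv t).2.1).1, hsrc 0,
    fun t => hsrc (t + 1)⟩
  have hf : Follows G σ p := by
    intro t ho
    rw [hsrc] at ho ⊢
    rw [← (inv t).2.2.1]
    simp only [p, nx, ho, if_true]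
  have hw := hw p hp hf
  obtain ⟨K, hK⟩ : ∃ K : ℝ, ∀ t : ℕ, q * ∑ i ∈ range t, ((p i).2.2 : ℝ) ≤ K - t := by
    refine ⟨∑ v ∈ range G.1.length, |ℓ v| + ℓ G.2.2, fun t => ?_⟩
    have h1 := (inv t).2.2.2
    have h2 : |ℓ (st t).2| ≤ ∑ v ∈ range G.1.length, |ℓ v| :=
      single_le_sum (f := fun v => |ℓ v|) (fun _ _ => abs_nonneg _) (mem_range.2 (inv t).1)
    have h3 := neg_abs_le (ℓ (st t).2)
    linarith
  have hle : liminf (fun t => (avg p t : EReal)) atTop ≤ ((-(1 / (2 * q)) : ℝ) : EReal) := by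
    refine liminf_le_of_frequently_le' (Eventually.frequently ?_)
    filter_upwards [eventually_ge_atTop (⌈2 * K⌉₊ + 1)] with t ht
    refine EReal.coe_le_coe_iff.2 ?_
    have h1 : (⌈2 * K⌉₊ : ℝ) + 1 ≤ t := by exact_mod_cast ht
    have h2 := Nat.le_ceil (2 * K)
    have h3 : (0 : ℝ) ≤ ⌈2 * K⌉₊ := Nat.cast_nonneg _
    have tpos : (0 : ℝ) < t := by linarith
    unfold avg
    rw [div_le_iff₀ tpos]
    have h4 := hK t
    have h5 : q * (-(1 / (2 * q)) * t) = -(t / 2) := by field_simp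
    refine le_of_mul_le_mul_left ?_ hq
    rw [h5]; linarith
  have : (0 : EReal) ≤ ((-(1 / (2 * q)) : ℝ) : EReal) := hw.trans hle
  have h6 : (0 : ℝ) ≤ -(1 / (2 * q)) := by exact_mod_cast this
  have : 0 < 1 / (2 * q) := by positivity
  linarith

theorem exists_missed (n : ℕ) (f : ℕ → ℤ) : ∃ k ≤ n, ∀ v < n, f v ≠ k := by
  by_contra h
  push Not at h
  have h1 : (range (n + 1)).image (fun k : ℕ => (k : ℤ)) ⊆ (range n).image f := by
    intro x hx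
    obtain ⟨k, hk, rfl⟩ := mem_image.1 hx
    obtain ⟨v, hv, e⟩ := h k (by simpa [Nat.lt_succ_iff] using hk)
    exact mem_image.2 ⟨v, mem_range.2 hv, e⟩
  have h2 := card_le_card h1
  rw [card_image_of_injective _ Nat.cast_injective] at h2
  have h3 := card_image_le (s := range n) (f := f)
  simp at h2 h3
  omega

/-- Rounding real potentials for scaled weights to integer potentials. -/
theorem exists_round (n : ℕ) (ℓ : ℕ → ℝ) : ∃ π : ℕ → ℤ, ∀ u < n, ∀ v < n, ∀ w : ℤ,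
    ℓ v ≤ ℓ u + (4 * (n + 1) : ℝ) * w + 3 → π v ≤ π u + w := by
  obtain ⟨r, hr, hmiss⟩ := exists_missed n (fun v => ⌊ℓ v / 4⌋ % (n + 1))
  refine ⟨fun v => (⌊ℓ v / 4⌋ - r - 1) / (n + 1), fun u hu v hv w h => ?_⟩
  have npos : (0 : ℤ) < n + 1 := by positivity
  have hy : ⌊ℓ v / 4⌋ ≤ ⌊ℓ u / 4⌋ + (n + 1) * w + 1 := by
    have h1 := Int.floor_le (ℓ v / 4)
    have h2 := Int.lt_floor_add_one (ℓ u / 4)
    have h3 : (⌊ℓ v / 4⌋ : ℝ) < ((⌊ℓ u / 4⌋ + (n + 1) * w + 2 : ℤ) : ℝ) := by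
      push_cast; linarith
    have := Int.cast_lt.1 h3
    omega
  have hρ : (⌊ℓ u / 4⌋ - r - 1) % (n + 1) ≠ n := by
    intro e
    apply hmiss u hu
    have h1 := Int.mul_ediv_add_emod (⌊ℓ u / 4⌋ - r - 1) (n + 1)
    have h2 : ⌊ℓ u / 4⌋ = r + (n + 1) * ((⌊ℓ u / 4⌋ - r - 1) / (n + 1) + 1) := by
      rw [e] at h1; linarith
    change ⌊ℓ u / 4⌋ % (n + 1) = r
    rw [h2, Int.add_mul_emod_self_left]
    exact Int.emod_eq_of_lt (by positivity) (by omega)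
  have a1 := Int.mul_ediv_add_emod (⌊ℓ u / 4⌋ - r - 1) (n + 1)
  have a2 := Int.mul_ediv_add_emod (⌊ℓ v / 4⌋ - r - 1) (n + 1)
  have a3 := Int.emod_lt_of_pos (⌊ℓ u / 4⌋ - r - 1) npos
  have a4 := Int.emod_nonneg (⌊ℓ v / 4⌋ - r - 1) npos.ne'
  change (⌊ℓ v / 4⌋ - r - 1) / (n + 1) ≤ (⌊ℓ u / 4⌋ - r - 1) / (n + 1) + w
  generalize (⌊ℓ v / 4⌋ - r - 1) / (n + 1) = a at *
  generalize (⌊ℓ u / 4⌋ - r - 1) / (n + 1) = b at *
  by_contra hc
  have h5 : (n + 1 : ℤ) * 1 ≤ (n + 1) * (a - b - w) :=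
    mul_le_mul_of_nonneg_left (by omega) npos.le
  have h6 : (⌊ℓ u / 4⌋ - r - 1) % (n + 1) ≤ n - 1 := by omega
  nlinarith

/-- A gap of length `g` below `x`. -/
theorem exists_gap (n : ℕ) (ℓ : ℕ → ℝ) (x g : ℝ) (hg : 0 < g) :
    ∃ τ, x - n * g ≤ τ ∧ τ ≤ x ∧ ∀ v < n, τ - g ≤ ℓ v → τ ≤ ℓ v := by
  obtain ⟨k, hk, hmiss⟩ := exists_missed n (fun v => ⌈(x - ℓ v) / g⌉ - 1)
  have hk' : (k : ℝ) ≤ n := by exact_mod_cast hk
  refine ⟨x - k * g, by nlinarith, by nlinarith [Nat.cast_nonneg (α := ℝ) k], fun v hv h => ?_⟩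
  by_contra hc
  apply hmiss v hv
  have : ⌈(x - ℓ v) / g⌉ = k + 1 := by
    rw [Int.ceil_eq_iff]
    push_cast
    constructor
    · rw [lt_div_iff₀ hg]; linarith
    · rw [div_le_iff₀ hg]; linarith
  change ⌈(x - ℓ v) / g⌉ - 1 = k
  omega

theorem win_of_sub {G : Game} (hG : ValidGame G) (ℓ : ℕ → ℝ) (lo g : ℝ) (hg : 0 < g)
    (hw : ∀ e ∈ G.2.1, (4 * (G.1.length + 1) : ℝ) * e.2.2 + 3 ≤ g)
    (h0 : lo < ℓ G.2.2 - G.1.length * g)
    (hmax : ∀ v < G.1.length, lo < ℓ v → G.1.getD v false = true →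
      ∃ e ∈ G.2.1, e.1 = v ∧ ℓ v ≤ ℓ e.2.1 + (4 * (G.1.length + 1) : ℝ) * e.2.2 + 3)
    (hmin : ∀ e ∈ G.2.1, lo < ℓ e.1 → G.1.getD e.1 false = false →
      ℓ e.1 ≤ ℓ e.2.1 + (4 * (G.1.length + 1) : ℝ) * e.2.2 + 3) : MaxWins G := by
  obtain ⟨τ, h1, h2, h3⟩ := exists_gap G.1.length ℓ (ℓ G.2.2) g hg
  obtain ⟨π, hπ⟩ := exists_round G.1.length ℓ
  refine win_of_pot hG (fun v => τ ≤ ℓ v) π h2 (fun v hv hb ho => ?_) (fun e he hb ho => ?_)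
  · obtain ⟨e, he, e1, e2⟩ := hmax v hv (by linarith) ho
    have := hw e he
    exact ⟨e, he, e1, h3 _ (hG.2.1 e he).2 (by linarith), hπ _ (hG.2.1 e he).2 _ hv _ e2⟩
  · have e2 := hmin e he (by linarith) ho
    have := hw e he
    exact ⟨h3 _ (hG.2.1 e he).2 (by linarith), hπ _ (hG.2.1 e he).2 _ (hG.2.1 e he).1 _ e2⟩

theorem lose_of_sup {G : Game} (hG : ValidGame G) (ℓ : ℕ → ℝ) (hi g q : ℝ) (hg : 0 < g) (hq : 0 < q)
    (hw : ∀ e ∈ G.2.1, -(q * e.2.2 + 1) ≤ g)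
    (h0 : ℓ G.2.2 + G.1.length * g < hi)
    (hmin : ∀ v < G.1.length, ℓ v < hi → G.1.getD v false = false →
      ∃ e ∈ G.2.1, e.1 = v ∧ ℓ e.2.1 + q * e.2.2 + 1 ≤ ℓ v)
    (hmax : ∀ e ∈ G.2.1, ℓ e.1 < hi → G.1.getD e.1 false = true →
      ℓ e.2.1 + q * e.2.2 + 1 ≤ ℓ e.1) : ¬ MaxWins G := by
  obtain ⟨τ, h1, h2, h3⟩ := exists_gap G.1.length (fun v => -ℓ v) (-ℓ G.2.2) g hg
  refine lose_of_pot hG (fun v => τ ≤ -ℓ v) ℓ q hq h2 (fun v hv hb ho => ?_) (fun e he hb ho => ?_)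
  · obtain ⟨e, he, e1, e2⟩ := hmin v hv (by linarith) ho
    have := hw e he
    exact ⟨e, he, e1, h3 _ (hG.2.1 e he).2 (by linarith), e2⟩
  · have e2 := hmax e he (by linarith) ho
    have := hw e he
    exact ⟨h3 _ (hG.2.1 e he).2 (by linarith), e2⟩

end Pool.Agent.P.MP_12de15_lc
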