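import Pool.Agent.P.MP_12de15_lc.Main

/-! Computing an EF1 and fractionally Pareto optimal allocation is at least as hard as deciding
the winner of a mean-payoff game. -/

namespace Pool.Agent.P.MP_12de15_lc.HardOnly

open Pool.Agent.P.MP_12de15_lc N68a2faeb

theorem result : ∃ (R : Game → Inst) (S : Game × List ℕ → Bool), IsPolyTime R ∧ IsPolyTime S ∧
    ∀ G, ValidGame G → ValidInst (R G) ∧
      ∀ A, IsAlloc (R G) A → EF1 (R G) A → FPO (R G) A → (S (G, A) = true ↔ MaxWins G) :=
  ⟨fun G => red (toB G), dec, isPolyTime_red, isPolyTime_dec,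
    fun G hG => ⟨valid_red (toB G), fun _ hA h1 h2 => correct hG hA h1 h2⟩⟩

end Pool.Agent.P.MP_12de15_lc.HardOnly
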