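import Pool.Agent.P.MP_12de15_lc.Red
import Pool.Agent.P.MP_12de15_lc.Gadget
import Pool.Agent.P.MP_12de15_lc.Game

/-! Correctness of the reduction. -/

namespace Pool.Agent.P.MP_12de15_lc

open Pool.Agent.Lib.NP Finset

theorem cnt_list {α : Type} (l : List α) (d : α) (f : α → ℕ) (i : ℕ) :
    cnt l.length (fun c => f (l.getD c d)) i = l.countP fun x => decide (f x = i) := by
  unfold cnt
  rw [card_filter]
  induction l with
  | nil => simp
  | cons x l ih =>
    rw [List.length_cons, sum_range_succ', List.countP_cons]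
    simp only [List.getD_cons_succ, List.getD_cons_zero, ih]
    simp

theorem countP_po (p : ℕ → ℕ) (N i : ℕ) :
    ((List.range N).flatMap fun a => List.replicate (p a) a).countP (fun x => decide (x = i)) =
      if i < N then p i else 0 := by
  induction N with
  | zero => simp
  | succ N ih =>
    rw [List.range_succ, List.flatMap_append, List.countP_append, ih]
    simp only [List.flatMap_cons, List.flatMap_nil, List.append_nil, List.countP_replicate,
      decide_eq_true_eq]
    split_ifs <;> first | omega | simp_all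

theorem length_po (p : ℕ → ℕ) (N : ℕ) :
    ((List.range N).flatMap fun a => List.replicate (p a) a).length = ∑ a ∈ range N, p a := by
  induction N with
  | zero => simp
  | succ N ih => rw [List.range_succ, List.flatMap_append, List.length_append, ih, sum_range_succ]; simp

def rc (G : GameB) (j : ℕ) : Rec := (recs G).getD j (0, toBN 0, toBN 0, toBN 0, toBN 0)

theorem length_recs (G : GameB) : (recs G).length = 1 + nE G + nE G + nE G + (po G).length := by
  simp [recs]; omega

theorem rc_zero (G : GameB) :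
    rc G 0 = (1, G.2.2, badd (Mm G) (Cc G), toBN (nV G + nE G), Mm G) := by
  simp [rc, recs]

theorem rc_tok (G : GameB) {c : ℕ} (h : c < nE G) : rc G (1 + c) = tokR G c := by
  unfold rc recs
  rw [List.getD_append _ _ _ _ (by simp; omega), List.getD_append _ _ _ _ (by simp; omega),
    List.getD_append _ _ _ _ (by simp; omega), List.getD_append_right _ _ _ _ (by simp),
    List.getD_eq_getElem _ _ (by simpa using h)]
  simp

theorem rc_big0 (G : GameB) {c : ℕ} (h : c < nE G) : rc G (1 + nE G + c) = bigR G c := by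
  unfold rc recs
  rw [List.getD_append _ _ _ _ (by simp; omega), List.getD_append _ _ _ _ (by simp; omega),
    List.getD_append_right _ _ _ _ (by simp; omega),
    List.getD_eq_getElem _ _ (by simp; omega)]
  simp only [List.getElem_map, List.getElem_range]
  congr 1; simp; omega

theorem rc_big1 (G : GameB) {c : ℕ} (h : c < nE G) : rc G (1 + nE G + nE G + c) = bigR G c := by
  unfold rc recs
  rw [List.getD_append _ _ _ _ (by simp; omega),
    List.getD_append_right _ _ _ _ (by simp; omega),
    List.getD_eq_getElem _ _ (by simp; omega)]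
  simp only [List.getElem_map, List.getElem_range]
  congr 1; simp; omega

theorem rc_pad (G : GameB) {p : ℕ} (h : p < (po G).length) :
    rc G (1 + nE G + nE G + nE G + p) =
      (1, toBN ((po G).getD p 0), Mm G, toBN ((po G).getD p 0), Mm G) := by
  unfold rc recs
  rw [List.getD_append_right _ _ _ _ (by simp; omega),
    List.getD_eq_getElem _ _ (by simp; omega), List.getD_eq_getElem _ _ h]
  simp only [List.getElem_map]
  have : 1 + nE G + nE G + nE G + p - ([(1, G.2.2, badd (Mm G) (Cc G), toBN (nV G + nE G), Mm G)] ++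
    (List.range (nE G)).map (tokR G) ++ (List.range (nE G)).map (bigR G) ++
    (List.range (nE G)).map (bigR G)).length = p := by simp; omega
  simp only [this]

theorem nAgents_red (G : GameB) : nAgents (red G) = nAg G := by simp [nAgents, red]

theorem nAg_pos (G : GameB) : 0 < nAg G := by unfold nAg; omega

theorem nGoods_red (G : GameB) : nGoods (red G) = (recs G).length := by
  unfold nGoods red
  obtain ⟨k, hk⟩ : ∃ k, nAg G = k + 1 := ⟨nAg G - 1, by have := nAg_pos G; omega⟩
  rw [hk, List.range_succ_eq_map]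
  simp

theorem value_eq (D : BN) (i : ℕ) (r : Rec) :
    value D i r = (r.1 * (D.v + bon r.2.1.v r.2.2.1.v r.2.2.2.1.v r.2.2.2.2.v i) : ℕ) := by
  obtain ⟨s, ⟨o1⟩, b1, ⟨o2⟩, b2⟩ := r
  unfold value bon bq
  simp only [toBN, BN.mk.injEq, bsmul_v, badd_v]
  split_ifs <;> rfl

theorem val_red (G : GameB) {i j : ℕ} (hi : i < nAg G) (hj : j < (recs G).length) :
    val (red G) i j = value (Dd G) i (rc G j) := by
  unfold val red rc
  rw [List.getD_eq_getElem (l := (List.range (nAg G)).map _) _ (by simpa using hi)]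
  simp only [List.getElem_map, List.getElem_range]
  rw [List.getD_eq_getElem _ _ (by simpa using hj), List.getD_eq_getElem _ _ hj]
  simp

theorem rc_cases (G : GameB) {P : ℕ → Prop} (h0 : P 0) (h1 : ∀ c < nE G, P (1 + c))
    (h2 : ∀ c < nE G, P (1 + nE G + c)) (h3 : ∀ c < nE G, P (1 + nE G + nE G + c))
    (h4 : ∀ c < (po G).length, P (1 + nE G + nE G + nE G + c)) :
    ∀ j < (recs G).length, P j := by
  intro j hj
  rw [length_recs] at hj
  by_cases k0 : j = 0
  · subst k0; exact h0
  by_cases k1 : j < 1 + nE G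
  · obtain ⟨c, rfl⟩ : ∃ c, j = 1 + c := ⟨j - 1, by omega⟩
    exact h1 c (by omega)
  by_cases k2 : j < 1 + nE G + nE G
  · obtain ⟨c, rfl⟩ : ∃ c, j = 1 + nE G + c := ⟨j - (1 + nE G), by omega⟩
    exact h2 c (by omega)
  by_cases k3 : j < 1 + nE G + nE G + nE G
  · obtain ⟨c, rfl⟩ : ∃ c, j = 1 + nE G + nE G + c := ⟨j - (1 + nE G + nE G), by omega⟩
    exact h3 c (by omega)
  · obtain ⟨c, rfl⟩ : ∃ c, j = 1 + nE G + nE G + nE G + c :=
      ⟨j - (1 + nE G + nE G + nE G), by omega⟩
    exact h4 c (by omega)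

theorem size_rc (G : GameB) : ∀ j < (recs G).length, 1 ≤ (rc G j).1 ∧ (rc G j).1 ≤ 10 :=
  rc_cases G (by simp [rc_zero]) (fun c h => by simp [rc_tok G h, tokR])
    (fun c h => by simp [rc_big0 G h, bigR]) (fun c h => by simp [rc_big1 G h, bigR])
    (fun c h => by simp [rc_pad G h])

theorem valid_red (G : GameB) : ValidInst (red G) := by
  refine ⟨fun h => ?_, fun r hr => ?_, fun r hr x hx => ?_⟩
  · have h1 := nAgents_red G
    have h2 := nAg_pos G
    rw [h] at h1; simp [nAgents] at h1; omega
  · rw [nGoods_red]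
    obtain ⟨i, -, rfl⟩ := List.mem_map.1 hr
    simp
  · obtain ⟨i, -, rfl⟩ := List.mem_map.1 hr
    obtain ⟨r, hr, rfl⟩ := List.mem_map.1 hx
    obtain ⟨j, hj, rfl⟩ := List.getElem_of_mem hr
    rw [value_eq]
    exact Nat.cast_nonneg _

theorem weight_lt (G : GameB) (c : ℕ) :
    (ipos (eg G c).2.2).v ≤ 2 ^ bits G ∧ (ineg (eg G c).2.2).v ≤ 2 ^ bits G := by
  by_cases h : c < (es G).length
  · have h1 : eg G c ∈ G.2.1 := by
      have : eg G c ∈ es G := by
        unfold eg; rw [List.getD_eq_getElem _ _ h]; exact List.getElem_mem _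
      simpa [es] using this
    have h2 : sz (eg G c) ≤ bits G := sz_le_of_mem h1
    have h3 : sz (eg G c).2.2 ≤ bits G := ((sz_snd_le _).trans (sz_snd_le _)).trans h2
    have h4 : sz (eg G c).2.2 = sz (ipos (eg G c).2.2, ineg (eg G c).2.2) := rfl
    rw [h4, sz_prod, sz_bn, sz_bn] at h3
    exact ⟨(lt_two_pow_length _).le.trans (Nat.pow_le_pow_right (by norm_num) (by omega)),
      (lt_two_pow_length _).le.trans (Nat.pow_le_pow_right (by norm_num) (by omega))⟩
  · have : eg G c = (toBN 0, toBN 0, 0) := List.getD_eq_default _ _ (by omega)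
    simp [this, ipos, ineg]

theorem eg_toB (G : Game) {c : ℕ} (h : c < nE (toB G)) :
    ∃ e ∈ G.2.1, eg (toB G) c = (toBN e.1, toBN e.2.1, e.2.2) := by
  have : eg (toB G) c ∈ es (toB G) := by
    unfold eg; rw [List.getD_eq_getElem _ _ h]; exact List.getElem_mem _
  simp only [es, toB, List.mem_append, or_self, List.mem_map] at this
  obtain ⟨e, h1, h2⟩ := this
  exact ⟨e, h1, h2.symm⟩

theorem two_copies (G : Game) {e : Edge} (h : e ∈ G.2.1) :
    ∃ c < nE (toB G), ∃ c' < nE (toB G), c ≠ c' ∧ eg (toB G) c = (toBN e.1, toBN e.2.1, e.2.2) ∧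
      eg (toB G) c' = (toBN e.1, toBN e.2.1, e.2.2) := by
  obtain ⟨c, hc, rfl⟩ := List.getElem_of_mem h
  have hE : nE (toB G) = G.2.1.length + G.2.1.length := by simp [nE, es, toB]
  refine ⟨c, by omega, G.2.1.length + c, by omega, by omega, ?_, ?_⟩
  · unfold eg es
    rw [List.getD_append _ _ _ _ (by simpa [toB] using hc),
      List.getD_eq_getElem _ _ (by simpa [toB] using hc)]
    simp [toB]
  · unfold eg es
    rw [List.getD_append_right _ _ _ _ (by simp [toB]),
      List.getD_eq_getElem _ _ (by simpa [toB] using hc)]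
    simp [toB]

theorem correct {G : Game} (hG : ValidGame G) {A : List ℕ} (hA : IsAlloc (red (toB G)) A)
    (h1 : EF1 (red (toB G)) A) (h2 : FPO (red (toB G)) A) : dec (G, A) = true ↔ MaxWins G := by
  set g := toB G with hg
  have hn : nV g = G.1.length := rfl
  obtain ⟨X, hX⟩ : ∃ X, X = 2 ^ bits g := ⟨_, rfl⟩
  have hX1 : 1 ≤ X := by rw [hX]; exact Nat.one_le_two_pow
  have hC : (Cc g).v = cc g * X := by simp [Cc, hX]
  have hM : (Mm g).v = 3 * (cc g * X) := by simp [Mm, hC]
  have hD : (Dd g).v = (2 * (4 * cc g * (4 * cc g)) + 4 * cc g * Ss g + 1) * (X * X) := by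
    simp [Dd, hX, two_mul, pow_add]
  have hw : ∀ c, qq g * (ipos (eg g c).2.2).v + 2 ≤ (qq g + 2) * X ∧
      qq g * (ineg (eg g c).2.2).v ≤ (qq g + 2) * X := by
    intro c
    obtain ⟨k1, k2⟩ := weight_lt g c
    rw [← hX] at k1 k2
    have := Nat.mul_le_mul_left (qq g) k1
    have := Nat.mul_le_mul_left (qq g) k2
    constructor <;> nlinarith
  have hWC : (nV g + 3) * ((qq g + 2) * X + 1) ≤ cc g * X := by
    unfold cc
    rw [mul_assoc]
    exact Nat.mul_le_mul_left _ (by nlinarith)
  have hWC' : (qq g + 2) * X + 1 ≤ cc g * X := by nlinarith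
  have hP : (po g).length = ∑ a ∈ range (nAg g), pad g a := length_po _ _
  have hP1 : (po g).length ≤ nAg g * T0 g + 4 * nV g := by
    have : ∀ a, pad g a ≤ T0 g + if a < nV g then 4 else 0 := fun a => by
      unfold pad; split_ifs <;> omega
    rw [hP]
    refine (sum_le_sum fun a _ => this a).trans ?_
    rw [sum_add_distrib, ← sum_filter]
    have : ((range (nAg g)).filter fun a => a < nV g).card ≤ nV g :=
      (card_le_card fun a ha => mem_range.2 (mem_filter.1 ha).2).trans_eq (card_range _)
    simp only [sum_const, card_range, smul_eq_mul]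
    omega
  have hP2 : nAg g * T0 g ≤ (po g).length + nSys g * T0 g := by
    rw [hP, nAg, sum_range_add, sum_congr rfl (s₁ := range _) (f := fun x => pad g (nSys g + x))
      (g := fun _ => T0 g) (fun a _ => by
        unfold pad nSys; rw [if_neg (by omega), if_neg (by omega), if_neg (by omega)])]
    simp only [sum_const, card_range, smul_eq_mul]
    rw [add_mul]; omega
  have hsum : ∀ F : ℕ → ℕ, ∑ j ∈ range (recs g).length, F (rc g j).1 =
      F 1 + F 7 * nE g + F 10 * nE g + F 10 * nE g + F 1 * (po g).length := by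
    intro F
    rw [length_recs, sum_range_add, sum_range_add, sum_range_add, sum_range_add, sum_range_one,
      rc_zero, sum_congr (f := fun c => F (rc g (1 + c)).1) (g := fun _ => F 7) rfl
        (fun c h => by rw [rc_tok g (mem_range.1 h)]; rfl),
      sum_congr (f := fun c => F (rc g (1 + nE g + c)).1) (g := fun _ => F 10) rfl
        (fun c h => by rw [rc_big0 g (mem_range.1 h)]; rfl),
      sum_congr (f := fun c => F (rc g (1 + nE g + nE g + c)).1) (g := fun _ => F 10) rfl
        (fun c h => by rw [rc_big1 g (mem_range.1 h)]; rfl),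
      sum_congr (f := fun c => F (rc g (1 + nE g + nE g + nE g + c)).1) (g := fun _ => F 1) rfl
        (fun c h => by rw [rc_pad g (mem_range.1 h)])]
    simp [mul_comm]
  have hs1 := hsum fun x => x
  have hs2 := hsum fun x => if x = 1 then 0 else x
  simp only [if_true, Nat.reduceEqDiff, if_false] at hs2
  have hS : ∑ j ∈ range (recs g).length, (rc g j).1 ≤ Ss g := by
    rw [hs1]; unfold Ss
    have : nV g ≤ nAg g := by unfold nAg nSys; omega
    nlinarith
  have hb : ∀ j < (recs g).length, (rc g j).2.2.1.v ≤ 4 * (cc g * X) ∧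
      (rc g j).2.2.2.2.v ≤ 4 * (cc g * X) :=
    rc_cases g (by simp [rc_zero, hM, hC]; omega)
      (fun c h => by have := hw c; simp [rc_tok g h, tokR, hM]; omega)
      (fun c h => by simp [rc_big0 g h, bigR, hM]; omega)
      (fun c h => by simp [rc_big1 g h, bigR, hM]; omega)
      (fun c h => by simp [rc_pad g h, hM]; omega)
  obtain ⟨ℓ, hpot, hwin⟩ := market hA h1 h2 (fun j => (rc g j).1)
    (fun i j => bon (rc g j).2.1.v (rc g j).2.2.1.v (rc g j).2.2.2.1.v (rc g j).2.2.2.2.v i)
    (Dd g).v (4 * (cc g * X)) (T0 g) 10 (4 * nV g + 27 * nE g + 1) (nSys g * T0 g) (27 * nE g)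
    (fun i hi j hj => by
      rw [nAgents_red] at hi; rw [nGoods_red] at hj; rw [val_red g hi hj, value_eq])
    (by rw [nGoods_red]; exact size_rc g)
    (fun i j hj => by
      rw [nGoods_red] at hj
      have := hb j hj
      unfold bon; split_ifs <;> omega)
    (by rw [hD]; nlinarith [Nat.zero_le (4 * cc g * Ss g * (X * X)), Nat.zero_le (X * X)])
    (by
      rw [nGoods_red, hD]
      have k1 := Nat.mul_le_mul_left (4 * (cc g * X)) hS
      have k2 : 4 * cc g * Ss g * X ≤ 4 * cc g * Ss g * (X * X) :=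
        Nat.mul_le_mul_left _ (by nlinarith)
      have k3 : 1 ≤ X * X := by nlinarith
      nlinarith [Nat.zero_le (cc g * cc g * (X * X))])
    (by rw [nGoods_red, hs2]; omega)
    (by rw [nGoods_red, nAgents_red, hs1]; omega)
    (by rw [nAgents_red]; unfold nAg nSys; omega)
    (by rw [nGoods_red, nAgents_red, hs1]; omega)
    (by rw [nAgents_red]; unfold nAg; omega)
    (by unfold T0; omega)
  have haN : ∀ j < (recs g).length, A.getD j 0 < nAg g := by
    intro j hj
    have : j < A.length := by rw [hA.1, nGoods_red]; exact hj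
    rw [← nAgents_red, List.getD_eq_getElem _ _ this]
    exact hA.2 _ (List.getElem_mem _)
  rw [nGoods_red, nAgents_red] at hpot hwin
  rw [length_recs] at hpot hwin haN
  have hin : ∀ v, cnt (nE g) (fun c => (eg g c).2.1.v) v = indeg g v := fun v => by
    refine (cnt_list (es g) (toBN 0, toBN 0, 0) (fun e : EdgeB => e.2.1.v) v).trans ?_
    exact List.countP_congr fun e _ => by simp [BN.ext_iff]
  have hout : ∀ v, cnt (nE g) (fun c => (eg g c).1.v) v = outdeg g v := fun v => by
    refine (cnt_list (es g) (toBN 0, toBN 0, 0) (fun e : EdgeB => e.1.v) v).trans ?_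
    exact List.countP_congr fun e _ => by simp [BN.ext_iff]
  obtain ⟨hsub, hsup, hc1, hc2⟩ := gadget (nV g) (nE g) (po g).length (nAg g) (T0 g) (Mm g).v
    (Cc g).v ((qq g + 2) * X) G.2.2 (fun v => G.1.getD v false)
    (fun c => (eg g c).1.v) (fun c => (eg g c).2.1.v)
    (fun c => qq g * (ipos (eg g c).2.2).v + 2) (fun c => qq g * (ineg (eg g c).2.2).v)
    (fun p => (po g).getD p 0) (pad g) (fun j => (rc g j).1) (fun j => (rc g j).2.1.v)
    (fun j => (rc g j).2.2.1.v) (fun j => (rc g j).2.2.2.1.v) (fun j => (rc g j).2.2.2.2.v)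
    (fun j => A.getD j 0) ℓ (by unfold nAg nSys; omega) hG.1
    (fun c hc => by
      obtain ⟨e, he, e1⟩ := eg_toB G hc
      refine ⟨?_, ?_, hw c⟩
      · rw [e1]; exact (hG.2.1 e he).1
      · rw [e1]; exact (hG.2.1 e he).2)
    (fun p hp => by
      have : (po g).getD p 0 ∈ po g := by
        rw [List.getD_eq_getElem _ _ hp]; exact List.getElem_mem _
      generalize (po g).getD p 0 = x at this
      simp only [po, List.mem_flatMap, List.mem_range, List.mem_replicate] at this
      obtain ⟨a, h, -, rfl⟩ := this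
      exact h)
    (by rw [hM]; omega)
    (by simp [rc_zero, hg, toB])
    (fun c hc => by simp [rc_tok g hc, tokR])
    (fun c hc => by simp [rc_big0 g hc, bigR])
    (fun c hc => by simp [rc_big1 g hc, bigR])
    (fun c hc => by simp [rc_pad g hc])
    (fun i hi => by
      refine (cnt_list (po g) 0 (fun x => x) i).trans ?_
      rw [po, countP_po, if_pos hi])
    (fun v hv => by
      obtain ⟨e, he, e1⟩ := hG.2.2 v hv
      obtain ⟨c, hc, -, -, -, e2, -⟩ := two_copies G he
      refine ⟨cnt_pos hc (by change (eg (toB G) c).1.v = v; rw [e2]; exact e1), ?_⟩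
      rw [hin, hout, pad, if_pos hv]
      have k1 : indeg g v ≤ nE g := List.countP_le_length
      have k2 : outdeg g v ≤ nE g := List.countP_le_length
      change _ - (_ + 7 * (if G.1.getD v false = true then _ else _)) + _ + _ = _
      unfold T0
      split_ifs <;> omega)
    (fun c hc => by rw [pad, if_neg (by omega), if_pos (by omega)]; unfold T0; omega)
    (by rw [pad, if_neg (by omega), if_neg (by omega), if_pos rfl]; unfold T0; omega)
    haN hpot hwin
  have hq : (qq g : ℝ) = 4 * (G.1.length + 1) := by unfold qq; rw [hn]; push_cast; ring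
  have hwt : ∀ z : ℤ, ((qq g * (ipos z).v + 2 : ℕ) : ℝ) - ((qq g * (ineg z).v : ℕ) : ℝ) =
      4 * (G.1.length + 1) * z + 2 := by
    intro z
    have : ((ipos z).v : ℝ) - (ineg z).v = z := by
      have : ((ipos z).v : ℤ) - (ineg z).v = z := by simp only [ipos, ineg]; omega
      exact_mod_cast this
    push_cast
    rw [hq, ← this]; ring
  have hbd : ∀ e ∈ G.2.1, (4 * (G.1.length + 1) : ℝ) * e.2.2 + 3 ≤ ((qq g + 2) * X : ℕ) + 1 ∧
      -((4 * (G.1.length + 1) : ℝ) * e.2.2 + 1) ≤ ((qq g + 2) * X : ℕ) + 1 := by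
    intro e he
    obtain ⟨c, -, -, -, -, e2, -⟩ := two_copies G he
    obtain ⟨k1, k2⟩ := hw c
    rw [e2] at k1 k2
    have k3 := hwt e.2.2
    have k4 : ((qq g * (ipos e.2.2).v + 2 : ℕ) : ℝ) ≤ ((qq g + 2) * X : ℕ) := by exact_mod_cast k1
    have k5 : ((qq g * (ineg e.2.2).v : ℕ) : ℝ) ≤ ((qq g + 2) * X : ℕ) := by exact_mod_cast k2
    have k6 : (0 : ℝ) ≤ ((qq g * (ipos e.2.2).v + 2 : ℕ) : ℝ) := Nat.cast_nonneg _
    have k7 : (0 : ℝ) ≤ ((qq g * (ineg e.2.2).v : ℕ) : ℝ) := Nat.cast_nonneg _
    constructor <;> linarith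
  have hCR : ((G.1.length : ℝ) + 3) * (((qq g + 2) * X : ℕ) + 1) ≤ (Cc g).v := by
    rw [hC, ← hn]; exact_mod_cast hWC
  have hMR : ((Mm g).v : ℝ) = 3 * (Cc g).v := by rw [hM, hC]; push_cast; ring
  generalize ((qq g + 2) * X : ℕ) = We at *
  have hWe : (0 : ℝ) ≤ We := Nat.cast_nonneg _
  have hn0 : (0 : ℝ) ≤ G.1.length := Nat.cast_nonneg _
  have hnW : 0 ≤ (G.1.length : ℝ) * (We + 1) := by positivity
  by_cases hd : A.getD 0 0 = G.2.2
  · refine ⟨fun _ => ?_, fun _ => by simpa [dec] using hd⟩
    refine win_of_sub hG ℓ (ℓ (nV g + nE g) + 3 / 2 - (Mm g).v + We) (We + 1) (by linarith)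
      (fun e he => (hbd e he).1) (by have := hc1 hd; nlinarith) (fun v hv h ho => ?_)
      (fun e he h ho => ?_)
    · obtain ⟨c, hc, e1, e2⟩ := (hsub v hv h).1 ho
      obtain ⟨e, he, e3⟩ := eg_toB G hc
      rw [← hg] at e3
      simp only [e3, toBN_v] at e1 e2
      exact ⟨e, he, e1, by have := hwt e.2.2; linarith⟩
    · obtain ⟨c, hc, c', hc', hne, e1, e2⟩ := two_copies G he
      rw [← hg] at e1 e2
      have := (hsub _ (hG.2.1 e he).1 h).2 ho c hc c' hc' hne (by simp [e1]) (by simp [e2])
      simp only [e1, e2, toBN_v, or_self] at this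
      have := hwt e.2.2; linarith
  · refine ⟨fun h => absurd (by simpa [dec] using h) hd, fun h => absurd h ?_⟩
    refine lose_of_sup hG ℓ (ℓ (nV g + nE g) - 1 - We) (We + 1) (4 * (G.1.length + 1))
      (by linarith) (by positivity)
      (fun e he => (hbd e he).2) (by have := hc2 hd; nlinarith) (fun v hv h ho => ?_)
      (fun e he h ho => ?_)
    · obtain ⟨c, hc, e1, e2⟩ := (hsup v hv h).1 ho
      obtain ⟨e, he, e3⟩ := eg_toB G hc
      rw [← hg] at e3
      simp only [e3, toBN_v] at e1 e2
      exact ⟨e, he, e1, by have := hwt e.2.2; linarith⟩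
    · obtain ⟨c, hc, c', hc', hne, e1, e2⟩ := two_copies G he
      rw [← hg] at e1 e2
      have := (hsup _ (hG.2.1 e he).1 h).2 ho c hc c' hc' hne (by simp [e1]) (by simp [e2])
      simp only [e1, e2, toBN_v, or_self] at this
      have := hwt e.2.2; linarith

end Pool.Agent.P.MP_12de15_lc
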