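import Pool.Agent.P.MP_12de15_lc.Defs

/-! Consequences of fPO (prices) and of EF1 (balanced loads) for nearly identical values. -/

namespace Pool.Agent.P.MP_12de15_lc

open Finset

section Lam

variable (N m : ℕ) (v : ℕ → ℕ → ℝ) (A : ℕ → ℕ)

/-- Feasible directions at the allocation `A`. -/
def Dir (d : ℕ → ℕ → ℝ) : Prop :=
  (∀ j < m, ∑ i ∈ range N, d i j = 0) ∧ ∀ i < N, ∀ j < m, A j ≠ i → 0 ≤ d i j

/-- Agent `i` gives up one unit of value, agent `k` gains `r`. -/
def Chain (i k : ℕ) (r : ℝ) : Prop :=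
  ∃ d, Dir N m A d ∧ ∀ a < N, ∑ j ∈ range m, d a j * v a j =
    (if a = k then r else 0) - (if a = i then 1 else 0)

variable {N m v A}

theorem Chain.edge {j k : ℕ} (hj : j < m) (hk : k < N) (hA : A j < N) (hv : 0 < v (A j) j) :
    Chain N m v A (A j) k (v k j / v (A j) j) := by
  refine ⟨fun a g => if g = j then ((if a = k then 1 else 0) - (if a = A j then 1 else 0)) /
    v (A j) j else 0, ⟨fun g _ => ?_, fun a _ g _ h => ?_⟩, fun a _ => ?_⟩
  · by_cases h : g = j
    · simp only [h, if_true]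
      rw [← sum_div, sum_sub_distrib]
      simp [hk, hA]
    · simp [h]
  · by_cases h' : g = j
    · subst h'
      simp only [if_true, if_neg (Ne.symm h), sub_zero]
      split_ifs <;> positivity
    · simp [h']
  · simp only [ite_mul, zero_mul, sum_ite_eq', mem_range, hj, if_true]
    by_cases h1 : a = k <;> by_cases h2 : a = A j
    · subst h1; simp only [if_true, ← h2] at hv ⊢; field_simp
    · subst h1; simp [h2]; field_simp
    · subst h2; simp [h1]; field_simp
    · simp [h1, h2]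

theorem Chain.comp {i k l : ℕ} {r r' : ℝ} (h : Chain N m v A i k r) (h' : Chain N m v A k l r')
    (hr : 0 ≤ r) : Chain N m v A i l (r * r') := by
  obtain ⟨d, ⟨d1, d2⟩, d3⟩ := h
  obtain ⟨e, ⟨e1, e2⟩, e3⟩ := h'
  refine ⟨fun a g => d a g + r * e a g, ⟨fun g hg => ?_, fun a ha g hg h => ?_⟩, fun a ha => ?_⟩
  · rw [sum_add_distrib, ← mul_sum, d1 g hg, e1 g hg]; simp
  · have := d2 a ha g hg h
    have := e2 a ha g hg h
    positivity
  · simp only [add_mul, mul_assoc]
    rw [sum_add_distrib, ← mul_sum, d3 a ha, e3 a ha]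
    split_ifs <;> ring

theorem Chain.le_one (hA : ∀ j < m, A j < N)
    (hpo : ¬ ∃ x : ℕ → ℕ → ℝ, (∀ i < N, ∀ g < m, 0 ≤ x i g) ∧
      (∀ g < m, ∑ i ∈ range N, x i g = 1) ∧
      (∀ i < N, ∑ g ∈ range m, (if A g = i then v i g else 0) ≤ ∑ g ∈ range m, x i g * v i g) ∧
      ∃ j < N, ∑ g ∈ range m, (if A g = j then v j g else 0) < ∑ g ∈ range m, x j g * v j g)
    {i : ℕ} (hi : i < N) {r : ℝ} (h : Chain N m v A i i r) : r ≤ 1 := by
  by_contra hr
  obtain ⟨d, ⟨d1, d2⟩, d3⟩ := h
  obtain ⟨K, hK0, hK⟩ : ∃ K : ℝ, 0 < K ∧ ∀ g < m, |d (A g) g| ≤ K := by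
    refine ⟨1 + ∑ g ∈ range m, |d (A g) g|, by positivity, fun g hg => ?_⟩
    have := single_le_sum (f := fun g => |d (A g) g|) (fun _ _ => abs_nonneg _) (mem_range.2 hg)
    linarith
  have key : ∀ a < N, ∑ g ∈ range m, ((if A g = a then 1 else 0) + d a g / K) * v a g =
      ∑ g ∈ range m, (if A g = a then v a g else 0) + (if a = i then r - 1 else 0) / K := by
    intro a ha
    have : (if a = i then r - 1 else 0) = ∑ j ∈ range m, d a j * v a j := by
      rw [d3 a ha]; split_ifs <;> simp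
    rw [this, sum_div, ← sum_add_distrib]
    refine sum_congr rfl fun g _ => ?_
    split_ifs <;> ring
  refine hpo ⟨fun a g => (if A g = a then 1 else 0) + d a g / K, fun a ha g hg => ?_,
    fun g hg => ?_, fun a ha => ?_, i, hi, ?_⟩
  · by_cases h : A g = a
    · subst h
      have h1 := (abs_le.1 (hK g hg)).1
      have h2 : -1 ≤ d (A g) g / K := by rw [le_div_iff₀ hK0]; linarith
      simp only [if_true]; linarith
    · have := d2 a ha g hg h
      simp only [h, if_false]; positivity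
  · rw [sum_add_distrib, ← sum_div, d1 g hg]
    simp [hA g hg]
  · rw [key a ha]
    have : 0 ≤ (if a = i then r - 1 else 0) / K := by
      split_ifs
      · exact div_nonneg (by linarith) hK0.le
      · simp
    linarith
  · rw [key i hi]
    have : 0 < (r - 1) / K := div_pos (by linarith) hK0
    simp only [if_true]; linarith

theorem exists_lam (hN : 0 < N) (hv : ∀ i < N, ∀ j < m, 0 < v i j) (hA : ∀ j < m, A j < N)
    (hs : ∀ i < N, ∃ j < m, A j = i)
    (hpo : ¬ ∃ x : ℕ → ℕ → ℝ, (∀ i < N, ∀ g < m, 0 ≤ x i g) ∧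
      (∀ g < m, ∑ i ∈ range N, x i g = 1) ∧
      (∀ i < N, ∑ g ∈ range m, (if A g = i then v i g else 0) ≤ ∑ g ∈ range m, x i g * v i g) ∧
      ∃ j < N, ∑ g ∈ range m, (if A g = j then v j g else 0) < ∑ g ∈ range m, x j g * v j g) :
    ∃ lam : ℕ → ℝ, (∀ i < N, 0 < lam i) ∧
      ∀ j < m, ∀ k < N, lam k * v k j ≤ lam (A j) * v (A j) j := by
  let S : ℕ → Set ℝ := fun i => {r | 0 < r ∧ Chain N m v A i 0 r}
  have hne : ∀ i < N, (S i).Nonempty := by
    intro i hi
    obtain ⟨j, hj, rfl⟩ := hs i hi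
    exact ⟨_, div_pos (hv 0 hN j hj) (hv _ hi j hj), Chain.edge hj hN hi (hv _ hi j hj)⟩
  have hbd : ∀ i < N, BddAbove (S i) := by
    intro i hi
    obtain ⟨j, hj, e⟩ := hs 0 hN
    have h1 := Chain.edge (v := v) hj hi (hA j hj) (hv _ (hA j hj) j hj)
    rw [e] at h1
    have hρ : 0 < v i j / v 0 j := div_pos (hv i hi j hj) (hv 0 hN j hj)
    refine ⟨1 / (v i j / v 0 j), fun r hr => ?_⟩
    have := Chain.le_one hA hpo hN (h1.comp hr.2 hρ.le)
    rw [le_div_iff₀ hρ]; linarith
  refine ⟨fun i => sSup (S i), fun i hi => ?_, fun j hj k hk => ?_⟩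
  · obtain ⟨r, hr⟩ := hne i hi
    exact hr.1.trans_le (le_csSup (hbd i hi) hr)
  · have p1 := hv k hk j hj
    have p2 := hv _ (hA j hj) j hj
    rw [← le_div_iff₀ p1]
    refine csSup_le (hne k hk) fun r hr => ?_
    have h1 := (Chain.edge hj hk (hA j hj) p2).comp hr.2 (div_pos p1 p2).le
    have h2 := le_csSup (hbd _ (hA j hj)) (show _ ∈ S (A j) from ⟨mul_pos (div_pos p1 p2) hr.1, h1⟩)
    rw [le_div_iff₀ p1]
    rw [div_mul_eq_mul_div, div_le_iff₀ p2] at h2
    linarith

end Lam

/-- Total size of the goods of agent `i`. -/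
def load (m : ℕ) (s A : ℕ → ℕ) (i : ℕ) : ℕ := ∑ j ∈ range m, if A j = i then s j else 0

theorem sum_load {N m : ℕ} (s A : ℕ → ℕ) (hA : ∀ j < m, A j < N) :
    ∑ i ∈ range N, load m s A i = ∑ j ∈ range m, s j := by
  unfold load
  rw [sum_comm]
  exact sum_congr rfl fun j hj => by simp [hA j (mem_range.1 hj)]

theorem market {I : Inst} {A : List ℕ} (hA : IsAlloc I A) (h1 : EF1 I A) (h2 : FPO I A)
    (s : ℕ → ℕ) (b : ℕ → ℕ → ℕ) (D B T0 smax X1 X2 Big : ℕ)
    (hv : ∀ i < nAgents I, ∀ j < nGoods I, val I i j = (s j * (D + b i j) : ℕ))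
    (hs : ∀ j < nGoods I, 1 ≤ s j ∧ s j ≤ smax) (hb : ∀ i, ∀ j < nGoods I, b i j ≤ B)
    (hD1 : 2 * B ^ 2 ≤ D) (hD2 : B * ∑ j ∈ range (nGoods I), s j < D)
    (hbig : ∑ j ∈ range (nGoods I), (if s j = 1 then 0 else s j) ≤ Big)
    (hX1 : ∑ j ∈ range (nGoods I), s j ≤ nAgents I * T0 + X1) (hX1' : X1 < nAgents I)
    (hX2 : nAgents I * T0 ≤ ∑ j ∈ range (nGoods I), s j + X2) (hX2' : X2 + Big < nAgents I)
    (hT : 2 ≤ T0) :
    ∃ ℓ : ℕ → ℝ, (∀ j < nGoods I, ∀ k < nAgents I,
        ℓ k + b k j ≤ ℓ (A.getD j 0) + b (A.getD j 0) j + 1 / 2) ∧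
      ∀ i < nAgents I, T0 ≤ load (nGoods I) s (fun j => A.getD j 0) i + 1 ∧
        load (nGoods I) s (fun j => A.getD j 0) i ≤ T0 + smax := by
  set N := nAgents I with hN
  set m := nGoods I with hm
  set a : ℕ → ℕ := fun j => A.getD j 0 with ha
  have hNpos : 0 < N := by omega
  have hAN : ∀ j < m, a j < N := by
    intro j hj
    have : j < A.length := hA.1 ▸ hj
    exact hA.2 _ (by simp only [ha]; rw [List.getD_eq_getElem _ _ this]; exact List.getElem_mem _)
  have hload : ∀ i, load m s a i = ∑ j ∈ bundle I A i, s j := by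
    intro i; unfold load bundle; rw [sum_filter]
  have hle : ∀ i, load m s a i ≤ ∑ j ∈ range m, s j := by
    intro i; unfold load; exact sum_le_sum fun j _ => by split_ifs <;> simp
  have hDpos : 0 < D := by omega
  -- EF1 in terms of sizes
  have hef : ∀ i < N, ∀ k < N, load m s a k = 0 ∨
      ∃ g < m, a g = k ∧ load m s a k ≤ load m s a i + s g := by
    intro i hi k hk
    rcases (bundle I A k).eq_empty_or_nonempty with he | he
    · left; rw [hload, he]; simp
    right
    obtain ⟨g, hg, hle'⟩ := h1 i hi k hk he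
    have hg' := mem_filter.1 hg
    refine ⟨g, mem_range.1 hg'.1, hg'.2, ?_⟩
    have e1 : ∀ S ⊆ range m, bval I i S = ((∑ j ∈ S, s j * (D + b i j) : ℕ) : ℚ) := by
      intro S hS
      unfold bval
      rw [Nat.cast_sum]
      exact sum_congr rfl fun j hj => hv i hi j (mem_range.1 (hS hj))
    have hsub : ∀ k, bundle I A k ⊆ range m := fun k => filter_subset _ _
    rw [e1 _ (sdiff_subset.trans (hsub k)), e1 _ (hsub i), Nat.cast_le] at hle'
    have e2 : D * ∑ j ∈ bundle I A k \ {g}, s j ≤ ∑ j ∈ bundle I A k \ {g}, s j * (D + b i j) := by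
      rw [mul_sum]; exact sum_le_sum fun j _ => by nlinarith [Nat.zero_le (s j * b i j)]
    have e3 : ∑ j ∈ bundle I A i, s j * (D + b i j) ≤ (D + B) * load m s a i := by
      rw [hload, mul_sum]
      refine sum_le_sum fun j hj => ?_
      have := hb i j (mem_range.1 (mem_filter.1 hj).1)
      rw [mul_comm]; exact Nat.mul_le_mul_right _ (by omega)
    have e4 : ∑ j ∈ bundle I A k \ {g}, s j + s g = load m s a k := by
      rw [hload, ← sum_sdiff (singleton_subset_iff.2 hg), sum_singleton]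
    have e5 : B * load m s a i < D := (Nat.mul_le_mul_left _ (hle i)).trans_lt hD2
    have e6 : D * ∑ j ∈ bundle I A k \ {g}, s j < D * (load m s a i + 1) := by nlinarith
    have := Nat.lt_of_mul_lt_mul_left e6
    omega
  obtain ⟨i0, hi0, hmin⟩ := exists_min_image (range N) (load m s a) ⟨0, mem_range.2 hNpos⟩
  set T := load m s a i0 with hTdef
  have hup : ∀ k < N, load m s a k ≤ T + 1 + load m (fun j => if s j = 1 then 0 else s j) a k ∧
      load m s a k ≤ T + smax := by
    intro k hk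
    rcases hef i0 (mem_range.1 hi0) k hk with h | ⟨g, hg, e1, e2⟩
    · omega
    · have := single_le_sum (f := fun j => if a j = k then (if s j = 1 then 0 else s j) else 0)
        (fun _ _ => Nat.zero_le _) (mem_range.2 hg)
      have h3 := (hs g hg).2
      simp only [e1, if_true] at this
      change _ ≤ load m (fun j => if s j = 1 then 0 else s j) a k at this
      split_ifs at this <;> omega
  have s1 : N * T ≤ ∑ j ∈ range m, s j := by
    rw [← sum_load s a hAN]
    simpa using card_nsmul_le_sum (range N) _ T hmin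
  have s2 : ∑ j ∈ range m, s j ≤ N * (T + 1) + Big := by
    rw [← sum_load s a hAN]
    refine (sum_le_sum fun k hk => (hup k (mem_range.1 hk)).1).trans ?_
    rw [sum_add_distrib, sum_load _ a hAN]
    simp only [sum_const, card_range, smul_eq_mul]
    omega
  have t1 : T ≤ T0 := by
    by_contra hc
    have : N * (T0 + 1) ≤ N * T := Nat.mul_le_mul_left _ (by omega)
    nlinarith
  have t2 : T0 ≤ T + 1 := by
    by_contra hc
    have : N * (T + 2) ≤ N * T0 := Nat.mul_le_mul_left _ (by omega)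
    nlinarith
  have hwin : ∀ i < N, T0 ≤ load m s a i + 1 ∧ load m s a i ≤ T0 + smax := fun i hi =>
    ⟨by have := hmin i (mem_range.2 hi); omega, by have := (hup i hi).2; omega⟩
  have hsur : ∀ i < N, ∃ j < m, a j = i := by
    intro i hi
    by_contra hc
    push Not at hc
    have : load m s a i = 0 := sum_eq_zero fun j hj => if_neg (hc j (mem_range.1 hj))
    have := (hwin i hi).1
    omega
  have hvR : ∀ i < N, ∀ j < m, (val I i j : ℝ) = s j * (D + b i j) := by
    intro i hi j hj; rw [hv i hi j hj]; push_cast; rfl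
  have hDR : (0 : ℝ) < D := by exact_mod_cast hDpos
  have hsR : ∀ j < m, (0 : ℝ) < s j := fun j hj => by exact_mod_cast (hs j hj).1
  obtain ⟨lam, hl0, hl⟩ := exists_lam (v := fun i j => (val I i j : ℝ)) (A := a) hNpos
    (fun i hi j hj => by rw [hvR i hi j hj]; have := hsR j hj; positivity) hAN hsur (by
      have e : ∀ i, (bval I i (bundle I A i) : ℝ) =
          ∑ g ∈ range m, (if a g = i then (val I i g : ℝ) else 0) := by
        intro i; unfold bval bundle; rw [sum_filter]; push_cast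
        exact sum_congr rfl fun g _ => by split_ifs <;> simp
      have := h2
      unfold FPO at this
      simpa only [e] using this)
  have hl' : ∀ j < m, ∀ k < N, lam k * (D + b k j) ≤ lam (a j) * (D + b (a j) j) := by
    intro j hj k hk
    have := hl j hj k hk
    simp only [hvR k hk j hj, hvR _ (hAN j hj) j hj] at this
    refine le_of_mul_le_mul_left ?_ (hsR j hj)
    linarith
  obtain ⟨i1, hi1, hmin1⟩ := exists_min_image (range N) lam ⟨0, mem_range.2 hNpos⟩
  have hμ := hl0 i1 (mem_range.1 hi1)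
  have hbR : ∀ i, ∀ j < m, (b i j : ℝ) ≤ B := fun i j hj => by exact_mod_cast hb i j hj
  have hmax : ∀ k < N, lam k * D ≤ lam i1 * (D + B) := by
    intro k hk
    obtain ⟨j, hj, e⟩ := hsur i1 (mem_range.1 hi1)
    have h3 := hl' j hj k hk
    rw [e] at h3
    have h4 := hbR i1 j hj
    have h5 := hl0 k hk
    have h6 : (0 : ℝ) ≤ b k j := Nat.cast_nonneg _
    nlinarith
  refine ⟨fun i => D * (lam i / lam i1), fun j hj k hk => ?_, hwin⟩
  have h3 := hl' j hj k hk
  have hx1 : 1 ≤ lam k / lam i1 := by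
    rw [le_div_iff₀ hμ]; simpa using hmin1 k (mem_range.2 hk)
  have hx2 : lam (a j) / lam i1 * D ≤ D + B := by
    rw [div_mul_eq_mul_div, div_le_iff₀ hμ]; linarith [hmax _ (hAN j hj)]
  have h4 : lam k / lam i1 * (D + b k j) ≤ lam (a j) / lam i1 * (D + b (a j) j) := by
    rw [div_mul_eq_mul_div, div_mul_eq_mul_div]; exact div_le_div_of_nonneg_right h3 hμ.le
  change D * (lam k / lam i1) + b k j ≤ D * (lam (a j) / lam i1) + b (a j) j + 1 / 2
  generalize lam k / lam i1 = x at *
  generalize lam (a j) / lam i1 = y at *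
  have h5 : (0 : ℝ) ≤ b k j := Nat.cast_nonneg _
  have h6 : (0 : ℝ) ≤ b (a j) j := Nat.cast_nonneg _
  have h7 := hbR (a j) j hj
  have h8 : 2 * (B : ℝ) ^ 2 ≤ D := by exact_mod_cast hD1
  have h9 : (y - 1) * b (a j) j ≤ 1 / 2 := by
    refine le_of_mul_le_mul_left ?_ hDR
    have hB : (0 : ℝ) ≤ B := Nat.cast_nonneg _
    nlinarith
  nlinarith

end Pool.Agent.P.MP_12de15_lc
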