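import Pool.Agent.P.MP_12de15_lc.Defs
import Pool.Agent.Lib.NP.Bin

/-! The reduction and its running time. -/

namespace Pool.Agent.P.MP_12de15_lc

open Pool.Agent.Lib.NP N487b59b3 N68a2faeb

abbrev EdgeB : Type := BN × BN × ℤ
abbrev GameB : Type := List Bool × List EdgeB × BN
abbrev Rec : Type := ℕ × BN × BN × BN × BN

def toB (G : Game) : GameB :=
  (G.1, G.2.1.map fun e => (toBN e.1, toBN e.2.1, e.2.2), toBN G.2.2)

def nV (G : GameB) : ℕ := G.1.length
def es (G : GameB) : List EdgeB := G.2.1 ++ G.2.1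
def nE (G : GameB) : ℕ := (es G).length
def eg (G : GameB) (c : ℕ) : EdgeB := (es G).getD c (toBN 0, toBN 0, 0)
def T0 (G : GameB) : ℕ := 17 * nE G + 10
def nSys (G : GameB) : ℕ := nV G + nE G + 1
def nAg (G : GameB) : ℕ := nSys G + (nSys G * T0 G + 27 * nE G + 4 * nSys G + 2)
def indeg (G : GameB) (v : ℕ) : ℕ := (es G).countP fun e => decide (e.2.1 = toBN v)
def outdeg (G : GameB) (v : ℕ) : ℕ := (es G).countP fun e => decide (e.1 = toBN v)
def pad (G : GameB) (a : ℕ) : ℕ :=
  if a < nV G then
    T0 G + 4 - (10 * indeg G a + 7 * (if G.1.getD a false = true then outdeg G a - 1 else 1))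
  else if a < nV G + nE G then T0 G - 9 else if a = nV G + nE G then T0 G - 3 else T0 G
def po (G : GameB) : List ℕ := (List.range (nAg G)).flatMap fun a => List.replicate (pad G a) a
def bits (G : GameB) : ℕ := (enc G.2.1).length
def qq (G : GameB) : ℕ := 4 * (nV G + 1)
def cc (G : GameB) : ℕ := (nV G + 3) * (qq G + 3)
def Cc (G : GameB) : BN := bsmul (cc G) (bpow2 (bits G))
def Mm (G : GameB) : BN := bsmul 3 (Cc G)
def Ss (G : GameB) : ℕ := nAg G * (T0 G + 4) + 27 * nE G + 1
def Dd (G : GameB) : BN :=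
  bsmul (2 * (4 * cc G * (4 * cc G)) + 4 * cc G * Ss G + 1) (bpow2 (2 * bits G))
def tokR (G : GameB) (c : ℕ) : Rec :=
  (7, (eg G c).1, badd (Mm G) (bsmul (qq G) (ineg (eg G c).2.2)), toBN (nV G + c),
    badd (Mm G) (badd (bsmul (qq G) (ipos (eg G c).2.2)) (toBN 2)))
def bigR (G : GameB) (c : ℕ) : Rec := (10, toBN (nV G + c), Mm G, (eg G c).2.1, Mm G)
def recs (G : GameB) : List Rec :=
  [(1, G.2.2, badd (Mm G) (Cc G), toBN (nV G + nE G), Mm G)] ++
    (List.range (nE G)).map (tokR G) ++ (List.range (nE G)).map (bigR G) ++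
    (List.range (nE G)).map (bigR G) ++ (po G).map fun a => (1, toBN a, Mm G, toBN a, Mm G)
def value (D : BN) (i : ℕ) (r : Rec) : ℚ :=
  bq (bsmul r.1 (badd D (if toBN i = r.2.1 then r.2.2.1 else
    if toBN i = r.2.2.2.1 then r.2.2.2.2 else toBN 0)))
def red (G : GameB) : Inst := (List.range (nAg G)).map fun i => (recs G).map (value (Dd G) i)

section
variable {α : Type} [Enc α] {G : α → GameB} {k : α → ℕ}

@[fun_prop] theorem pt_nV (h : PT G) : PT fun a => nV (G a) := by unfold nV; fun_prop
@[fun_prop] theorem pt_es (h : PT G) : PT fun a => es (G a) := by unfold es; fun_prop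
@[fun_prop] theorem pt_nE (h : PT G) : PT fun a => nE (G a) := by unfold nE; fun_prop
@[fun_prop] theorem pt_eg (h : PT G) (hk : PT k) : PT fun a => eg (G a) (k a) := by
  unfold eg; fun_prop
@[fun_prop] theorem pt_T0 (h : PT G) : PT fun a => T0 (G a) := by unfold T0; fun_prop
@[fun_prop] theorem pt_nSys (h : PT G) : PT fun a => nSys (G a) := by unfold nSys; fun_prop
@[fun_prop] theorem pt_nAg (h : PT G) : PT fun a => nAg (G a) := by unfold nAg; fun_prop
@[fun_prop] theorem pt_indeg (h : PT G) (hk : PT k) : PT fun a => indeg (G a) (k a) := by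
  unfold indeg; fun_prop
@[fun_prop] theorem pt_outdeg (h : PT G) (hk : PT k) : PT fun a => outdeg (G a) (k a) := by
  unfold outdeg; fun_prop
@[fun_prop] theorem pt_pad (h : PT G) (hk : PT k) : PT fun a => pad (G a) (k a) := by
  unfold pad; fun_prop
@[fun_prop] theorem pt_po (h : PT G) : PT fun a => po (G a) := by unfold po; fun_prop
@[fun_prop] theorem pt_bits (h : PT G) : PT fun a => bits (G a) := by unfold bits; fun_prop
@[fun_prop] theorem pt_qq (h : PT G) : PT fun a => qq (G a) := by unfold qq; fun_prop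
@[fun_prop] theorem pt_cc (h : PT G) : PT fun a => cc (G a) := by unfold cc; fun_prop
@[fun_prop] theorem pt_Cc (h : PT G) : PT fun a => Cc (G a) := by unfold Cc; fun_prop
@[fun_prop] theorem pt_Mm (h : PT G) : PT fun a => Mm (G a) := by unfold Mm; fun_prop
@[fun_prop] theorem pt_Ss (h : PT G) : PT fun a => Ss (G a) := by unfold Ss; fun_prop
@[fun_prop] theorem pt_Dd (h : PT G) : PT fun a => Dd (G a) := by unfold Dd; fun_prop
@[fun_prop] theorem pt_tokR (h : PT G) (hk : PT k) : PT fun a => tokR (G a) (k a) := by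
  unfold tokR; fun_prop
@[fun_prop] theorem pt_bigR (h : PT G) (hk : PT k) : PT fun a => bigR (G a) (k a) := by
  unfold bigR; fun_prop
@[fun_prop] theorem pt_recs (h : PT G) : PT fun a => recs (G a) := by unfold recs; fun_prop
@[fun_prop] theorem pt_value {D : α → BN} {r : α → Rec} (hD : PT D) (hk : PT k) (hr : PT r) :
    PT fun a => value (D a) (k a) (r a) := by unfold value; fun_prop

end

theorem pt_red : PT red := by unfold red; fun_prop

theorem enc_toB (G : Game) : enc (toB G) = bitEncode G := by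
  change delimit (enc G.1) ++ (delimit (enc (G.2.1.map _)) ++ _) =
    delimit (bitEncode G.1) ++ (delimit (bitEncode G.2.1) ++ _)
  have : enc (G.2.1.map fun e => (toBN e.1, toBN e.2.1, e.2.2)) = bitEncode G.2.1 := by
    change (((G.2.1.map _).map enc).map delimit).flatten = ((G.2.1.map bitEncode).map delimit).flatten
    rw [List.map_map (f := fun e : Edge => (toBN e.1, toBN e.2.1, e.2.2))]
    rfl
  rw [this]
  rfl

theorem isPolyTime_red : IsPolyTime fun G : Game => red (toB G) :=
  PTe.toTM2 (ea := fun G : Game => bitEncode G) (e := fun I : Inst => bitEncode I)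
    (PTe.reindex pt_red fun G => ⟨toB G, enc_toB G, rfl⟩)

/-- The decoder: does the start vertex hold the first good? -/
def dec (p : Game × List ℕ) : Bool := decide (p.2.getD 0 0 = p.1.2.2)

theorem isPolyTime_dec : IsPolyTime dec := by
  have h : PT fun p : GameB × List BN => decide (p.2.headD (toBN 0) = p.1.2.2) := by fun_prop
  refine PTe.toTM2 (ea := fun p : Game × List ℕ => bitEncode p) (e := fun b : Bool => bitEncode b)
    (PTe.reindex h fun p => ⟨(toB p.1, p.2.map toBN), ?_, ?_⟩)
  · change delimit (enc (toB p.1)) ++ (((p.2.map toBN).map enc).map delimit).flatten = _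
    rw [enc_toB, List.map_map (f := toBN)]
    rfl
  · change [_] = [_]
    congr 1
    obtain ⟨G, _ | ⟨x, A⟩⟩ := p <;> simp [dec, toB]

end Pool.Agent.P.MP_12de15_lc
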