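import Pool.Agent.Lib.NP.Bin2

/-! Approximate powers and logarithms to the base `1 + 1 / 2 ^ k`, in binary. -/

namespace Pool.Agent.P.MP_12de15_lc

open Pool.Agent.Lib.NP Polynomial

def eStep (P k : ℕ) (cap : BN) (x : BN) (b : Bool) : BN :=
  bif ble (bshr (P + k) (bmul (bmul x x) (badd (bpow2 k) (bif b then toBN 1 else toBN 0)))) cap
  then bshr (P + k) (bmul (bmul x x) (badd (bpow2 k) (bif b then toBN 1 else toBN 0))) else cap

/-- An approximation of `2 ^ P * (1 + 1 / 2 ^ k) ^ s`. -/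
def bexp (P k : ℕ) (cap s : BN) : BN := (nb s.v).reverse.foldl (eStep P k cap) (bpow2 P)

theorem eStep_v (P k : ℕ) (cap x : BN) (b : Bool) :
    (eStep P k cap x b).v = min (x.v * x.v * (2 ^ k + b.toNat) / 2 ^ (P + k)) cap.v := by
  have e : (bif b then toBN 1 else toBN 0).v = b.toNat := by cases b <;> rfl
  unfold eStep
  cases h : ble (bshr (P + k) (bmul (bmul x x) (badd (bpow2 k) (bif b then toBN 1 else toBN 0)))) cap
  · have := h ▸ ble_iff _ _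
    simp [e] at this ⊢
    omega
  · have := h ▸ ble_iff _ _
    simp [e] at this ⊢
    omega

theorem bexp_zero (P k : ℕ) (cap : BN) : (bexp P k cap ⟨0⟩).v = 2 ^ P := rfl

theorem bexp_step (P k : ℕ) (cap : BN) {s : ℕ} (hs : s ≠ 0) : (bexp P k cap ⟨s⟩).v =
    min ((bexp P k cap ⟨s / 2⟩).v * (bexp P k cap ⟨s / 2⟩).v * (2 ^ k + s % 2) / 2 ^ (P + k))
      cap.v := by
  unfold bexp
  rw [nb_step s hs, List.reverse_cons, List.foldl_append, List.foldl_cons, List.foldl_nil, eStep_v]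
  rcases Nat.mod_two_eq_zero_or_one s with e | e <;> simp [e]

@[fun_prop] theorem pt_bexp {α : Type} [Enc α] {P k : α → ℕ} {cap s : α → BN} (hP : PT P)
    (hk : PT k) (hc : PT cap) (hs : PT s) : PT fun a => bexp (P a) (k a) (cap a) (s a) := by
  have h : PT fun p : ℕ × ℕ × BN × BN => bexp p.1 p.2.1 p.2.2.1 p.2.2.2 := by
    refine PT.foldl (f := fun p : ℕ × ℕ × BN × BN => eStep p.1 p.2.1 p.2.2.1)
      (by unfold eStep; fun_prop) (PT.snd (PT.snd (PT.snd PT.id'))).bits.reverse (by fun_prop)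
      (X + 1) fun p i => ?_
    obtain ⟨P, k, cap, s⟩ := p
    generalize List.take i _ = l
    have h1 := sz_bpow2 P
    rcases List.eq_nil_or_concat l with rfl | ⟨l, b, rfl⟩
    · simp; omega
    · have : sz (eStep P k cap (l.foldl (eStep P k cap) (bpow2 P)) b) ≤ sz cap :=
        sz_le_of_lt (((eStep_v _ _ _ _ _).trans_le (min_le_right _ _)).trans_lt (lt_blen cap))
      simp; omega
  exact h.comp (g := fun a => (P a, k a, cap a, s a)) (by fun_prop)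

theorem bexp_aux (P k T : ℕ) (cap : BN)
    (hcap : (2 : ℝ) ^ P * (1 + 1 / 2 ^ k) ^ T ≤ cap.v) (s : ℕ) (hs : s ≤ T) :
    (2 : ℝ) ^ P ≤ (bexp P k cap ⟨s⟩).v ∧
    ((bexp P k cap ⟨s⟩).v : ℝ) ≤ 2 ^ P * (1 + 1 / 2 ^ k) ^ s ∧
    (2 : ℝ) ^ P * (1 + 1 / 2 ^ k) ^ s * (1 - 1 / 2 ^ P) ^ (2 * s - 1) ≤ (bexp P k cap ⟨s⟩).v := by
  induction s using Nat.strong_induction_on with
  | _ s ih =>
  by_cases h0 : s = 0
  · subst h0; simp [bexp_zero]
  obtain ⟨h1, h2, h3⟩ := ih (s / 2) (by omega) (by omega)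
  rw [bexp_step P k cap h0]
  generalize (bexp P k cap ⟨s / 2⟩).v = x at *
  set β : ℝ := 1 + 1 / 2 ^ k with hβ
  set γ : ℝ := 1 - 1 / 2 ^ P with hγ
  have S1 : (1 : ℝ) ≤ 2 ^ P := one_le_pow₀ (by norm_num)
  have b1 : 1 ≤ β := le_add_of_nonneg_right (by positivity)
  have g0 : 0 ≤ γ := sub_nonneg.2 (div_le_one_of_le₀ S1 (by positivity))
  have g1 : γ ≤ 1 := sub_le_self _ (by positivity)
  obtain ⟨y, hy⟩ : ∃ y : ℝ, y = x * x * β ^ (s % 2) / 2 ^ P := ⟨_, rfl⟩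
  have ey : ((x * x * (2 ^ k + s % 2) : ℕ) : ℝ) / ((2 ^ (P + k) : ℕ) : ℝ) = y := by
    rw [hy, hβ]
    rcases Nat.mod_two_eq_zero_or_one s with e | e <;> rw [e] <;> push_cast <;> rw [pow_add] <;>
      field_simp <;> ring
  have f1 : ((x * x * (2 ^ k + s % 2) / 2 ^ (P + k) : ℕ) : ℝ) ≤ y := ey ▸ Nat.cast_div_le
  have f2 : y < ((x * x * (2 ^ k + s % 2) / 2 ^ (P + k) : ℕ) : ℝ) + 1 := by
    rw [← ey, div_lt_iff₀ (by positivity), mul_comm _ ((2 ^ (P + k) : ℕ) : ℝ)]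
    exact_mod_cast Nat.lt_mul_div_succ _ (show 0 < 2 ^ (P + k) by positivity)
  have es : β ^ s = β ^ (s / 2) * β ^ (s / 2) * β ^ (s % 2) := by
    rw [← pow_add, ← pow_add]; congr 1; omega
  have p1 : 1 ≤ β ^ (s % 2) := one_le_pow₀ b1
  have y1 : 2 ^ P ≤ y := by
    rw [hy, le_div_iff₀ (by positivity)]
    exact (mul_le_mul h1 h1 (by positivity) (by positivity)).trans
      (le_mul_of_one_le_right (by positivity) p1)
  have y2 : y ≤ 2 ^ P * β ^ s := by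
    rw [hy, div_le_iff₀ (by positivity), es]
    have := mul_le_mul_of_nonneg_right (mul_le_mul h2 h2 (by positivity) (by positivity))
      (zero_le_one.trans p1)
    linarith
  have y3 : 2 ^ P * β ^ s * γ ^ (2 * s - 1) ≤ y * γ := by
    have e1 : γ ^ (2 * s - 1) ≤ γ ^ (2 * (s / 2) - 1) * γ ^ (2 * (s / 2) - 1) * γ := by
      rw [← pow_add, ← pow_succ]
      exact pow_le_pow_of_le_one g0 g1 (by omega)
    have e2 := mul_le_mul_of_nonneg_right (mul_le_mul h3 h3 (by positivity) (by positivity))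
      (show 0 ≤ β ^ (s % 2) * γ by positivity)
    have e3 := mul_le_mul_of_nonneg_left e1 (show 0 ≤ 2 ^ P * β ^ s * 2 ^ P by positivity)
    rw [hy, div_mul_eq_mul_div, le_div_iff₀ (by positivity)]
    rw [es] at e3 ⊢
    linarith
  have y4 : y * γ ≤ y - 1 := by
    have : 1 ≤ y / 2 ^ P := (one_le_div (by positivity)).2 y1
    rw [hγ, mul_sub, mul_one_div]; linarith
  have c1 : 2 ^ P * β ^ s ≤ cap.v :=
    (mul_le_mul_of_nonneg_left (pow_le_pow_right₀ b1 hs) (by positivity)).trans hcap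
  rw [min_eq_left (by exact_mod_cast f1.trans (y2.trans c1))]
  refine ⟨?_, f1.trans y2, by linarith⟩
  have : ((2 ^ P : ℕ) : ℝ) < ((x * x * (2 ^ k + s % 2) / 2 ^ (P + k) + 1 : ℕ) : ℝ) := by
    push_cast at f2 ⊢; linarith
  exact_mod_cast Nat.lt_succ_iff.1 (Nat.cast_lt.1 this)

theorem beta_pow (k c : ℕ) : (2 : ℝ) ^ c ≤ (1 + 1 / 2 ^ k) ^ (c * 2 ^ k) ∧
    (1 + 1 / 2 ^ k : ℝ) ^ (c * 2 ^ k) ≤ 2 ^ (2 * c) := by
  rw [mul_comm c, pow_mul, pow_mul]
  refine ⟨pow_le_pow_left₀ (by norm_num) ?_ _, pow_le_pow_left₀ (by positivity) ?_ _⟩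
  · have := one_add_mul_le_pow (a := (1 / 2 ^ k : ℝ)) (le_trans (by norm_num) (by positivity : (0 : ℝ) ≤ _)) (2 ^ k)
    push_cast at this
    rwa [mul_one_div_cancel (by positivity), one_add_one_eq_two] at this
  · have h1 : (1 + 1 / 2 ^ k : ℝ) ≤ Real.exp (1 / 2 ^ k) := by
      rw [add_comm]; exact Real.add_one_le_exp _
    have h2 := pow_le_pow_left₀ (by positivity) h1 (2 ^ k)
    rw [← Real.exp_nat_mul] at h2
    push_cast at h2
    rw [mul_one_div_cancel (by positivity)] at h2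
    have := Real.exp_one_lt_d9
    linarith

theorem bexp_spec (k c s : ℕ) (hs : s ≤ c * 2 ^ k) :
    ((bexp (2 * k + c + 2) k (bpow2 (2 * k + c + 2 + 2 * c)) ⟨s⟩).v : ℝ) ≤
      2 ^ (2 * k + c + 2) * (1 + 1 / 2 ^ k) ^ s ∧
    (2 : ℝ) ^ (2 * k + c + 2) * (1 + 1 / 2 ^ k) ^ s ≤
      (1 + 1 / 2 ^ k) * (bexp (2 * k + c + 2) k (bpow2 (2 * k + c + 2 + 2 * c)) ⟨s⟩).v := by
  obtain ⟨-, h2, h3⟩ := bexp_aux (2 * k + c + 2) k (c * 2 ^ k) (bpow2 (2 * k + c + 2 + 2 * c)) (by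
    rw [bpow2_v, pow_add 2 _ (2 * c)]
    push_cast
    exact mul_le_mul_of_nonneg_left (beta_pow k c).2 (by positivity)) s hs
  refine ⟨h2, le_trans ?_ (mul_le_mul_of_nonneg_left h3 (by positivity))⟩
  have S1 : (1 : ℝ) ≤ 2 ^ (2 * k + c + 2) := one_le_pow₀ (by norm_num)
  have K1 : (1 : ℝ) ≤ 2 ^ k := one_le_pow₀ (by norm_num)
  have g : (1 : ℝ) / 2 ^ (2 * k + c + 2) ≤ 1 := div_le_one_of_le₀ S1 (by positivity)
  have e1 := one_add_mul_le_pow (a := -(1 / 2 ^ (2 * k + c + 2) : ℝ)) (by linarith) (2 * s - 1)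
  have e2 : ((2 * s - 1 : ℕ) : ℝ) ≤ 2 * (2 ^ c * 2 ^ k) := by
    have : 2 * s - 1 ≤ 2 * (2 ^ c * 2 ^ k) := by
      have := Nat.mul_le_mul_right (2 ^ k) (Nat.lt_two_pow_self (n := c)).le
      omega
    exact_mod_cast this
  have e3 : ((2 * s - 1 : ℕ) : ℝ) * (1 / 2 ^ (2 * k + c + 2)) ≤ 1 / 2 ^ k / 2 := by
    refine (mul_le_mul_of_nonneg_right e2 (by positivity)).trans (le_of_eq ?_)
    rw [pow_add, pow_add, two_mul k, pow_add]
    field_simp
  have x1 : (1 : ℝ) / 2 ^ k ≤ 1 := div_le_one_of_le₀ K1 (by positivity)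
  have x0 : (0 : ℝ) ≤ 1 / 2 ^ k := by positivity
  rw [← sub_eq_add_neg] at e1
  have e4 : (1 : ℝ) ≤ (1 + 1 / 2 ^ k) * (1 - 1 / 2 ^ (2 * k + c + 2)) ^ (2 * s - 1) := by
    generalize (1 : ℝ) / 2 ^ k = x at *
    nlinarith
  have := mul_le_mul_of_nonneg_left e4
    (show (0 : ℝ) ≤ 2 ^ (2 * k + c + 2) * (1 + 1 / 2 ^ k) ^ s by positivity)
  linarith

/-- The approximate power with the parameters used below. -/
def ex (k c : ℕ) (s : BN) : BN := bexp (2 * k + c + 2) k (bpow2 (2 * k + c + 2 + 2 * c)) s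

/-- The approximate logarithm. -/
def lg (k c : ℕ) (v : BN) : BN :=
  bsearch (fun s => ble s (bsmul c (bpow2 k)) && ble (ex k c s) (bmul v (bpow2 (2 * k + c + 2))))
    (k + c)

@[fun_prop] theorem pt_ex {α : Type} [Enc α] {k c : α → ℕ} {s : α → BN} (hk : PT k) (hc : PT c)
    (hs : PT s) : PT fun a => ex (k a) (c a) (s a) := by unfold ex; fun_prop

@[fun_prop] theorem pt_lg {α : Type} [Enc α] {k c : α → ℕ} {s : α → BN} (hk : PT k) (hc : PT c)
    (hs : PT s) : PT fun a => lg (k a) (c a) (s a) := by unfold lg; fun_prop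

theorem lg_spec (k c : ℕ) (v : BN) (h0 : 0 < v.v) (h1 : 2 * v.v < 2 ^ c) :
    (1 + 1 / 2 ^ k : ℝ) ^ (lg k c v).v ≤ (1 + 1 / 2 ^ k) * v.v ∧
      (v.v : ℝ) ≤ (1 + 1 / 2 ^ k) ^ ((lg k c v).v + 1) := by
  obtain ⟨-, a, b⟩ := bsearch_spec (K := k + c) (P := fun s => ble s (bsmul c (bpow2 k)) &&
    ble (ex k c s) (bmul v (bpow2 (2 * k + c + 2))))
    (by simp [ex, bexp_zero]; exact h0) (by
      have := Nat.mul_lt_mul_of_pos_right (Nat.lt_two_pow_self (n := c))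
        (show 0 < 2 ^ k by positivity)
      simp [ble, pow_add, mul_comm] at this ⊢
      omega)
  change (ble (lg k c v) _ && ble (ex k c (lg k c v)) _) = true at a
  change (ble ⟨(lg k c v).v + 1⟩ _ && ble (ex k c ⟨(lg k c v).v + 1⟩) _) = false at b
  generalize lg k c v = s at *
  simp only [Bool.and_eq_true, ble_iff, bsmul_v, bpow2_v, bmul_v] at a
  have a2 : ((ex k c s).v : ℝ) ≤ v.v * 2 ^ (2 * k + c + 2) := by exact_mod_cast a.2
  have x1 : (1 : ℝ) / 2 ^ k ≤ 1 := div_le_one_of_le₀ (one_le_pow₀ (by norm_num)) (by positivity)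
  have x0 : (0 : ℝ) ≤ 1 / 2 ^ k := by positivity
  have S : (0 : ℝ) < 2 ^ (2 * k + c + 2) := by positivity
  have r1 : (1 + 1 / 2 ^ k : ℝ) ^ s.v ≤ (1 + 1 / 2 ^ k) * v.v := by
    refine le_of_mul_le_mul_left ((bexp_spec k c s.v a.1).2.trans ?_) S
    have := mul_le_mul_of_nonneg_left a2 (show (0 : ℝ) ≤ 1 + 1 / 2 ^ k by positivity)
    change _ * ((ex k c s).v : ℝ) ≤ _
    linarith
  refine ⟨r1, ?_⟩
  have ne : s.v + 1 ≤ c * 2 ^ k := by
    by_contra h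
    rw [show s.v = c * 2 ^ k by omega] at r1
    have h2 := (beta_pow k c).1
    have h3 : (2 : ℝ) * v.v < 2 ^ c := by exact_mod_cast h1
    nlinarith [Nat.cast_nonneg (α := ℝ) v.v]
  have b2 : v.v * 2 ^ (2 * k + c + 2) < (ex k c ⟨s.v + 1⟩).v := by
    simpa [ble, ne] using b
  have b3 : (v.v : ℝ) * 2 ^ (2 * k + c + 2) < (ex k c ⟨s.v + 1⟩).v := by exact_mod_cast b2
  refine le_of_mul_le_mul_left ?_ S
  have := (bexp_spec k c (s.v + 1) ne).1
  change ((ex k c ⟨s.v + 1⟩).v : ℝ) ≤ _ at this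
  linarith

end Pool.Agent.P.MP_12de15_lc
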