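import Pool.Agent.P.MP_12de15_lc.UMarket
import Pool.Agent.P.MP_12de15_lc.ULog

/-! The algorithm with an oracle for mean-payoff games, and its running time. -/

namespace Pool.Agent.P.MP_12de15_lc

open Pool.Agent.Lib.NP N487b59b3 N68a2faeb Polynomial

def cI (r : List ℚ) : BN := bprod (r.map qd)
def uT (I : Inst) : Tab := I.map fun r => r.map fun q => bdiv (bmul (qn q) (cI r)) (qd q)
def aL (I : Inst) : ℕ := blen (bsum ((uT I).map bsum))
def ak (I : Inst) : ℕ := aL I * nAgents I + nAgents I + 3
def ac (I : Inst) : ℕ := aL I + 3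
def aq (I : Inst) : ℕ := (nAgents I + 4) * (nAgents I * nGoods I + 1)
def aT (I : Inst) : Tab :=
  (List.range (nAgents I)).map fun i => (List.range (nGoods I)).map fun g =>
    badd (bmul (bpow2 (aq I)) (lg (ak I) (ac I) (g2 (uT I) i g)))
      (bpow2 ((nAgents I + 4) * (i * nGoods I + g + 1)))
def needB (I : Inst) (t : BN) : BN :=
  bshr (2 * ak I + ac I + 2 + 1)
    (ex (ak I) (ac I) (bsub (bsmul (ac I) (bpow2 (ak I))) (bshr (aq I) t)))
def lev (lo : List BN) (j i k : ℕ) : BN := badd (lo.getD i (toBN 0)) (bsmul k (bpow2 j))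
def dat (I : Inst) (lo : List BN) (j i0 cc : ℕ) : Dat :=
  ((nAgents I, nGoods I, 2 * ac I), uT I, aT I,
    (List.range (nAgents I)).map fun i => (List.range 5).map fun k => needB I (lev lo j i k),
    (List.range (nAgents I)).map fun i => (List.range 5).map fun k => lev lo j i k,
    (List.range (nAgents I)).map fun i => lev lo j i (if i = i0 then cc else 5))
def phase (f : GameB → Bool) (I : Inst) (lo : List BN) (j : ℕ) : List BN :=
  (List.range (nAgents I)).map fun i => bif f (qgameB (dat I lo j i 2)) then lev lo j i 0 else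
    bif f (qgameB (dat I lo j i 3)) then lev lo j i 1 else lev lo j i 2
def levels (f : GameB → Bool) (I : Inst) : List BN :=
  (List.range (aq I + ak I + ac I)).reverse.foldl (fun lo j => phase f I lo (j + 1)) []
def best (I : Inst) (lo : List BN) (g i : ℕ) : Bool :=
  !ble (g2 (uT I) i g) (toBN 0) && (List.range (nAgents I)).all fun k =>
    ble (g2 (uT I) k g) (toBN 0) ||
      ble (badd (lo.getD k (toBN 0)) (g2 (aT I) k g)) (badd (lo.getD i (toBN 0)) (g2 (aT I) i g))
def pick (I : Inst) (lo : List BN) : List ℕ :=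
  (List.range (nGoods I)).map fun g => ((List.range (nAgents I)).filter (best I lo g)).headD 0
def alloc (f : GameB → Bool) (I : Inst) : List ℕ := pick I (levels f I)

section
variable {α : Type} [Enc α] {I : α → Inst} {lo : α → List BN} {i j k : α → ℕ}

@[fun_prop] theorem pt_nAgents (h : PT I) : PT fun a => nAgents (I a) := by
  unfold nAgents; fun_prop
@[fun_prop] theorem pt_nGoods (h : PT I) : PT fun a => nGoods (I a) := by unfold nGoods; fun_prop
@[fun_prop] theorem pt_cI {r : α → List ℚ} (h : PT r) : PT fun a => cI (r a) := by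
  unfold cI; fun_prop
@[fun_prop] theorem pt_uT (h : PT I) : PT fun a => uT (I a) := by unfold uT; fun_prop
@[fun_prop] theorem pt_aL (h : PT I) : PT fun a => aL (I a) := by unfold aL; fun_prop
@[fun_prop] theorem pt_ak (h : PT I) : PT fun a => ak (I a) := by unfold ak; fun_prop
@[fun_prop] theorem pt_ac (h : PT I) : PT fun a => ac (I a) := by unfold ac; fun_prop
@[fun_prop] theorem pt_aq (h : PT I) : PT fun a => aq (I a) := by unfold aq; fun_prop
@[fun_prop] theorem pt_aT (h : PT I) : PT fun a => aT (I a) := by unfold aT; fun_prop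
@[fun_prop] theorem pt_needB {t : α → BN} (h : PT I) (ht : PT t) :
    PT fun a => needB (I a) (t a) := by unfold needB; fun_prop
@[fun_prop] theorem pt_lev (h : PT lo) (hj : PT j) (hi : PT i) (hk : PT k) :
    PT fun a => lev (lo a) (j a) (i a) (k a) := by unfold lev; fun_prop
@[fun_prop] theorem pt_dat (h : PT I) (hl : PT lo) (hj : PT j) (hi : PT i) (hk : PT k) :
    PT fun a => dat (I a) (lo a) (j a) (i a) (k a) := by unfold dat; fun_prop
@[fun_prop] theorem pt_best (h : PT I) (hl : PT lo) (hj : PT j) (hi : PT i) :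
    PT fun a => best (I a) (lo a) (j a) (i a) := by unfold best; fun_prop
@[fun_prop] theorem pt_pick (h : PT I) (hl : PT lo) : PT fun a => pick (I a) (lo a) := by
  unfold pick; fun_prop
theorem pt_phase {f : GameB → Bool} (hf : PT f) (h : PT I) (hl : PT lo) (hj : PT j) :
    PT fun a => phase f (I a) (lo a) (j a) := by unfold phase; fun_prop

end

theorem phase_bound (f : GameB → Bool) (I : Inst) (K : ℕ) (l : List ℕ) (hl : ∀ j ∈ l, j < K) :
    ∀ (lo : List BN) (C : ℕ), lo.length ≤ nAgents I → (∀ x ∈ lo, x.v ≤ C) →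
      (l.foldl (fun lo j => phase f I lo (j + 1)) lo).length ≤ nAgents I ∧
      ∀ x ∈ l.foldl (fun lo j => phase f I lo (j + 1)) lo, x.v ≤ C + l.length * (2 * 2 ^ K) := by
  induction l with
  | nil => exact fun lo C h1 h2 => ⟨h1, by simpa using h2⟩
  | cons j l ih =>
    intro lo C h1 h2
    rw [List.foldl_cons, List.length_cons, add_comm l.length, add_mul, one_mul, ← add_assoc]
    refine ih (fun k hk => hl k (by simp [hk])) _ _ (by simp [phase]) fun x hx => ?_
    obtain ⟨i, -, rfl⟩ := List.mem_map.1 hx
    have k1 : (lo.getD i (toBN 0)).v ≤ C := by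
      by_cases h : i < lo.length
      · rw [List.getD_eq_getElem _ _ h]; exact h2 _ (List.getElem_mem _)
      · rw [List.getD_eq_default _ _ (by omega)]; exact Nat.zero_le _
    have k2 : 2 ^ (j + 1) ≤ 2 ^ K := Nat.pow_le_pow_right (by norm_num) (hl j (by simp))
    cases f (qgameB (dat I lo (j + 1) i 2)) <;> cases f (qgameB (dat I lo (j + 1) i 3)) <;>
      simp only [cond_true, cond_false, lev, badd_v, bsmul_v, bpow2_v] <;> omega

theorem pt_alloc {f : GameB → Bool} (hf : PT f) : PT (alloc f) := by
  have hK : PT fun I => aq I + ak I + ac I := by fun_prop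
  obtain ⟨q, hq⟩ := hK.size
  refine pt_pick PT.id' (PT.foldl (f := fun I lo j => phase f I lo (j + 1))
    (pt_phase hf (by fun_prop) (by fun_prop) (by fun_prop)) (by fun_prop) (PT.const _)
    (X * (2 * (2 * q + 2) + 1)) fun I i => ?_)
  have h1 := hq I
  rw [sz_nat] at h1
  generalize aq I + ak I + ac I = K at *
  obtain ⟨h2, h3⟩ := phase_bound f I K ((List.range K).reverse.take i)
    (fun j hj => by simpa using List.mem_of_mem_take hj) [] 0 (by simp) (by simp)
  refine (sz_list_le _ (2 * K + 2) fun x hx => sz_le_of_lt ((h3 x hx).trans_lt ?_)).trans ?_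
  · have k1 : ((List.range K).reverse.take i).length < 2 ^ K :=
      lt_of_le_of_lt (by simp) Nat.lt_two_pow_self
    have k2 := Nat.mul_lt_mul_of_pos_right k1 (show 0 < 2 * 2 ^ K by positivity)
    rw [pow_add, two_mul K, pow_add]
    nlinarith
  · simp only [eval_mul, eval_X, eval_add, eval_ofNat, eval_one]
    exact Nat.mul_le_mul (h2.trans (length_le_sz I)) (by omega)

theorem isPolyTime_alloc {f : GameB → Bool} (hf : PT f) : IsPolyTime (alloc f) := by
  have h0 := pt_alloc hf
  have h : PT fun I => (alloc f I).map toBN := by fun_prop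
  refine PTe.toTM2 (ea := fun I : Inst => bitEncode I) (e := fun A : List ℕ => bitEncode A)
    (PTe.reindex h fun I => ⟨I, rfl, ?_⟩)
  change ((((alloc f I).map toBN).map enc).map delimit).flatten = _
  rw [List.map_map (f := toBN)]
  rfl

end Pool.Agent.P.MP_12de15_lc
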