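import Pool.Agent.P.MP_12de15_lc.UGame
import Pool.Agent.P.MP_12de15_lc.Red
import Pool.Agent.Lib.NP.Bin2

/-! The game that decides whether levels with prescribed upper bounds exist at which every agent
wins goods of a prescribed total value. -/

namespace Pool.Agent.P.MP_12de15_lc

open Finset Pool.Agent.Lib.NP Classical

/-- Agent `i` wins good `g` at the levels `y` with a margin. -/
def Wn (n : ℕ) (u a : ℕ → ℕ → ℕ) (y : ℕ → ℕ) (i g : ℕ) : Prop :=
  0 < u i g ∧ ∀ k < n, k ≠ i → 0 < u k g → y k + a k g + 5 ≤ y i + a i g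

/-- The value of the goods won by agent `i`. -/
noncomputable def wsum (n m : ℕ) (u a : ℕ → ℕ → ℕ) (y : ℕ → ℕ) (i : ℕ) : ℕ :=
  ∑ g ∈ range m, if Wn n u a y i g then u i g else 0

/-- The invariant of the threshold circuit. -/
def Pd (w : ℕ → Prop) (u : ℕ → ℕ) (τ m j r c : ℕ) : Prop :=
  c * 2 ^ j + τ % 2 ^ j ≤ 2 ^ j + (∑ g ∈ range m, if w g then u g % 2 ^ j else 0) +
    2 ^ j * ∑ g ∈ range r, if w g then u g / 2 ^ j % 2 else 0

section
variable {w : ℕ → Prop} {u : ℕ → ℕ} {τ m j r c : ℕ}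

theorem Pd_zero : Pd w u τ m j r 0 := by
  have := Nat.mod_lt τ (show 0 < 2 ^ j by positivity)
  unfold Pd; omega

theorem Pd_r (hc : c ≠ 0) : Pd w u τ m j (r + 1) c ↔
    Pd w u τ m j r c ∨ (w r ∧ u r / 2 ^ j % 2 = 1 ∧ Pd w u τ m j r (c - 1)) := by
  obtain ⟨c, rfl⟩ : ∃ c', c = c' + 1 := ⟨c - 1, by omega⟩
  unfold Pd
  rw [sum_range_succ, mul_add, add_mul, Nat.add_sub_cancel]
  by_cases h : w r
  · rcases Nat.mod_two_eq_zero_or_one (u r / 2 ^ j) with e | e <;> simp [h, e]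
    omega
  · simp [h]

theorem Pd_base : Pd w u τ m 0 0 c ↔ c ≤ 1 := by simp [Pd, Nat.mod_one]

theorem Pd_j (hc : c ≠ 0) :
    Pd w u τ m (j + 1) 0 c ↔ Pd w u τ m j m (2 * c + τ / 2 ^ j % 2 - 1) := by
  obtain ⟨c, rfl⟩ : ∃ c', c = c' + 1 := ⟨c - 1, by omega⟩
  have e : (∑ g ∈ range m, if w g then u g % 2 ^ (j + 1) else 0) =
      (∑ g ∈ range m, if w g then u g % 2 ^ j else 0) +
        2 ^ j * ∑ g ∈ range m, if w g then u g / 2 ^ j % 2 else 0 := by
    rw [mul_sum, ← sum_add_distrib]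
    refine sum_congr rfl fun g _ => ?_
    split_ifs
    · exact Nat.mod_pow_succ
    · simp
  unfold Pd
  rw [e, Nat.mod_pow_succ, show 2 * (c + 1) + τ / 2 ^ j % 2 - 1 = 2 * c + 1 + τ / 2 ^ j % 2 by omega,
    pow_succ]
  simp only [range_zero, sum_empty]
  constructor <;> intro h <;> nlinarith

theorem Pd_bound (hr : r ≤ m) (h : Pd w u τ m j r c) : c < 2 * m + 2 := by
  have p : 0 < 2 ^ j := by positivity
  have h1 : (∑ g ∈ range m, if w g then u g % 2 ^ j else 0) ≤ ∑ _g ∈ range m, 2 ^ j :=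
    sum_le_sum fun g _ => by
      split_ifs
      exacts [(Nat.mod_lt _ p).le, Nat.zero_le _]
  have h2 : (∑ g ∈ range r, if w g then u g / 2 ^ j % 2 else 0) ≤ ∑ _g ∈ range r, 1 :=
    sum_le_sum fun g _ => by split_ifs <;> omega
  simp only [sum_const, card_range, smul_eq_mul, mul_one] at h1 h2
  have h3 := Nat.mul_le_mul_left (2 ^ j) (h2.trans hr)
  unfold Pd at h
  by_contra hc
  have h4 := Nat.mul_le_mul_right (2 ^ j) (not_lt.1 hc)
  nlinarith [Nat.zero_le (τ % 2 ^ j)]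

theorem Pd_top (hu : ∀ g < m, u g < 2 ^ j) (ht : τ < 2 ^ j) :
    Pd w u τ m j 0 1 ↔ τ ≤ ∑ g ∈ range m, if w g then u g else 0 := by
  unfold Pd
  rw [Nat.mod_eq_of_lt ht, sum_congr rfl (g := fun g => if w g then u g else 0) fun g hg => by
    rw [Nat.mod_eq_of_lt (hu g (mem_range.1 hg))]]
  simp

end

abbrev Tab : Type := List (List BN)
abbrev Dat : Type := (ℕ × ℕ × ℕ) × Tab × Tab × Tab × Tab × List BN
abbrev Name : Type := ℕ × ℕ × ℕ × ℕ × ℕ × ℕ

def g2 (M : Tab) (i j : ℕ) : BN := (M.getD i []).getD j (toBN 0)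
def dn (D : Dat) : ℕ := D.1.1
def dm (D : Dat) : ℕ := D.1.2.1
def dL (D : Dat) : ℕ := D.1.2.2
def du (D : Dat) (i g : ℕ) : BN := g2 D.2.1 i g
def da (D : Dat) (i g : ℕ) : BN := g2 D.2.2.1 i g
def dt (D : Dat) (i k : ℕ) : BN := g2 D.2.2.2.1 i k
def dl (D : Dat) (i k : ℕ) : BN := g2 D.2.2.2.2.1 i k
def db (D : Dat) (i : ℕ) : BN := D.2.2.2.2.2.getD i (toBN 0)
def bit (x : BN) (j : ℕ) : ℕ := bif bodd (bshr j x) then 1 else 0

theorem bit_eq (x : BN) (j : ℕ) : bit x j = x.v / 2 ^ j % 2 := by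
  rcases Nat.mod_two_eq_zero_or_one (x.v / 2 ^ j) with e | e <;> simp [bit, bodd, e]

def qown (v : Name) : Bool := decide (v.1 = 1) || decide (v.1 = 3)

def qs3 (D : Dat) (i k j r c : ℕ) : List (Name × ℤ) :=
  if c = 0 then [((3, i, k, j, r, c), 0)]
  else if 0 < r then [((3, i, k, j, r - 1, c), 0), ((4, i, k, j, r - 1, c), 0)]
  else if j = 0 then [((3, i, k, j, r, c), if c ≤ 1 then 0 else -1)]
  else if 2 * c + bit (dt D i k) (j - 1) - 1 < 2 * dm D + 2 then
    [((3, i, k, j - 1, dm D, 2 * c + bit (dt D i k) (j - 1) - 1), 0)]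
  else [((3, i, k, j, r, c), -1)]

def qs4 (D : Dat) (i k j r c : ℕ) : List (Name × ℤ) :=
  if bit (du D i r) j = 1 then ((3, i, k, j, r, c - 1), 0) ::
    ((List.range (dn D)).filter fun l => decide (l ≠ i) && !ble (du D l r) (toBN 0)).map
      fun l => ((1, l, 0, 0, 0, 0), zsub (da D i r) (badd (da D l r) (toBN 5)))
  else [((4, i, k, j, r, c), -1)]

def qsucc (D : Dat) (v : Name) : List (Name × ℤ) :=
  if v.1 = 0 then (List.range (dn D)).map fun i => ((1, i, 0, 0, 0, 0), zsub (db D i) (toBN 0))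
  else if v.1 = 1 then (List.range 5).map fun k => ((2, v.2.1, k, 0, 0, 0), 0)
  else if v.1 = 2 then [((0, 0, 0, 0, 0, 0), zsub (toBN 0) (dl D v.2.1 v.2.2.1)),
    ((3, v.2.1, v.2.2.1, dL D, 0, 1), 0)]
  else if v.1 = 3 then qs3 D v.2.1 v.2.2.1 v.2.2.2.1 v.2.2.2.2.1 v.2.2.2.2.2
  else qs4 D v.2.1 v.2.2.1 v.2.2.2.1 v.2.2.2.2.1 v.2.2.2.2.2

def nodes (D : Dat) : List Name :=
  (List.range 5).flatMap fun t => (List.range (dn D)).flatMap fun i =>
    (List.range 5).flatMap fun k => (List.range (dL D + 1)).flatMap fun j =>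
      (List.range (dm D + 1)).flatMap fun r => (List.range (2 * dm D + 2)).map fun c =>
        (t, i, k, j, r, c)

theorem mem_nodes {D : Dat} {t i k j r c : ℕ} : (t, i, k, j, r, c) ∈ nodes D ↔
    t < 5 ∧ i < dn D ∧ k < 5 ∧ j ≤ dL D ∧ r ≤ dm D ∧ c < 2 * dm D + 2 := by
  simp only [nodes, List.mem_flatMap, List.mem_range, List.mem_map, Prod.mk.injEq]
  constructor
  · rintro ⟨_, h1, _, h2, _, h3, _, h4, _, h5, _, h6, rfl, rfl, rfl, rfl, rfl, rfl⟩
    omega
  · rintro ⟨h1, h2, h3, h4, h5, h6⟩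
    exact ⟨_, h1, _, h2, _, h3, _, by omega, _, by omega, _, h6, rfl, rfl, rfl, rfl, rfl, rfl⟩

def qgame (D : Dat) : Game := named (nodes D) qown (qsucc D) (0, 0, 0, 0, 0, 0)

theorem qsucc_closed {D : Dat} (hn : 0 < dn D) :
    ∀ v ∈ nodes D, qsucc D v ≠ [] ∧ ∀ x ∈ qsucc D v, x.1 ∈ nodes D := by
  rintro ⟨t, i, k, j, r, c⟩ hv
  obtain ⟨h1, h2, h3, h4, h5, h6⟩ := mem_nodes.1 hv
  obtain rfl | rfl | rfl | rfl | rfl : t = 0 ∨ t = 1 ∨ t = 2 ∨ t = 3 ∨ t = 4 := by omega
  · simp [qsucc, mem_nodes]; omega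
  · simp [qsucc, mem_nodes]; omega
  · simp [qsucc, mem_nodes]; omega
  · simp only [qsucc, qs3]
    split_ifs <;> simp [mem_nodes] <;> omega
  · by_cases e : bit (du D i r) j = 1
    · simp only [qsucc, qs4, e, Nat.reduceEqDiff, if_false, if_true, List.mem_cons, List.mem_map,
        List.mem_filter, List.mem_range]
      refine ⟨by simp, ?_⟩
      rintro x (rfl | ⟨l, ⟨hl, -⟩, rfl⟩) <;> exact mem_nodes.2 (by omega)
    · simp [qsucc, qs4, e, mem_nodes]; omega

theorem qgame_spec {D : Dat} (hn : 0 < dn D)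
    (hu : ∀ i < dn D, ∀ g < dm D, (du D i g).v < 2 ^ dL D)
    (ht : ∀ i < dn D, ∀ k < 5, (dt D i k).v < 2 ^ dL D) :
    ValidGame (qgame D) ∧ (MaxWins (qgame D) ↔ ∃ y : ℕ → ℕ, ∀ i < dn D, y i ≤ (db D i).v ∧
      ∃ k < 5, (dl D i k).v ≤ y i ∧ (dt D i k).v ≤
        wsum (dn D) (dm D) (fun i g => (du D i g).v) (fun i g => (da D i g).v) y i) := by
  obtain ⟨hV, hW⟩ := named_spec qown (s := (0, 0, 0, 0, 0, 0)) (mem_nodes.2 (by omega))
    (qsucc_closed hn)
  refine ⟨hV, hW.trans ⟨?_, ?_⟩⟩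
  · rintro ⟨B, π, h0, h1⟩
    have k0 := (h1 _ (mem_nodes.2 (by omega)) h0).2 rfl
    simp only [qsucc, if_true, List.mem_map, List.mem_range, forall_exists_index, and_imp,
      forall_apply_eq_imp_iff₂, zsub, toBN_v] at k0
    have k1 : ∀ i < dn D, ∃ k < 5, π (1, i, 0, 0, 0, 0) + (dl D i k).v ≤ π (0, 0, 0, 0, 0, 0) ∧
        B (3, i, k, dL D, 0, 1) ∧ π (1, i, 0, 0, 0, 0) ≤ π (3, i, k, dL D, 0, 1) := by
      intro i hi
      obtain ⟨x, hx, b1, b2⟩ := (h1 _ (mem_nodes.2 (by omega)) (k0 i hi).1).1 rfl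
      simp only [qsucc, one_ne_zero, if_false, if_true, List.mem_map, List.mem_range] at hx
      obtain ⟨k, hk, rfl⟩ := hx
      have := (h1 _ (mem_nodes.2 (by omega)) b1).2 rfl
      simp [qsucc, zsub] at this b2
      exact ⟨k, hk, by omega, this.2.1, by omega⟩
    refine ⟨fun i => (π (0, 0, 0, 0, 0, 0) - π (1, i, 0, 0, 0, 0)).toNat, fun i hi => ?_⟩
    obtain ⟨k, hk, b1, b2, b3⟩ := k1 i hi
    refine ⟨by have := (k0 i hi).2; simp only; omega, k, hk, by simp only; omega, ?_⟩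
    unfold wsum
    rw [← Pd_top (hu i hi) (ht i hi k hk)]
    generalize hw : Wn (dn D) (fun i g => (du D i g).v) (fun i g => (da D i g).v)
      (fun i => (π (0, 0, 0, 0, 0, 0) - π (1, i, 0, 0, 0, 0)).toNat) i = w
    suffices H : ∀ j ≤ dL D, ∀ r ≤ dm D, ∀ c < 2 * dm D + 2, B (3, i, k, j, r, c) →
        π (1, i, 0, 0, 0, 0) ≤ π (3, i, k, j, r, c) →
        Pd w (fun g => (du D i g).v) (dt D i k).v (dm D) j r c from
      H _ le_rfl 0 (by omega) 1 (by omega) b2 b3
    have step : ∀ j ≤ dL D, (∀ c < 2 * dm D + 2, B (3, i, k, j, 0, c) →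
        π (1, i, 0, 0, 0, 0) ≤ π (3, i, k, j, 0, c) →
        Pd w (fun g => (du D i g).v) (dt D i k).v (dm D) j 0 c) →
        ∀ r ≤ dm D, ∀ c < 2 * dm D + 2, B (3, i, k, j, r, c) →
        π (1, i, 0, 0, 0, 0) ≤ π (3, i, k, j, r, c) →
        Pd w (fun g => (du D i g).v) (dt D i k).v (dm D) j r c := by
      intro j hj H r
      induction r with
      | zero => exact fun _ => H
      | succ r ih =>
        intro hr c hc b p
        by_cases c0 : c = 0
        · subst c0; exact Pd_zero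
        obtain ⟨x, hx, b1, b2⟩ := (h1 _ (mem_nodes.2 (by omega)) b).1 rfl
        simp [qsucc, qs3, c0] at hx
        rw [Pd_r c0]
        rcases hx with rfl | rfl
        · exact Or.inl (ih (by omega) c hc b1 (by simp only at b2; omega))
        · have := (h1 _ (mem_nodes.2 (by omega)) b1).2 rfl
          by_cases e : bit (du D i r) j = 1
          · simp [qsucc, qs4, e, zsub] at this b2
            rw [bit_eq] at e
            refine Or.inr ⟨?_, e, ih (by omega) _ (by omega) this.1.1 (by omega)⟩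
            rw [← hw]
            refine ⟨Nat.pos_of_ne_zero fun h => ?_, fun l hl hli hp => ?_⟩
            · simp only at h; simp [h] at e
            · obtain ⟨k', -, b4, -⟩ := k1 l hl
              have := (this.2 _ _ _ _ _ _ _ l hl hli (by simpa [ble, Nat.pos_iff_ne_zero] using hp)
                rfl rfl rfl rfl rfl rfl rfl).2
              simp only; omega
          · simp [qsucc, qs4, e] at this
    intro j
    induction j with
    | zero =>
      refine fun hj => step 0 hj fun c hc b p => ?_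
      by_cases c0 : c = 0
      · subst c0; exact Pd_zero
      obtain ⟨x, hx, b1, b2⟩ := (h1 _ (mem_nodes.2 (by omega)) b).1 rfl
      simp [qsucc, qs3, c0] at hx
      subst hx
      rw [Pd_base]
      by_contra hc
      simp [hc] at b2
    | succ j ih =>
      refine fun hj => step _ hj fun c hc b p => ?_
      by_cases c0 : c = 0
      · subst c0; exact Pd_zero
      obtain ⟨x, hx, b1, b2⟩ := (h1 _ (mem_nodes.2 (by omega)) b).1 rfl
      by_cases e : 2 * c + bit (dt D i k) j - 1 < 2 * dm D + 2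
      · simp [qsucc, qs3, c0, e] at hx
        subst hx
        rw [Pd_j c0, ← bit_eq]
        exact ih (by omega) _ le_rfl _ e b1 (by simp only at b2; omega)
      · simp [qsucc, qs3, c0, e] at hx
        subst hx
        simp at b2
  · rintro ⟨y, hy⟩
    let w := Wn (dn D) (fun i g => (du D i g).v) (fun i g => (da D i g).v) y
    let P := fun i k => Pd (w i) (fun g => (du D i g).v) (dt D i k).v (dm D)
    refine ⟨fun v => if v.1 = 2 then (dl D v.2.1 v.2.2.1).v ≤ y v.2.1 ∧ P v.2.1 v.2.2.1 (dL D) 0 1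
      else if v.1 = 3 then P v.2.1 v.2.2.1 v.2.2.2.1 v.2.2.2.2.1 v.2.2.2.2.2
      else if v.1 = 4 then w v.2.1 v.2.2.2.2.1 ∧ bit (du D v.2.1 v.2.2.2.2.1) v.2.2.2.1 = 1 ∧
        P v.2.1 v.2.2.1 v.2.2.2.1 v.2.2.2.2.1 (v.2.2.2.2.2 - 1) else True,
      fun v => if v.1 = 0 then 0 else -(y v.2.1 : ℤ), by simp, ?_⟩
    rintro ⟨t, i, k, j, r, c⟩ hv hb
    obtain ⟨h1, h2, h3, h4, h5, h6⟩ := mem_nodes.1 hv
    obtain rfl | rfl | rfl | rfl | rfl : t = 0 ∨ t = 1 ∨ t = 2 ∨ t = 3 ∨ t = 4 := by omega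
    · simp [qsucc, qown, zsub]
      exact fun l hl => (hy l hl).1
    · obtain ⟨-, k, hk, b1, b2⟩ := hy i h2
      refine ⟨fun _ => ⟨((2, i, k, 0, 0, 0), 0), by simp [qsucc, hk], ?_⟩, by simp [qown]⟩
      simpa [b1] using (Pd_top (hu i h2) (ht i h2 k hk)).2 b2
    · simp [qsucc, qown, zsub] at hb ⊢
      exact hb
    · refine ⟨fun _ => ?_, by simp [qown]⟩
      simp only [Nat.reduceEqDiff, if_false, if_true] at hb
      by_cases c0 : c = 0
      · simpa [qsucc, qs3, c0] using Pd_zero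
      rcases r with _ | r
      · rcases j with _ | j
        · have := Pd_base.1 hb
          simpa [qsucc, qs3, c0, this] using hb
        · have b1 := (Pd_j c0).1 hb
          have b2 := Pd_bound le_rfl b1
          rw [← bit_eq] at b1 b2
          simpa [qsucc, qs3, c0, b2] using b1
      · have b1 := (Pd_r c0).1 hb
        simpa [qsucc, qs3, c0, bit_eq] using b1
    · refine ⟨by simp [qown], fun _ => ?_⟩
      simp only [Nat.reduceEqDiff, if_false, if_true] at hb
      obtain ⟨b1, b2, b3⟩ := hb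
      simp only [qsucc, qs4, b2, Nat.reduceEqDiff, if_false, if_true, List.mem_cons, List.mem_map,
        List.mem_filter, List.mem_range]
      rintro x (rfl | ⟨l, ⟨hl, hp⟩, rfl⟩)
      · simpa using b3
      · simp [ble] at hp
        have := b1.2 l hl hp.1 (Nat.pos_of_ne_zero hp.2)
        simp [zsub] at this ⊢
        omega

/-- The game with vertex numbers in binary. -/
def qgameB (D : Dat) : GameB :=
  ((nodes D).map qown, (List.range (nodes D).length).flatMap fun i =>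
    (qsucc D ((nodes D).getD i (0, 0, 0, 0, 0, 0))).map fun e =>
      (toBN i, toBN ((nodes D).idxOf e.1), e.2), toBN ((nodes D).idxOf (0, 0, 0, 0, 0, 0)))

theorem toB_qgame (D : Dat) : toB (qgame D) = qgameB D := by
  simp [toB, qgame, qgameB, named, List.map_flatMap, Function.comp_def]

section
variable {α : Type} [Enc α] {D : α → Dat} {i j : α → ℕ}

@[fun_prop] theorem pt_g2 {M : α → Tab} (h : PT M) (hi : PT i) (hj : PT j) :
    PT fun a => g2 (M a) (i a) (j a) := by unfold g2; fun_prop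
@[fun_prop] theorem pt_dn (h : PT D) : PT fun a => dn (D a) := by unfold dn; fun_prop
@[fun_prop] theorem pt_dm (h : PT D) : PT fun a => dm (D a) := by unfold dm; fun_prop
@[fun_prop] theorem pt_dL (h : PT D) : PT fun a => dL (D a) := by unfold dL; fun_prop
@[fun_prop] theorem pt_du (h : PT D) (hi : PT i) (hj : PT j) :
    PT fun a => du (D a) (i a) (j a) := by unfold du; fun_prop
@[fun_prop] theorem pt_da (h : PT D) (hi : PT i) (hj : PT j) :
    PT fun a => da (D a) (i a) (j a) := by unfold da; fun_prop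
@[fun_prop] theorem pt_dt (h : PT D) (hi : PT i) (hj : PT j) :
    PT fun a => dt (D a) (i a) (j a) := by unfold dt; fun_prop
@[fun_prop] theorem pt_dl (h : PT D) (hi : PT i) (hj : PT j) :
    PT fun a => dl (D a) (i a) (j a) := by unfold dl; fun_prop
@[fun_prop] theorem pt_db (h : PT D) (hi : PT i) : PT fun a => db (D a) (i a) := by
  unfold db; fun_prop
@[fun_prop] theorem pt_bit {x : α → BN} (h : PT x) (hi : PT i) :
    PT fun a => bit (x a) (i a) := by unfold bit; fun_prop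
@[fun_prop] theorem pt_qs3 {k r c : α → ℕ} (h : PT D) (hi : PT i) (hk : PT k) (hj : PT j)
    (hr : PT r) (hc : PT c) : PT fun a => qs3 (D a) (i a) (k a) (j a) (r a) (c a) := by
  unfold qs3; fun_prop
@[fun_prop] theorem pt_qs4 {k r c : α → ℕ} (h : PT D) (hi : PT i) (hk : PT k) (hj : PT j)
    (hr : PT r) (hc : PT c) : PT fun a => qs4 (D a) (i a) (k a) (j a) (r a) (c a) := by
  unfold qs4; fun_prop
@[fun_prop] theorem pt_qsucc {v : α → Name} (h : PT D) (hv : PT v) :
    PT fun a => qsucc (D a) (v a) := by unfold qsucc; fun_prop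
@[fun_prop] theorem pt_qown {v : α → Name} (hv : PT v) : PT fun a => qown (v a) := by
  unfold qown; fun_prop
@[fun_prop] theorem pt_nodes (h : PT D) : PT fun a => nodes (D a) := by unfold nodes; fun_prop
@[fun_prop] theorem pt_qgameB (h : PT D) : PT fun a => qgameB (D a) := by unfold qgameB; fun_prop

end

end Pool.Agent.P.MP_12de15_lc
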