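import Pool.Agent.P.MP_12de15_lc.Game

/-! Max wins a mean-payoff game exactly when a potential exists; games on named vertices. -/

namespace Pool.Agent.P.MP_12de15_lc

open Finset

/-- A potential on a set `B` of vertices that Max can keep. -/
def HasPot (G : Game) : Prop :=
  ∃ (B : ℕ → Prop) (π : ℕ → ℤ), B G.2.2 ∧
    (∀ v < G.1.length, B v → G.1.getD v false = true →
      ∃ e ∈ G.2.1, e.1 = v ∧ B e.2.1 ∧ π v ≤ π e.2.1 + e.2.2) ∧
    ∀ e ∈ G.2.1, B e.1 → G.1.getD e.1 false = false → B e.2.1 ∧ π e.1 ≤ π e.2.1 + e.2.2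

theorem pot_of_win {G : Game} (hG : ValidGame G) (hw : MaxWins G) : HasPot G := by
  classical
  set n := G.1.length with hn
  obtain ⟨g, hg⟩ : ∃ g : ℕ, ∀ e ∈ G.2.1, |(4 * (n + 1) : ℤ) * e.2.2| + 3 ≤ g := by
    obtain ⟨b, hb⟩ := (G.2.1.finite_toSet.image
      fun e => |(4 * (n + 1) : ℤ) * e.2.2| + 3).bddAbove
    exact ⟨b.toNat, fun e he => (hb ⟨e, he, rfl⟩).trans (Int.self_le_toNat b)⟩
  let H : ℕ := 2 * (n * (g + 1)) + 2
  let S : (ℕ → ℕ) → Prop := fun ℓ => (∀ v, ℓ v ≤ H) ∧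
    (∀ v < n, 0 < ℓ v → G.1.getD v false = true →
      ∃ e ∈ G.2.1, e.1 = v ∧ (ℓ v : ℤ) ≤ ℓ e.2.1 + (4 * (n + 1) : ℤ) * e.2.2 + 2) ∧
    ∀ e ∈ G.2.1, 0 < ℓ e.1 → G.1.getD e.1 false = false →
      (ℓ e.1 : ℤ) ≤ ℓ e.2.1 + (4 * (n + 1) : ℤ) * e.2.2 + 2
  have hex : ∃ k, ∃ ℓ, S ℓ ∧ ∑ v ∈ range n, (H - ℓ v) = k :=
    ⟨_, fun _ => 0, ⟨fun _ => Nat.zero_le _, fun _ _ h => absurd h (by simp),
      fun _ _ h => absurd h (by simp)⟩, rfl⟩
  obtain ⟨ℓ, ⟨h1, h2, h3⟩, hk⟩ := Nat.find_spec hex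
  have up : ∀ v < n, ℓ v < H → ¬ S (Function.update ℓ v (ℓ v + 1)) := by
    intro v hv hlt hS
    refine Nat.find_min hex ?_ ⟨_, hS, rfl⟩
    rw [← hk]
    refine sum_lt_sum (fun u _ => ?_) ⟨v, mem_range.2 hv, by simp; omega⟩
    by_cases e : u = v
    · subst e; simp; omega
    · simp [e]
  have ge : ∀ v u, (ℓ u : ℤ) ≤ Function.update ℓ v (ℓ v + 1) u := by
    intro v u
    by_cases e : u = v
    · subst e; simp
    · simp [e]
  have bd : ∀ v, ℓ v < H → ∀ u, Function.update ℓ v (ℓ v + 1) u ≤ H := by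
    intro v hv u
    by_cases e : u = v
    · subst e; simpa using hv
    · simpa [e] using h1 u
  have cast : ∀ (a b : ℕ) (w c : ℤ), (a : ℤ) ≤ b + (4 * (n + 1) : ℤ) * w + c →
      (a : ℝ) ≤ b + (4 * (n + 1) : ℝ) * w + c := fun a b w c h => by exact_mod_cast h
  have cast' : ∀ (a b : ℕ) (w : ℤ), (b : ℤ) + (4 * (n + 1) : ℤ) * w + 1 ≤ a →
      (b : ℝ) + (4 * (n + 1) : ℝ) * w + 1 ≤ a := fun a b w h => by exact_mod_cast h
  have hg' : ∀ e ∈ G.2.1, |(4 * (n + 1) : ℝ) * e.2.2| + 3 ≤ g := fun e he => by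
    exact_mod_cast hg e he
  have gpos : (0 : ℝ) < g + 1 := by positivity
  by_cases hs : n * (g + 1) < ℓ G.2.2
  · obtain ⟨τ, t1, t2, t3⟩ := exists_gap n (fun v => (ℓ v : ℝ)) (ℓ G.2.2) (g + 1) gpos
    obtain ⟨π, hπ⟩ := exists_round n fun v => (ℓ v : ℝ)
    have hs' : (n : ℝ) * (g + 1) < ℓ G.2.2 := by exact_mod_cast hs
    have pos : ∀ v, τ ≤ ℓ v → 0 < ℓ v := fun v h => by
      have : (0 : ℝ) < ℓ v := by linarith
      exact_mod_cast this
    refine ⟨fun v => τ ≤ ℓ v, π, t2, fun v hv hb ho => ?_, fun e he hb ho => ?_⟩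
    · obtain ⟨e, he, e1, e2⟩ := h2 v hv (pos v hb) ho
      have k1 := cast _ _ _ _ e2
      have k2 := hg' e he
      have k3 := le_abs_self ((4 * (n + 1) : ℝ) * e.2.2)
      push_cast at k1
      exact ⟨e, he, e1, t3 _ (hG.2.1 e he).2 (by linarith),
        hπ _ (hG.2.1 e he).2 _ hv _ (by linarith)⟩
    · have k1 := cast _ _ _ _ (h3 e he (pos _ hb) ho)
      have k2 := hg' e he
      have k3 := le_abs_self ((4 * (n + 1) : ℝ) * e.2.2)
      push_cast at k1
      exact ⟨t3 _ (hG.2.1 e he).2 (by linarith),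
        hπ _ (hG.2.1 e he).2 _ (hG.2.1 e he).1 _ (by linarith)⟩
  · refine absurd hw (lose_of_sup hG (fun v => (ℓ v : ℝ)) H (g + 1) (4 * (n + 1)) gpos
      (by positivity) (fun e he => ?_) ?_ (fun v hv hlt ho => ?_) fun e he hlt ho => ?_)
    · have k2 := hg' e he
      have k3 := neg_abs_le ((4 * (n + 1) : ℝ) * e.2.2)
      linarith
    · have : ℓ G.2.2 + n * (g + 1) < H := by omega
      exact_mod_cast this
    · have hlt' : ℓ v < H := by exact_mod_cast hlt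
      by_contra hc
      push Not at hc
      refine up v hv hlt' ⟨bd v hlt', fun u hu hp hou => ?_, fun e he hp hou => ?_⟩
      · have e : u ≠ v := by rintro rfl; rw [ho] at hou; simp at hou
        rw [Function.update_of_ne e] at hp ⊢
        obtain ⟨e, he, e1, e2⟩ := h2 u hu hp hou
        exact ⟨e, he, e1, by linarith [ge v e.2.1]⟩
      · by_cases e' : e.1 = v
        · have k1 := hc e he e'
          have k2 : ¬ ((ℓ e.2.1 : ℤ) + (4 * (n + 1) : ℤ) * e.2.2 + 1 ≤ ℓ v) := fun h =>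
            absurd (cast' _ _ _ h) (not_le.2 k1)
          rw [e', Function.update_self]
          push_cast
          linarith [ge v e.2.1]
        · rw [Function.update_of_ne e'] at hp ⊢
          linarith [ge v e.2.1, h3 e he hp hou]
    · have hlt' : ℓ e.1 < H := by exact_mod_cast hlt
      by_contra hc
      refine up e.1 (hG.2.1 e he).1 hlt' ⟨bd _ hlt', fun u hu hp hou => ?_, fun e' he' hp hou => ?_⟩
      · by_cases e' : u = e.1
        · have k2 : ¬ ((ℓ e.2.1 : ℤ) + (4 * (n + 1) : ℤ) * e.2.2 + 1 ≤ ℓ e.1) := fun h =>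
            hc (cast' _ _ _ h)
          refine ⟨e, he, e'.symm, ?_⟩
          rw [e', Function.update_self]
          push_cast
          linarith [ge e.1 e.2.1]
        · rw [Function.update_of_ne e'] at hp ⊢
          obtain ⟨e', he', e1, e2⟩ := h2 u hu hp hou
          exact ⟨e', he', e1, by linarith [ge e.1 e'.2.1]⟩
      · have k : e'.1 ≠ e.1 := fun k => by rw [k, ho] at hou; simp at hou
        rw [Function.update_of_ne k] at hp ⊢
        linarith [ge e.1 e'.2.1, h3 e' he' hp hou]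

theorem win_iff_pot {G : Game} (hG : ValidGame G) : MaxWins G ↔ HasPot G :=
  ⟨pot_of_win hG, fun ⟨B, π, h0, h1, h2⟩ => win_of_pot hG B π h0 h1 h2⟩

section Named

variable {ν : Type} [BEq ν] [LawfulBEq ν]

/-- The game on the list `L` of names. -/
def named (L : List ν) (own : ν → Bool) (succ : ν → List (ν × ℤ)) (s : ν) : Game :=
  (L.map own, (List.range L.length).flatMap fun i =>
    (succ (L.getD i s)).map fun e => (i, L.idxOf e.1, e.2), L.idxOf s)

omit [LawfulBEq ν] in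
theorem mem_named {L : List ν} {own : ν → Bool} {succ : ν → List (ν × ℤ)} {s : ν} {e : Edge} :
    e ∈ (named L own succ s).2.1 ↔ e.1 < L.length ∧
      ∃ x ∈ succ (L.getD e.1 s), e.2.1 = L.idxOf x.1 ∧ e.2.2 = x.2 := by
  simp only [named, List.mem_flatMap, List.mem_range, List.mem_map]
  constructor
  · rintro ⟨i, hi, x, hx, rfl⟩
    exact ⟨hi, x, hx, rfl, rfl⟩
  · rintro ⟨hi, x, hx, e1, e2⟩
    exact ⟨e.1, hi, x, hx, Prod.ext rfl (Prod.ext e1.symm e2.symm)⟩

theorem named_spec {L : List ν} (own : ν → Bool) {succ : ν → List (ν × ℤ)} {s : ν} (hs : s ∈ L)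
    (hc : ∀ v ∈ L, succ v ≠ [] ∧ ∀ x ∈ succ v, x.1 ∈ L) :
    ValidGame (named L own succ s) ∧ (MaxWins (named L own succ s) ↔
      ∃ (B : ν → Prop) (π : ν → ℤ), B s ∧ ∀ v ∈ L, B v →
        (own v = true → ∃ x ∈ succ v, B x.1 ∧ π v ≤ π x.1 + x.2) ∧
        (own v = false → ∀ x ∈ succ v, B x.1 ∧ π v ≤ π x.1 + x.2)) := by
  have hl : (named L own succ s).1.length = L.length := by simp [named]
  have hm : ∀ i < L.length, L.getD i s ∈ L := fun i hi => by
    rw [List.getD_eq_getElem _ _ hi]; exact List.getElem_mem _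
  have hi : ∀ v ∈ L, L.getD (L.idxOf v) s = v := fun v hv => by
    rw [List.getD_eq_getElem _ _ (List.idxOf_lt_length_of_mem hv)]; simp
  have ho : ∀ i < L.length, (named L own succ s).1.getD i false = own (L.getD i s) :=
    fun i hi => by
      rw [List.getD_eq_getElem _ _ (hl ▸ hi), List.getD_eq_getElem _ _ hi]; simp [named]
  have hV : ValidGame (named L own succ s) := by
    refine ⟨hl ▸ List.idxOf_lt_length_of_mem hs, fun e he => ?_, fun v hv => ?_⟩
    · obtain ⟨h1, x, hx, e1, -⟩ := mem_named.1 he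
      rw [hl, e1]
      exact ⟨h1, List.idxOf_lt_length_of_mem ((hc _ (hm _ h1)).2 x hx)⟩
    · rw [hl] at hv
      obtain ⟨x, hx⟩ := List.exists_mem_of_ne_nil _ (hc _ (hm v hv)).1
      exact ⟨(v, L.idxOf x.1, x.2), mem_named.2 ⟨hv, x, hx, rfl, rfl⟩, rfl⟩
  refine ⟨hV, (win_iff_pot hV).trans ⟨?_, ?_⟩⟩
  · rintro ⟨B, π, h0, h1, h2⟩
    refine ⟨fun v => B (L.idxOf v), fun v => π (L.idxOf v), h0, fun v hv hb => ?_⟩
    have k := List.idxOf_lt_length_of_mem hv
    refine ⟨fun h => ?_, fun h x hx => ?_⟩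
    · obtain ⟨e, he, e1, e2⟩ := h1 _ (hl ▸ k) hb (by rw [ho _ k, hi v hv, h])
      obtain ⟨-, x, hx, e3, e4⟩ := mem_named.1 he
      rw [e1, hi v hv] at hx
      rw [e3, e4] at e2
      exact ⟨x, hx, e2⟩
    · exact h2 (L.idxOf v, L.idxOf x.1, x.2) (mem_named.2 ⟨k, x, by rwa [hi v hv], rfl, rfl⟩) hb
        (by rw [ho _ k, hi v hv, h])
  · rintro ⟨B, π, h0, h1⟩
    refine ⟨fun i => B (L.getD i s), fun i => π (L.getD i s), by
      change B (L.getD (L.idxOf s) s); rwa [hi s hs], fun v hv hb h => ?_, fun e he hb h => ?_⟩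
    · rw [hl] at hv
      rw [ho v hv] at h
      obtain ⟨x, hx, e⟩ := (h1 _ (hm v hv) hb).1 h
      refine ⟨(v, L.idxOf x.1, x.2), mem_named.2 ⟨hv, x, hx, rfl, rfl⟩, rfl, ?_⟩
      simp only [hi _ ((hc _ (hm v hv)).2 x hx)]
      exact e
    · obtain ⟨k, x, hx, e3, e4⟩ := mem_named.1 he
      rw [ho _ k] at h
      simp only [e3, e4, hi _ ((hc _ (hm _ k)).2 x hx)]
      exact (h1 _ (hm _ k) hb).2 h x hx

end Named

end Pool.Agent.P.MP_12de15_lc
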