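import Pool.Agent.P.MP_12de15_lc.Defs

/-! Exact prices from approximate prices, and fractional Pareto optimality from prices. -/

namespace Pool.Agent.P.MP_12de15_lc

open Finset

section
variable (m : ℕ) (u : ℕ → ℕ → ℕ) (A : ℕ → ℕ)

def pok : ℕ → List ℕ → Prop
  | _, [] => True
  | i, g :: l => (g < m ∧ 0 < u i g) ∧ pok (A g) l

def pden : ℕ → List ℕ → ℕ
  | _, [] => 1
  | i, g :: l => u i g * pden (A g) l

def pend : ℕ → List ℕ → ℕ
  | i, [] => i
  | _, g :: l => pend (A g) l

def pnum (l : List ℕ) : ℕ := (l.map fun g => u (A g) g).prod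

variable {m u A}

theorem pok_append (p q : List ℕ) :
    ∀ i, pok m u A i (q ++ p) ↔ pok m u A i q ∧ pok m u A (pend A i q) p := by
  induction q with
  | nil => simp [pok, pend]
  | cons g q ih => intro i; simp [pok, pend, ih, and_assoc]

theorem pden_append (p q : List ℕ) :
    ∀ i, pden u A i (q ++ p) = pden u A i q * pden u A (pend A i q) p := by
  induction q with
  | nil => simp [pden, pend]
  | cons g q ih => intro i; simp [pden, pend, ih, mul_assoc]

theorem pend_concat (h : ℕ) (q : List ℕ) : ∀ i, pend A i (q ++ [h]) = A h := by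
  induction q with
  | nil => simp [pend]
  | cons g q ih => intro i; simp [pend, ih]

theorem exact_prices {n V : ℕ} {lam : ℕ → ℝ} {ρ : ℝ} (hl : ∀ i, 0 < lam i) (hρ : 1 ≤ ρ)
    (hV : 0 < V) (hu : ∀ i < n, ∀ g < m, u i g ≤ V) (hA : ∀ g < m, A g < n)
    (h : ∀ g < m, ∀ i < n, 0 < u i g → 0 < u (A g) g ∧ lam i * u i g ≤ ρ * lam (A g) * u (A g) g)
    (hgap : ρ ^ n * (1 - 1 / (V : ℝ) ^ n) < 1) :
    ∃ μ : ℕ → ℝ, (∀ i < n, 0 < μ i) ∧ ∀ g < m, ∀ i < n, μ i * u i g ≤ μ (A g) * u (A g) g := by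
  have k1 : ∀ l, ∀ i < n, pok m u A i l → 0 < pnum u A l ∧ 0 < pden u A i l ∧
      pden u A i l ≤ V ^ l.length ∧ (∀ g ∈ l, g < m) ∧
      lam i * pden u A i l ≤ ρ ^ l.length * lam (pend A i l) * pnum u A l := by
    intro l
    induction l with
    | nil => simp [pnum, pden, pend]
    | cons g l ih =>
      rintro i hi ⟨⟨hg, hp⟩, ok⟩
      obtain ⟨a1, a2, a3, a4, a5⟩ := ih _ (hA g hg) ok
      obtain ⟨b1, b2⟩ := h g hg i hi hp
      have e : pnum u A (g :: l) = u (A g) g * pnum u A l := by simp [pnum]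
      refine ⟨e ▸ Nat.mul_pos b1 a1, Nat.mul_pos hp a2, ?_, by simpa [hg] using a4, ?_⟩
      · rw [List.length_cons, pow_succ']
        exact Nat.mul_le_mul (hu i hi g hg) a3
      · rw [e, List.length_cons, pow_succ']
        simp only [pden, pend]
        push_cast
        have c1 := mul_le_mul_of_nonneg_right b2 (Nat.cast_nonneg (α := ℝ) (pden u A (A g) l))
        have c2 := mul_le_mul_of_nonneg_left a5
          (show (0 : ℝ) ≤ ρ * u (A g) g by positivity)
        linarith
  have k2 : ∀ l : List ℕ, (∀ g ∈ l, g < m) → (l.map A).Nodup → l.length ≤ n := fun l h1 h2 => by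
    have := (List.subperm_of_subset h2 (l₂ := List.range n) fun a ha => by
      obtain ⟨g, hg, rfl⟩ := List.mem_map.1 ha
      exact List.mem_range.2 (hA g (h1 g hg))).length_le
    simpa using this
  have V1 : (1 : ℝ) ≤ V := by exact_mod_cast hV
  let S : ℕ → Set ℝ := fun i => {r | ∃ l, pok m u A i l ∧ (i :: l.map A).Nodup ∧
    r = (pnum u A l : ℝ) / pden u A i l}
  have hne : ∀ i, (S i).Nonempty := fun i => ⟨_, [], trivial, by simp, rfl⟩
  have hbd : ∀ i, BddBelow (S i) := fun i => ⟨0, by rintro _ ⟨l, -, -, rfl⟩; positivity⟩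
  refine ⟨fun i => sInf (S i), fun i hi => ?_, fun g hg i hi => ?_⟩
  · refine lt_of_lt_of_le (show (0 : ℝ) < 1 / V ^ n by positivity) (le_csInf (hne i) ?_)
    rintro _ ⟨l, ok, nd, rfl⟩
    obtain ⟨a1, a2, a3, a4, -⟩ := k1 l i hi ok
    refine div_le_div₀ (by positivity) (by exact_mod_cast a1) (by exact_mod_cast a2) ?_
    exact_mod_cast a3.trans (Nat.pow_le_pow_right hV (k2 l a4 nd.of_cons))
  rcases Nat.eq_zero_or_pos (u i g) with hp | hp
  · have := Real.sInf_nonneg (s := S (A g)) (by rintro _ ⟨l, -, -, rfl⟩; positivity)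
    simp only [hp, Nat.cast_zero, mul_zero]
    positivity
  have b1 : (0 : ℝ) < u (A g) g := by exact_mod_cast (h g hg i hi hp).1
  have b2 : (0 : ℝ) < u i g := by exact_mod_cast hp
  rw [← div_le_iff₀ b1]
  refine le_csInf (hne _) ?_
  rintro _ ⟨l, ok, nd, rfl⟩
  have ok' : pok m u A i (g :: l) := ⟨⟨hg, hp⟩, ok⟩
  have e : (pnum u A l : ℝ) / pden u A (A g) l =
      (pnum u A (g :: l) : ℝ) / pden u A i (g :: l) * u i g / u (A g) g := by
    have := (k1 l _ (hA g hg) ok).2.1
    simp only [pnum, pden, List.map_cons, List.prod_cons]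
    push_cast
    field_simp
  rw [e]
  refine div_le_div_of_nonneg_right (mul_le_mul_of_nonneg_right ?_ b2.le) b1.le
  by_cases hm : i ∈ (g :: l).map A
  · obtain ⟨h', hh, rfl⟩ := List.mem_map.1 hm
    obtain ⟨q, p, e⟩ := List.append_of_mem hh
    have nd' : ((g :: l).map A).Nodup := nd
    have e' : g :: l = (q ++ [h']) ++ p := by simp [e]
    rw [e'] at ok' nd' ⊢
    rw [pok_append, pend_concat] at ok'
    obtain ⟨a1, a2, a3, a4, a5⟩ := k1 _ _ hi ok'.1
    obtain ⟨c1, c2, -⟩ := k1 _ _ hi ok'.2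
    have len := k2 _ a4 (by rw [List.map_append] at nd'; exact nd'.of_append_left)
    have cyc : pden u A (A h') (q ++ [h']) ≤ pnum u A (q ++ [h']) := by
      by_contra hc
      rw [pend_concat] at a5
      have d1 : (pnum u A (q ++ [h']) : ℝ) + 1 ≤ pden u A (A h') (q ++ [h']) := by
        exact_mod_cast not_le.1 hc
      have d2 : (pden u A (A h') (q ++ [h']) : ℝ) ≤ V ^ n := by
        exact_mod_cast a3.trans (Nat.pow_le_pow_right hV len)
      have d3 : (0 : ℝ) < pden u A (A h') (q ++ [h']) := by exact_mod_cast a2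
      have d4 := pow_le_pow_right₀ hρ len
      have d5 : (0 : ℝ) ≤ pnum u A (q ++ [h']) := Nat.cast_nonneg _
      generalize (pden u A (A h') (q ++ [h']) : ℝ) = D at *
      generalize (pnum u A (q ++ [h']) : ℝ) = N at *
      have d6 : D ≤ ρ ^ n * N := le_of_mul_le_mul_left (a5.trans (by
        have := mul_le_mul_of_nonneg_right d4 (mul_nonneg (hl (A h')).le d5)
        linarith)) (hl (A h'))
      have d7 : D * (1 / V ^ n) ≤ 1 := by rw [mul_one_div]; exact div_le_one_of_le₀ d2 (by positivity)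
      have d8 := mul_le_mul_of_nonneg_left (show N ≤ D * (1 - 1 / V ^ n) by linarith)
        (show 0 ≤ ρ ^ n by positivity)
      nlinarith
    refine (csInf_le (hbd _) ⟨p, ok'.2, ?_, rfl⟩).trans ?_
    · simp only [List.map_append, List.append_assoc, List.map_cons, List.map_nil,
        List.singleton_append] at nd'
      exact nd'.of_append_right
    · have : pnum u A (q ++ [h'] ++ p) = pnum u A (q ++ [h']) * pnum u A p := by simp [pnum, mul_assoc]
      rw [this, pden_append, pend_concat, div_le_div_iff₀ (by exact_mod_cast c2)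
        (by exact_mod_cast Nat.mul_pos a2 c2)]
      have := Nat.mul_le_mul_right (pnum u A p * pden u A (A h') p) cyc
      exact_mod_cast (by nlinarith : pnum u A p * (pden u A (A h') (q ++ [h']) * pden u A (A h') p) ≤
        pnum u A (q ++ [h']) * pnum u A p * pden u A (A h') p)
  · exact csInf_le (hbd _) ⟨g :: l, ok', List.nodup_cons.2 ⟨hm, nd⟩, rfl⟩

end

theorem fpo_of_prices {I : Inst} {A : List ℕ} (hA : ∀ g < nGoods I, A.getD g 0 < nAgents I)
    (μ : ℕ → ℝ) (hμ : ∀ i < nAgents I, 0 < μ i)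
    (h : ∀ g < nGoods I, ∀ i < nAgents I,
      μ i * val I i g ≤ μ (A.getD g 0) * val I (A.getD g 0) g) : FPO I A := by
  rintro ⟨x, h0, h1, h2, j, hj, h3⟩
  have e1 : ∑ i ∈ range (nAgents I), μ i * (bval I i (bundle I A i) : ℝ) =
      ∑ g ∈ range (nGoods I), μ (A.getD g 0) * val I (A.getD g 0) g := by
    rw [← sum_fiberwise_of_maps_to (s := range (nGoods I)) (t := range (nAgents I))
      (g := fun g => A.getD g 0) fun g hg => mem_range.2 (hA g (mem_range.1 hg))]
    refine sum_congr rfl fun i _ => ?_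
    unfold bval bundle
    push_cast
    rw [mul_sum]
    exact sum_congr rfl fun g hg => by rw [(mem_filter.1 hg).2]
  have e2 : ∑ i ∈ range (nAgents I), μ i * ∑ g ∈ range (nGoods I), x i g * (val I i g : ℝ) ≤
      ∑ g ∈ range (nGoods I), μ (A.getD g 0) * val I (A.getD g 0) g := by
    simp only [mul_sum]
    rw [sum_comm]
    refine sum_le_sum fun g hg => ?_
    rw [← one_mul (μ (A.getD g 0) * _), ← h1 g (mem_range.1 hg), sum_mul]
    refine sum_le_sum fun i hi => ?_
    rw [mul_left_comm]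
    exact mul_le_mul_of_nonneg_left (h g (mem_range.1 hg) i (mem_range.1 hi))
      (h0 i (mem_range.1 hi) g (mem_range.1 hg))
  refine absurd (e1 ▸ e2) (not_le.2 (sum_lt_sum (fun i hi => ?_) ⟨j, mem_range.2 hj, ?_⟩))
  · exact mul_le_mul_of_nonneg_left (h2 i (mem_range.1 hi)) (hμ i (mem_range.1 hi)).le
  · exact mul_lt_mul_of_pos_left h3 (hμ j hj)

end Pool.Agent.P.MP_12de15_lc
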