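import Pool.Agent.P.MP_12de15_lc.UAlg
import Pool.Agent.P.MP_12de15_lc.UPrice
import Pool.Agent.P.MP_12de15_lc.Main

/-! Correctness of the algorithm with an oracle for mean-payoff games. -/

namespace Pool.Agent.P.MP_12de15_lc

open Finset Pool.Agent.Lib.NP N487b59b3 N68a2faeb Classical

theorem getD_map_range {β : Type} (n : ℕ) (F : ℕ → β) (d : β) {i : ℕ} (hi : i < n) :
    ((List.range n).map F).getD i d = F i := by
  rw [List.getD_eq_getElem _ _ (by simpa using hi)]; simp

theorem g2_table (n m : ℕ) (F : ℕ → ℕ → BN) {i g : ℕ} (hi : i < n) (hg : g < m) :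
    g2 ((List.range n).map fun i => (List.range m).map (F i)) i g = F i g := by
  unfold g2
  rw [getD_map_range _ _ _ hi, getD_map_range _ _ _ hg]

theorem sum_getD (l : List BN) :
    ∑ g ∈ range l.length, (l.getD g (toBN 0)).v = (l.map BN.v).sum := by
  induction l with
  | nil => simp
  | cons a l ih => rw [List.length_cons, sum_range_succ']; simp [← ih, add_comm]

/-- The integer values. -/
def uu (I : Inst) (i g : ℕ) : ℕ := (g2 (uT I) i g).v
/-- The perturbed logarithms of the values. -/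
def aa (I : Inst) (i g : ℕ) : ℕ := (g2 (aT I) i g).v
/-- The value needed at level `t`. -/
def nd (I : Inst) (t : ℕ) : ℕ := (needB I ⟨t⟩).v

section
variable {I : Inst} (hI : ValidInst I)
include hI

theorem uu_spec {i : ℕ} (hi : i < nAgents I) : 0 < (cI (I.getD i [])).v ∧
    (∀ g < nGoods I, (uu I i g : ℚ) = val I i g * (cI (I.getD i [])).v) ∧
    ∑ g ∈ range (nGoods I), uu I i g < 2 ^ aL I := by
  replace hi : i < I.length := hi
  have e : I.getD i [] = I[i] := List.getD_eq_getElem _ _ hi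
  have hr : I[i] ∈ I := List.getElem_mem _
  have hl := hI.2.1 _ hr
  have e2 : (uT I).getD i [] = I[i].map fun q => bdiv (bmul (qn q) (cI I[i])) (qd q) := by
    rw [List.getD_eq_getElem _ _ (by simpa [uT] using hi)]; simp [uT]
  refine ⟨?_, fun g hg => ?_, ?_⟩
  · rw [cI, bprod_v]
    refine List.prod_pos fun x hx => ?_
    simp only [List.map_map, List.mem_map] at hx
    obtain ⟨q, -, rfl⟩ := hx
    exact q.den_pos
  · unfold uu g2 val
    rw [e2, e, List.getD_eq_getElem _ _ (by simpa [hl] using hg),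
      List.getD_eq_getElem _ _ (hl ▸ hg), List.getElem_map]
    have hq : I[i][g]'(hl ▸ hg) ∈ I[i] := List.getElem_mem _
    have h0 := hI.2.2 _ hr _ hq
    generalize I[i][g]'(hl ▸ hg) = q at *
    have hd : q.den ∣ (cI I[i]).v := by
      rw [cI, bprod_v, List.map_map]
      exact List.dvd_prod (List.mem_map.2 ⟨q, hq, rfl⟩)
    change ((q.num.toNat * (cI I[i]).v / q.den : ℕ) : ℚ) = _
    rw [Nat.cast_div (hd.mul_left _) (by exact_mod_cast q.den_nz), Nat.cast_mul, mul_div_right_comm]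
    congr 1
    have : ((q.num.toNat : ℕ) : ℚ) = (q.num : ℚ) := by
      exact_mod_cast congrArg (Int.cast : ℤ → ℚ) (Int.toNat_of_nonneg (Rat.num_nonneg.2 h0))
    rw [this, Rat.num_div_den]
  · refine lt_of_le_of_lt ?_ (lt_blen _)
    have h1 := sum_getD ((uT I).getD i [])
    rw [show ((uT I).getD i []).length = nGoods I by rw [e2]; simpa using hl, ← bsum_v] at h1
    refine h1.trans_le ?_
    rw [bsum_v ((uT I).map bsum)]
    refine List.le_sum_of_mem (List.mem_map_of_mem (List.mem_map_of_mem ?_))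
    rw [List.getD_eq_getElem _ _ (by simpa [uT] using hi)]
    exact List.getElem_mem _

theorem uu_lt {i g : ℕ} (hi : i < nAgents I) (hg : g < nGoods I) : uu I i g < 2 ^ aL I :=
  (single_le_sum (f := uu I i) (fun _ _ => Nat.zero_le _) (mem_range.2 hg)).trans_lt
    (uu_spec hI hi).2.2

theorem part_lt {i : ℕ} (hi : i < nAgents I) (P : ℕ → Prop) :
    (∑ g ∈ range (nGoods I), if P g then uu I i g else 0) < 2 ^ aL I :=
  (sum_le_sum fun g _ => by split_ifs <;> simp).trans_lt (uu_spec hI hi).2.2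

end

theorem aa_eq (I : Inst) {i g : ℕ} (hi : i < nAgents I) (hg : g < nGoods I) :
    aa I i g = 2 ^ aq I * (lg (ak I) (ac I) (g2 (uT I) i g)).v +
      2 ^ ((nAgents I + 4) * (i * nGoods I + g + 1)) := by
  unfold aa aT
  rw [g2_table _ _ _ hi hg]
  rfl

theorem nd_spec (I : Inst) : Antitone (nd I) ∧ nd I (2 ^ aq I * (ac I * 2 ^ ak I)) = 0 ∧
    2 ^ aL I ≤ nd I 0 ∧ (∀ t, nd I t < 2 ^ (2 * ac I)) ∧
    ∀ t ≤ 2 ^ aq I * (ac I * 2 ^ ak I), ∀ w : ℕ,
      (nd I t ≤ w → (1 + 1 / 2 ^ ak I : ℝ) ^ (ac I * 2 ^ ak I) <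
        2 * (w + 1) * (1 + 1 / 2 ^ ak I) ^ (t / 2 ^ aq I + 1)) ∧
      (w < nd I t → 2 * (w + 1) * (1 + 1 / 2 ^ ak I : ℝ) ^ (t / 2 ^ aq I) ≤
        (1 + 1 / 2 ^ ak I) ^ (ac I * 2 ^ ak I)) := by
  have e : ∀ t, nd I t = (ex (ak I) (ac I) ⟨ac I * 2 ^ ak I - t / 2 ^ aq I⟩).v /
      2 ^ (2 * ak I + ac I + 2 + 1) := fun _ => rfl
  have hc : ac I = aL I + 3 := rfl
  simp only [show nd I = _ from funext e]
  generalize ak I = k at *
  generalize ac I = c at *
  generalize aq I = q at *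
  have sp := bexp_spec k c
  have bp := beta_pow k c
  change ∀ s, _ → (((ex k c ⟨s⟩).v : ℝ) ≤ _ ∧ _ ≤ _ * ((ex k c ⟨s⟩).v : ℝ)) at sp
  have e0 : (ex k c ⟨0⟩).v = 2 ^ (2 * k + c + 2) := rfl
  have x1 : (1 : ℝ) / 2 ^ k ≤ 1 := div_le_one_of_le₀ (one_le_pow₀ (by norm_num)) (by positivity)
  have b1 : (1 : ℝ) ≤ 1 + 1 / 2 ^ k := le_add_of_nonneg_right (by positivity)
  have b2 : (1 : ℝ) + 1 / 2 ^ k ≤ 2 := by linarith
  generalize (1 : ℝ) + 1 / 2 ^ k = β at *
  generalize 2 * k + c + 2 = P at *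
  generalize c * 2 ^ k = T at *
  have S : (0 : ℝ) < 2 ^ P := by positivity
  refine ⟨fun s t hst => Nat.div_le_div_right ?_, ?_, ?_, fun t => ?_, fun t ht w => ?_⟩
  · rcases (Nat.sub_le_sub_left (Nat.div_le_div_right (c := 2 ^ q) hst) T).eq_or_lt with h | h
    · rw [h]
    · have h1 := (sp _ (Nat.sub_le T (t / 2 ^ q))).1
      have h2 := (sp _ (Nat.sub_le T (s / 2 ^ q))).2
      have h3 := mul_le_mul_of_nonneg_left (pow_le_pow_right₀ b1 (Nat.succ_le_of_lt h)) S.le
      rw [pow_succ] at h3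
      have h4 := mul_le_mul_of_nonneg_left h1 (zero_le_one.trans b1)
      exact Nat.cast_le.1 (le_of_mul_le_mul_left (a := β) (by linarith) (by linarith))
  · rw [Nat.mul_div_cancel_left _ (by positivity), Nat.sub_self, e0]
    exact Nat.div_eq_of_lt (Nat.pow_lt_pow_right (by norm_num) (by omega))
  · rw [Nat.zero_div, Nat.sub_zero, Nat.le_div_iff_mul_le (by positivity)]
    have h1 := (sp T le_rfl).2
    have h2 := mul_le_mul_of_nonneg_left bp.1 S.le
    have h3 := mul_le_mul_of_nonneg_right b2 (Nat.cast_nonneg (α := ℝ) (ex k c ⟨T⟩).v)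
    have h4 : (0 : ℝ) < 2 ^ P * 2 ^ aL I := by positivity
    rw [hc, pow_add] at h2
    have : (2 : ℝ) ^ aL I * 2 ^ (P + 1) ≤ (ex k c ⟨T⟩).v := by
      rw [pow_succ]; rw [hc] at *; linarith
    exact_mod_cast this
  · rw [Nat.div_lt_iff_lt_mul (by positivity)]
    have h1 := (sp _ (Nat.sub_le T (t / 2 ^ q))).1
    have h2 := mul_le_mul_of_nonneg_left ((pow_le_pow_right₀ b1 (Nat.sub_le T (t / 2 ^ q))).trans
      bp.2) S.le
    have h4 : (0 : ℝ) < 2 ^ P * 2 ^ (2 * c) := by positivity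
    have : ((ex k c ⟨T - t / 2 ^ q⟩).v : ℝ) < 2 ^ (2 * c) * 2 ^ (P + 1) := by
      rw [pow_succ]; linarith
    exact_mod_cast this
  · have hy : t / 2 ^ q ≤ T := Nat.div_le_of_le_mul ht
    obtain ⟨h1, h2⟩ := sp _ (Nat.sub_le T (t / 2 ^ q))
    have eT : β ^ T = β ^ (T - t / 2 ^ q) * β ^ (t / 2 ^ q) := by
      rw [← pow_add, Nat.sub_add_cancel hy]
    have p : 0 < β ^ (t / 2 ^ q) := by positivity
    rw [eT, pow_succ β]
    refine ⟨fun h => ?_, fun h => mul_le_mul_of_nonneg_right ?_ p.le⟩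
    · have h3 := (Nat.div_lt_iff_lt_mul (by positivity)).1 (Nat.lt_succ_of_le h)
      have h4 : ((ex k c ⟨T - t / 2 ^ q⟩).v : ℝ) < (w + 1) * 2 ^ (P + 1) := by exact_mod_cast h3
      have h5 := mul_lt_mul_of_pos_left h4 (show 0 < β by linarith)
      rw [pow_succ] at h5
      have h6 : β ^ (T - t / 2 ^ q) < 2 * (w + 1) * β :=
        lt_of_mul_lt_mul_left (a := 2 ^ P) (by linarith) S.le
      have := mul_lt_mul_of_pos_right h6 p
      linarith
    · have h3 := (Nat.le_div_iff_mul_le (by positivity)).1 (Nat.succ_le_of_lt h)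
      have h4 : ((w + 1) * 2 ^ (P + 1) : ℝ) ≤ (ex k c ⟨T - t / 2 ^ q⟩).v := by exact_mod_cast h3
      rw [pow_succ] at h4
      exact le_of_mul_le_mul_left (a := 2 ^ P) (by linarith) S

theorem beta_small (k j : ℕ) (y : ℝ) (h : j / 2 ^ k < y) :
    (1 + 1 / 2 ^ k : ℝ) ^ j * (1 - y) < 1 := by
  have x1 : (1 : ℝ) / 2 ^ k ≤ 1 := div_le_one_of_le₀ (one_le_pow₀ (by norm_num)) (by positivity)
  have x0 : (0 : ℝ) < 1 / 2 ^ k := by positivity
  rw [div_eq_mul_one_div] at h
  generalize (1 : ℝ) / 2 ^ k = x at *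
  have h1 := one_add_mul_le_pow (a := -x) (by linarith) j
  have h2 : ((1 + x) * (1 + -x)) ^ j ≤ 1 := pow_le_one₀ (by nlinarith) (by nlinarith)
  rw [mul_pow] at h2
  have h3 : 0 < (1 + x) ^ j := by positivity
  nlinarith

section
variable {f : GameB → Bool} (hf : ∀ G, ValidGame G → (f (toB G) = true ↔ MaxWins G))
  {I : Inst} (hI : ValidInst I) {x : ℕ → ℕ}
  (hx : Least (nAgents I) (nGoods I) (uu I) (aa I) (nd I) x)
include hf hI hx

theorem query {lo : List BN} {j i0 : ℕ} (cc : ℕ) (h0 : i0 < nAgents I)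
    (hw : ∀ i < nAgents I, (lo.getD i (toBN 0)).v ≤ x i ∧
      x i ≤ (lo.getD i (toBN 0)).v + 4 * 2 ^ j) :
    (f (qgameB (dat I lo j i0 cc)) = true → x i0 ≤ (lo.getD i0 (toBN 0)).v + cc * 2 ^ j) ∧
    (¬ f (qgameB (dat I lo j i0 cc)) = true →
      (lo.getD i0 (toBN 0)).v + cc * 2 ^ j < x i0 + 2 ^ j) := by
  have e1 : ∀ i < nAgents I, ∀ k < 5,
      (dt (dat I lo j i0 cc) i k).v = nd I ((lo.getD i (toBN 0)).v + k * 2 ^ j) :=
    fun i hi k hk => congrArg BN.v (g2_table _ _ _ hi hk)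
  have e2 : ∀ i < nAgents I, ∀ k < 5,
      (dl (dat I lo j i0 cc) i k).v = (lo.getD i (toBN 0)).v + k * 2 ^ j :=
    fun i hi k hk => congrArg BN.v (g2_table _ _ _ hi hk)
  have e3 : ∀ i < nAgents I, (db (dat I lo j i0 cc) i).v =
      (lo.getD i (toBN 0)).v + (if i = i0 then cc else 5) * 2 ^ j :=
    fun i hi => congrArg BN.v (getD_map_range _ _ _ hi)
  obtain ⟨hV, hW⟩ := qgame_spec (D := dat I lo j i0 cc) (show 0 < nAgents I by omega)
    (fun i hi g hg => (uu_lt hI hi hg).trans_le (Nat.pow_le_pow_right (by norm_num)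
      (show aL I ≤ 2 * (aL I + 3) by omega)))
    (fun i hi k hk => by rw [e1 i hi k hk]; exact (nd_spec I).2.2.2.1 _)
  refine window hx (nd_spec I).1 hw h0 ?_
  rw [← toB_qgame, hf _ hV, hW]
  refine exists_congr fun y => forall₂_congr fun i hi => ?_
  rw [e3 i hi]
  refine and_congr_right fun _ => exists_congr fun k => and_congr_right fun hk => ?_
  rw [e1 i hi k hk, e2 i hi k hk]
  rfl

theorem levels_aux (K : ℕ) : ∀ lo : List BN, (∀ i < nAgents I, (lo.getD i (toBN 0)).v ≤ x i ∧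
      x i ≤ (lo.getD i (toBN 0)).v + 4 * 2 ^ K) → ∀ i < nAgents I,
    (((List.range K).reverse.foldl (fun lo j => phase f I lo (j + 1)) lo).getD i (toBN 0)).v ≤ x i ∧
    x i ≤ (((List.range K).reverse.foldl (fun lo j => phase f I lo (j + 1)) lo).getD i
      (toBN 0)).v + 4 := by
  induction K with
  | zero => exact fun lo h => by simpa using h
  | succ K ih =>
    intro lo h
    rw [List.range_succ, List.reverse_append, List.reverse_singleton, List.singleton_append,
      List.foldl_cons]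
    refine ih _ fun i hi => ?_
    have q2 := query hf hI hx 2 hi h
    have q3 := query hf hI hx 3 hi h
    have h1 := h i hi
    rw [phase, getD_map_range _ _ _ hi]
    rw [pow_succ] at q2 q3 h1
    cases e2 : f (qgameB (dat I lo (K + 1) i 2)) <;>
      cases e3 : f (qgameB (dat I lo (K + 1) i 3)) <;>
      simp only [e2, e3, cond_true, cond_false, lev, badd_v, bsmul_v, bpow2_v, pow_succ,
        Bool.false_eq_true, not_false_eq_true, forall_const] at q2 q3 ⊢ <;> omega

end

theorem pick_spec {I : Inst} (hI : ValidInst I) (lo : List BN) {x : ℕ → ℕ}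
    (hw : ∀ i < nAgents I, (lo.getD i (toBN 0)).v ≤ x i ∧ x i ≤ (lo.getD i (toBN 0)).v + 4) :
    IsAlloc I (pick I lo) ∧ ∀ g < nGoods I, ∀ j < nAgents I,
      Wn (nAgents I) (uu I) (aa I) x j g → (pick I lo).getD g 0 = j := by
  have hn : 0 < nAgents I := List.length_pos_iff.2 hI.1
  have hb : ∀ g i, best I lo g i = true ↔ 0 < uu I i g ∧ ∀ k < nAgents I, 0 < uu I k g →
      (lo.getD k (toBN 0)).v + aa I k g ≤ (lo.getD i (toBN 0)).v + aa I i g := by
    intro g i
    simp only [best, ble, uu, aa, Bool.and_eq_true, Bool.not_eq_true', decide_eq_false_iff_not,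
      List.all_eq_true, List.mem_range, Bool.or_eq_true, decide_eq_true_eq, toBN_v, badd_v, not_le]
    exact and_congr_right fun _ => forall₂_congr fun k _ => by omega
  refine ⟨⟨by simp [pick], fun a ha => ?_⟩, fun g hg j hj w => ?_⟩
  · obtain ⟨g, -, rfl⟩ := List.mem_map.1 ha
    cases h : (List.range (nAgents I)).filter (best I lo g) with
    | nil => exact hn
    | cons b l =>
      have : b ∈ (List.range (nAgents I)).filter (best I lo g) := by simp [h]
      exact List.mem_range.1 (List.mem_filter.1 this).1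
  · rw [pick, getD_map_range _ _ _ hg]
    cases h : (List.range (nAgents I)).filter (best I lo g) with
    | nil =>
      have : j ∈ (List.range (nAgents I)).filter (best I lo g) := by
        refine List.mem_filter.2 ⟨List.mem_range.2 hj, (hb g j).2 ⟨w.1, fun k hk hp => ?_⟩⟩
        by_cases e : k = j
        · rw [e]
        · have := w.2 k hk e hp
          have := hw k hk
          have := hw j hj
          omega
      simp [h] at this
    | cons b l =>
      have : b ∈ (List.range (nAgents I)).filter (best I lo g) := by simp [h]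
      obtain ⟨h1, h2⟩ := List.mem_filter.1 this
      rw [List.mem_range] at h1
      obtain ⟨h3, h4⟩ := (hb g b).1 h2
      by_contra e
      have := w.2 b h1 e h3
      have := h4 j hj w.1
      have := hw b h1
      have := hw j hj
      omega

theorem FPO.po {I : Inst} {A : List ℕ} (h : FPO I A) : PO I A := by
  rintro ⟨B, hB, h1, j, hj, h2⟩
  have e : ∀ i, ∑ g ∈ range (nGoods I), (if B.getD g 0 = i then (1 : ℝ) else 0) * (val I i g : ℝ) =
      (bval I i (bundle I B i) : ℝ) := fun i => by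
    simp [bval, bundle, sum_filter, apply_ite]
  refine h ⟨fun i g => if B.getD g 0 = i then 1 else 0, fun i _ g _ => by positivity,
    fun g hg => ?_, fun i hi => ?_, j, hj, ?_⟩
  · have : g < B.length := hB.1 ▸ hg
    have : B.getD g 0 < nAgents I := by
      rw [List.getD_eq_getElem _ _ this]; exact hB.2 _ (List.getElem_mem _)
    rw [sum_ite_eq, if_pos (mem_range.2 this)]
  · rw [e]; exact_mod_cast h1 i hi
  · rw [e]; exact_mod_cast h2

theorem alloc_correct {f : GameB → Bool} (hf : ∀ G, ValidGame G → (f (toB G) = true ↔ MaxWins G))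
    {I : Inst} (hI : ValidInst I) :
    IsAlloc I (alloc f I) ∧ EF1 I (alloc f I) ∧ FPO I (alloc f I) := by
  obtain ⟨n1, n2, n3, -, n5⟩ := nd_spec I
  have hn : 0 < nAgents I := List.length_pos_iff.2 hI.1
  have top : Sup (nAgents I) (nGoods I) (uu I) (aa I) (nd I)
      fun _ => 2 ^ aq I * (ac I * 2 ^ ak I) := fun i _ => n2.trans_le (Nat.zero_le _)
  obtain ⟨x, hx⟩ := exists_least ⟨_, top⟩
  have xle := hx.2 _ top
  have x0 : ∀ i < nAgents I, x i ≠ 0 := fun i hi e => by
    have h1 := hx.1 i hi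
    have h2 := part_lt hI hi (Wn (nAgents I) (uu I) (aa I) x i)
    rw [e, wsum] at h1
    omega
  obtain ⟨crit, hc⟩ := generic (B := 2 ^ (nAgents I + 4)) hx
    (by have := Nat.lt_two_pow_self (n := nAgents I); rw [pow_add]; omega)
    (fun i hi g hg => ⟨_, by rw [aa_eq I hi hg, ← pow_mul, ← pow_mul]; rfl⟩)
    (fun t ht => le_of_eq (by
      rw [← pow_mul] at ht
      change (needB I ⟨t - 1⟩).v = (needB I ⟨t⟩).v
      have : bshr (aq I) ⟨t - 1⟩ = bshr (aq I) ⟨t⟩ := by
        obtain ⟨t, rfl⟩ : ∃ s, t = s + 1 := ⟨t - 1, by rcases t with _ | t <;> simp at ht ⊢⟩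
        exact BN.ext (Nat.succ_div_of_not_dvd fun h => ht (Nat.mod_eq_zero_of_dvd h)).symm
      rw [needB, needB, this]))
  obtain ⟨hA, hW⟩ := pick_spec hI (levels f I) (levels_aux hf hI hx _ [] fun i hi => ⟨by simp, by
    have h1 := Nat.mul_le_mul_right (2 ^ ak I) (Nat.lt_two_pow_self (n := ac I)).le
    have h2 := Nat.mul_le_mul_left (2 ^ aq I) h1
    have h3 := xle i hi
    rw [pow_add, pow_add]
    nlinarith [Nat.zero_le (([] : List BN).getD i (toBN 0)).v]⟩)
  change IsAlloc I (alloc f I) at hA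
  change ∀ g < _, ∀ j < _, _ → (alloc f I).getD g 0 = j at hW
  generalize alloc f I = A at *
  have hAn : ∀ g < nGoods I, A.getD g 0 < nAgents I := fun g hg => by
    rw [List.getD_eq_getElem _ _ (hA.1 ▸ hg)]; exact hA.2 _ (List.getElem_mem _)
  have hW' : ∀ g < nGoods I, ∀ i < nAgents I, 0 < uu I i g →
      Wn (nAgents I) (uu I) (aa I) x (A.getD g 0) g := fun g hg i hi hp => by
    obtain ⟨j, hj, w⟩ := cover hc hg hi hp
    rwa [hW g hg j hj w]
  have hβ : (1 : ℝ) ≤ 1 + 1 / 2 ^ ak I := le_add_of_nonneg_right (by positivity)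
  have hα : ∀ i < nAgents I, ∀ g < nGoods I, 0 < uu I i g →
      (1 + 1 / 2 ^ ak I : ℝ) ^ (lg (ak I) (ac I) (g2 (uT I) i g)).v ≤
        (1 + 1 / 2 ^ ak I) * uu I i g ∧
      uu I i g ≤ (1 + 1 / 2 ^ ak I : ℝ) ^ ((lg (ak I) (ac I) (g2 (uT I) i g)).v + 1) :=
    fun i hi g hg hp => lg_spec _ _ _ hp (by
      have := uu_lt hI hi hg
      rw [ac, pow_add]
      change 2 * uu I i g < _
      omega)
  have ha : ∀ i < nAgents I, ∀ g < nGoods I,
      2 ^ aq I * (lg (ak I) (ac I) (g2 (uT I) i g)).v ≤ aa I i g ∧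
      aa I i g < 2 ^ aq I * (lg (ak I) (ac I) (g2 (uT I) i g)).v + 2 ^ aq I := fun i hi g hg => by
    rw [aa_eq I hi hg]
    exact ⟨Nat.le_add_right _ _, Nat.add_lt_add_left (Nat.pow_lt_pow_right (by norm_num)
      (Nat.mul_lt_mul_of_pos_left (pos_lt hi hg) (by omega))) _⟩
  have hk : (2 : ℝ) ^ ak I = (2 ^ aL I) ^ nAgents I * 2 ^ nAgents I * 8 := by
    rw [ak, pow_add, pow_add, pow_mul]; norm_num
  have L1 : (1 : ℝ) ≤ 2 ^ aL I := one_le_pow₀ (by norm_num)
  have hn2 : (nAgents I : ℝ) < 2 ^ nAgents I := by exact_mod_cast Nat.lt_two_pow_self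
  refine ⟨hA, fun i hi j hj hne => ?_, ?_⟩
  · obtain ⟨c0, c1, -⟩ := uu_spec hI hi
    have h1 := sub_crit hc hx hj (x0 j hj)
    have h2 : (∑ g ∈ range (nGoods I), if Wn (nAgents I) (uu I) (aa I) x j g ∧ g ≠ crit j
        then uu I j g else 0) < 2 ^ aL I := by
      convert part_lt hI hj fun g => Wn (nAgents I) (uu I) (aa I) x j g ∧ g ≠ crit j
    have h3 := ef1_aux hβ hα ha hi hj ((n5 _ (xle i hi) _).1 (hx.1 i hi)) rfl
      ((n5 _ ((Nat.sub_le _ 1).trans (xle j hj)) _).2 h1) (by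
        generalize (∑ g ∈ range (nGoods I), if Wn (nAgents I) (uu I) (aa I) x j g ∧ g ≠ crit j
          then uu I j g else 0) = w at *
        have w0 : (0 : ℝ) < w + 1 := by positivity
        have w1 : (w + 1 : ℝ) ≤ 2 ^ aL I := by exact_mod_cast h2
        have := beta_small (ak I) 5 (1 / (w + 1)) (by
          rw [div_lt_div_iff₀ (by positivity) w0, hk]
          have d1 := le_self_pow₀ L1 hn.ne'
          have d2 : (1 : ℝ) ≤ 2 ^ nAgents I := one_le_pow₀ (by norm_num)
          push_cast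
          nlinarith)
        rwa [one_sub_div w0.ne', add_sub_cancel_right, ← mul_div_assoc, div_lt_one w0] at this)
    have key : ∀ S ⊆ range (nGoods I), bval I i S * (cI (I.getD i [])).v =
        (∑ g ∈ S, uu I i g : ℕ) := fun S hS => by
      rw [bval, sum_mul]
      push_cast
      exact sum_congr rfl fun g hg => (c1 g (mem_range.1 (hS hg))).symm
    obtain ⟨g0, hg0, e0⟩ : ∃ g0 ∈ bundle I A j, ∀ g ∈ bundle I A j, g ≠ g0 → g ≠ crit j := by
      by_cases h : crit j ∈ bundle I A j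
      · exact ⟨_, h, fun _ _ h => h⟩
      · obtain ⟨g0, h0⟩ := hne
        exact ⟨g0, h0, fun g hg _ e => h (e ▸ hg)⟩
    refine ⟨g0, hg0, le_of_mul_le_mul_right ?_ (show (0 : ℚ) < (cI (I.getD i [])).v by
      exact_mod_cast c0)⟩
    rw [key (bundle I A j \ {g0}) (sdiff_subset.trans (filter_subset _ _)),
      key (bundle I A i) (filter_subset _ _), Nat.cast_le]
    refine le_trans ?_ (h3.trans ?_)
    · rw [← sum_filter]
      refine sum_le_sum_of_ne_zero fun g hg hp => ?_
      rw [mem_sdiff, mem_singleton] at hg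
      obtain ⟨h4, h5⟩ := mem_filter.1 hg.1
      exact mem_filter.2 ⟨h4, h5 ▸ hW' g (mem_range.1 h4) i hi (Nat.pos_of_ne_zero hp),
        e0 g hg.1 hg.2⟩
    · rw [wsum, ← sum_filter]
      refine sum_le_sum_of_subset fun g hg => ?_
      obtain ⟨h4, h5⟩ := mem_filter.1 hg
      exact mem_filter.2 ⟨h4, hW g (mem_range.1 h4) i hi h5⟩
  · obtain ⟨μ, m1, m2⟩ := exact_prices (m := nGoods I) (u := uu I) (A := fun g => A.getD g 0)
      (n := nAgents I) (V := 2 ^ aL I) (lam := fun i => (1 + 1 / 2 ^ ak I) ^ (x i / 2 ^ aq I))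
      (ρ := (1 + 1 / 2 ^ ak I) ^ 3) (fun _ => by positivity) (one_le_pow₀ hβ) (by positivity)
      (fun i hi g hg => (uu_lt hI hi hg).le) hAn
      (fun g hg i hi hp => ⟨(hW' g hg i hi hp).1,
        mbb hβ hα ha hi (hAn g hg) hg (hW' g hg i hi hp)⟩) (by
        rw [← pow_mul]
        push_cast
        refine beta_small _ _ _ ?_
        rw [div_lt_div_iff₀ (by positivity) (by positivity), hk]
        have : (0 : ℝ) < (2 ^ aL I) ^ nAgents I := by positivity
        have : (0 : ℝ) < 2 ^ nAgents I := by positivity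
        push_cast
        nlinarith)
    have cv : ∀ i < nAgents I, ∀ g < nGoods I,
        (uu I i g : ℝ) = (cI (I.getD i [])).v * val I i g := fun i hi g hg => by
      rw [mul_comm]
      exact_mod_cast (uu_spec hI hi).2.1 g hg
    refine fpo_of_prices hAn (fun i => μ i * (cI (I.getD i [])).v)
      (fun i hi => mul_pos (m1 i hi) (by exact_mod_cast (uu_spec hI hi).1)) fun g hg i hi => ?_
    rw [mul_assoc, mul_assoc, ← cv i hi g hg, ← cv _ (hAn g hg) g hg]
    exact m2 g hg i hi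

def ofB (G : GameB) : Game := (G.1, G.2.1.map fun e => (e.1.v, e.2.1.v, e.2.2), G.2.2.v)

theorem toB_ofB (G : GameB) : toB (ofB G) = G := by
  simp [toB, ofB, Function.comp_def, toBN]

theorem ofB_toB (G : Game) : ofB (toB G) = G := by
  simp [toB, ofB, Function.comp_def]

theorem fair_of_games {f : Game → Bool} (h1 : IsPolyTime f)
    (h2 : ∀ G, ValidGame G → (f G = true ↔ MaxWins G)) :
    ∃ F : Inst → List ℕ, IsPolyTime F ∧
      ∀ I, ValidInst I → IsAlloc I (F I) ∧ EF1 I (F I) ∧ PO I (F I) ∧ FPO I (F I) := by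
  have hf : PT fun G : GameB => f (ofB G) :=
    PT.of_typed h1 fun G => ⟨ofB G, by rw [← enc_toB, toB_ofB], rfl⟩
  refine ⟨alloc fun G => f (ofB G), isPolyTime_alloc hf, fun I hI => ?_⟩
  obtain ⟨a, b, c⟩ := alloc_correct (f := fun G => f (ofB G))
    (fun G hG => by rw [ofB_toB]; exact h2 G hG) hI
  exact ⟨a, b, c.po, c⟩

theorem games_of_fair {F : Inst → List ℕ} (h1 : IsPolyTime F)
    (h2 : ∀ I, ValidInst I → IsAlloc I (F I) ∧ EF1 I (F I) ∧ PO I (F I) ∧ FPO I (F I)) :
    ∃ f : Game → Bool, IsPolyTime f ∧ ∀ G, ValidGame G → (f G = true ↔ MaxWins G) := by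
  have hF : PT fun I : Inst => (F I).map toBN := PT.of_typed h1 fun I => ⟨I, rfl, by
    change ((((F I).map toBN).map enc).map delimit).flatten = _
    rw [List.map_map (f := toBN)]
    rfl⟩
  have h3 := hF.comp pt_red
  have h : PT fun G : GameB => decide (((F (red G)).map toBN).headD (toBN 0) = G.2.2) :=
    PT.decide_eq (h3.headD (PT.const _)) (by fun_prop)
  refine ⟨fun G => dec (G, F (red (toB G))), ?_, fun G hG => ?_⟩
  · refine PTe.toTM2 (ea := fun G : Game => bitEncode G) (e := fun b : Bool => bitEncode b)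
      (PTe.reindex h fun G => ⟨toB G, enc_toB G, ?_⟩)
    change [_] = [_]
    congr 1
    beta_reduce
    generalize F (red (toB G)) = A
    cases A <;> simp [dec, toB]
  · obtain ⟨a, b, -, c⟩ := h2 _ (valid_red (toB G))
    exact correct hG a b c

end Pool.Agent.P.MP_12de15_lc
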