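import Pool.Agent.P.MP_12de15_lc.UCirc

/-! The least level vector at which every agent wins enough, and its genericity. -/

namespace Pool.Agent.P.MP_12de15_lc

open Finset Classical

variable {n m : ℕ} {u a : ℕ → ℕ → ℕ} {need : ℕ → ℕ} {x y : ℕ → ℕ}

/-- Every agent wins at least the value it needs at its level. -/
def Sup (n m : ℕ) (u a : ℕ → ℕ → ℕ) (need : ℕ → ℕ) (x : ℕ → ℕ) : Prop :=
  ∀ i < n, need (x i) ≤ wsum n m u a x i

/-- The least level vector with `Sup`. -/
def Least (n m : ℕ) (u a : ℕ → ℕ → ℕ) (need : ℕ → ℕ) (x : ℕ → ℕ) : Prop :=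
  Sup n m u a need x ∧ ∀ y, Sup n m u a need y → ∀ i < n, x i ≤ y i

theorem wsum_mono {i : ℕ} (h : ∀ g < m, Wn n u a x i g → Wn n u a y i g) :
    wsum n m u a x i ≤ wsum n m u a y i :=
  sum_le_sum fun g hg => by
    by_cases e : Wn n u a x i g
    · simp [e, h g (mem_range.1 hg) e]
    · simp [e]

theorem Wn.unique {i k g : ℕ} (h1 : Wn n u a x i g) (h2 : Wn n u a x k g) (hi : i < n)
    (hk : k < n) : i = k := by
  by_contra e
  have := h1.2 k hk (Ne.symm e) h2.1
  have := h2.2 i hi e h1.1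
  omega

theorem exists_least (h : ∃ x, Sup n m u a need x) : ∃ x, Least n m u a need x := by
  have hex : ∃ k, ∃ x, Sup n m u a need x ∧ ∑ i ∈ range n, x i = k := by
    obtain ⟨x, hx⟩ := h
    exact ⟨_, x, hx, rfl⟩
  obtain ⟨x, hx, hk⟩ := Nat.find_spec hex
  refine ⟨x, hx, fun y hy i hi => ?_⟩
  by_contra hlt
  refine Nat.find_min hex ?_ ⟨fun j => min (x j) (y j), fun j hj => ?_, rfl⟩
  · rw [← hk]
    exact sum_lt_sum (fun j _ => min_le_left _ _) ⟨i, mem_range.2 hi, by omega⟩
  · rcases le_total (x j) (y j) with e | e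
    · simp only [min_eq_left e]
      refine (hx j hj).trans (wsum_mono fun g _ w => ⟨w.1, fun k hk hkj hp => ?_⟩)
      have := w.2 k hk hkj hp
      simp only; omega
    · simp only [min_eq_right e]
      refine (hy j hj).trans (wsum_mono fun g _ w => ⟨w.1, fun k hk hkj hp => ?_⟩)
      have := w.2 k hk hkj hp
      simp only; omega

theorem digit_zero (B : ℤ) (N : ℕ) : ∀ c : ℕ → ℤ, (∀ p, |c p| < B) →
    B ^ N ∣ ∑ p ∈ range N, c p * B ^ p → ∀ p < N, c p = 0 := by
  induction N with
  | zero => simp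
  | succ N ih =>
    intro c hc h
    have hB : B ≠ 0 := ((abs_nonneg _).trans_lt (hc 0)).ne'
    have e : ∑ p ∈ range (N + 1), c p * B ^ p = B * ∑ p ∈ range N, c (p + 1) * B ^ p + c 0 := by
      rw [sum_range_succ', mul_sum]
      simp only [pow_succ, pow_zero, mul_one]
      congr 1
      exact sum_congr rfl fun p _ => by ring
    rw [e, pow_succ'] at h
    have h0 : c 0 = 0 := Int.eq_zero_of_abs_lt_dvd
      ((dvd_add_right (dvd_mul_right _ _)).1 ((dvd_mul_right _ _).trans h)) (hc 0)
    rw [h0, add_zero, mul_dvd_mul_iff_left hB] at h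
    have := ih (fun p => c (p + 1)) (fun p => hc _) h
    rintro (_ | p) hp
    exacts [h0, this p (by omega)]

theorem pos_lt {i g : ℕ} (hi : i < n) (hg : g < m) : i * m + g + 1 < n * m + 1 := by
  have := Nat.mul_le_mul_right m (Nat.succ_le_of_lt hi)
  rw [Nat.succ_mul] at this
  omega

theorem pos_inj {i j g h : ℕ} (hg : g < m) (hh : h < m) (e : i * m + g + 1 = j * m + h + 1) :
    i = j ∧ g = h := by
  have : i = j := by
    rcases lt_trichotomy i j with k | k | k
    · have := pos_lt k hg; omega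
    · exact k
    · have := pos_lt k hh; omega
  subst this
  omega

theorem generic {B : ℕ} (hx : Least n m u a need x) (hB : 10 * n + 7 < B)
    (ha : ∀ i < n, ∀ g < m, ∃ t, a i g = B ^ (n * m + 1) * t + B ^ (i * m + g + 1))
    (hneed : ∀ t, t % B ^ (n * m + 1) ≠ 0 → need (t - 1) ≤ need t) :
    ∃ crit : ℕ → ℕ, ∀ i < n, ∀ k < n, i ≠ k → ∀ g < m, x i + a i g ≤ x k + a k g + 5 →
      x k + a k g ≤ x i + a i g + 5 →
      (g = crit i ∧ Wn n u a x i g) ∨ (g = crit k ∧ Wn n u a x k g) := by
  let val : (ℕ → ℤ) → ℤ := fun φ => ∑ p ∈ range (n * m + 1), φ p * (B : ℤ) ^ p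
  let δ : ℕ → ℕ → ℤ := fun q p => if p = q then 1 else 0
  have hval : ∀ (φ ψ : ℕ → ℤ) (q q' : ℕ) (d : ℤ), q < n * m + 1 → q' < n * m + 1 →
      val (fun p => φ p - ψ p + δ q p - δ q' p + d * δ 0 p) =
        val φ - val ψ + B ^ q - B ^ q' + d := by
    intro φ ψ q q' d hq hq'
    simp [val, δ, add_mul, sub_mul, sum_add_distrib, sum_sub_distrib, hq, hq']
  have hδ : ∀ q q' p (d : ℤ), |d| ≤ 5 → |δ (q + 1) p - δ (q' + 1) p + d * δ 0 p| ≤ 5 := by
    intro q q' p d hd
    simp only [δ]
    split_ifs <;> simp [hd] <;> omega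
  have main : ∀ r ≤ n, ∃ (J : Finset ℕ) (φ : ℕ → ℕ → ℤ), J.card = r ∧ ∀ i ∈ J, i < n ∧
      (B : ℤ) ^ (n * m + 1) ∣ x i - val (φ i) ∧ (∀ p, |φ i p| ≤ 5 * r) ∧
      (∀ j, ∀ g < m, φ i (j * m + g + 1) ≠ 0 → j ∈ J) ∧
      (∃ c, ∀ g < m, φ i (i * m + g + 1) ≠ 0 → g = c ∧ Wn n u a x i g) ∧
      ∀ k ∈ J, i ≠ k → (∀ g < m, φ k (i * m + g + 1) = 0) ∨ ∀ g < m, φ i (k * m + g + 1) = 0 := by
    intro r
    induction r with
    | zero => exact fun _ => ⟨∅, fun _ _ => 0, rfl, by simp⟩
    | succ r ih =>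
      intro hr
      obtain ⟨J, φ, hJ, H⟩ := ih (by omega)
      have hnew : ∃ i < n, i ∉ J ∧ ∃ ψ : ℕ → ℤ, (B : ℤ) ^ (n * m + 1) ∣ x i - val ψ ∧
          (∀ p, |ψ p| ≤ 5 * (r + 1 : ℕ)) ∧ (∀ j, ∀ g < m, ψ (j * m + g + 1) ≠ 0 → j ∈ insert i J) ∧
          ∃ c, ∀ g < m, ψ (i * m + g + 1) ≠ 0 → g = c ∧ Wn n u a x i g := by
        by_contra hc
        have c1 : ∀ i < n, i ∉ J → x i % B ^ (n * m + 1) ≠ 0 := fun i hi hiJ e =>
          hc ⟨i, hi, hiJ, fun _ => 0, by
            simpa [val] using Int.natCast_dvd_natCast.2 (Nat.dvd_of_mod_eq_zero e),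
            fun _ => by simp; positivity, by simp, 0, by simp⟩
        have c2 : ∀ i < n, i ∉ J → ∀ k ∈ J, ∀ g < m, Wn n u a x i g →
            x k + a k g + 5 ≠ x i + a i g := by
          intro i hi hiJ k hk g hg w e
          obtain ⟨k1, k2, k3, k4, -⟩ := H k hk
          refine hc ⟨i, hi, hiJ, fun p => φ k p - 0 + δ (k * m + g + 1) p - δ (i * m + g + 1) p +
            5 * δ 0 p, ?_, fun p => ?_, fun j h hh hne => ?_, g, fun h hh hne => ?_⟩
          · rw [hval _ (fun _ => 0) _ _ _ (pos_lt k1 hg) (pos_lt hi hg)]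
            obtain ⟨t, e1⟩ := ha i hi g hg
            obtain ⟨t', e2⟩ := ha k k1 g hg
            obtain ⟨s, e3⟩ := k2
            rw [e1, e2] at e
            have e' := congrArg (Nat.cast : ℕ → ℤ) e
            push_cast at e'
            refine ⟨s + t' - t, ?_⟩
            simp only [val, zero_mul, sum_const_zero] at e3 ⊢
            linarith
          · have b1 := abs_le.1 (hδ (k * m + g) (i * m + g) p 5 (by simp))
            have b2 := abs_le.1 (k3 p)
            push_cast
            exact abs_le.2 ⟨by linarith, by linarith⟩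
          · by_contra hj
            rw [mem_insert, not_or] at hj
            have b1 : φ k (j * m + h + 1) = 0 := by_contra fun b => hj.2 (k4 j h hh b)
            have b2 : j * m + h + 1 ≠ k * m + g + 1 := fun b => hj.2 ((pos_inj hh hg b).1 ▸ hk)
            have b3 : j * m + h + 1 ≠ i * m + g + 1 := fun b => hj.1 (pos_inj hh hg b).1
            exact hne (by simp only [δ, b1, if_neg b2, if_neg b3]; simp)
          · obtain rfl : h = g := by
              by_contra hj
              have b1 : φ k (i * m + h + 1) = 0 := by_contra fun b => hiJ (k4 i h hh b)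
              have b2 : i * m + h + 1 ≠ k * m + g + 1 := fun b => hiJ ((pos_inj hh hg b).1 ▸ hk)
              have b3 : i * m + h + 1 ≠ i * m + g + 1 := fun b => hj (pos_inj hh hg b).2
              exact hne (by simp only [δ, b1, if_neg b2, if_neg b3]; simp)
            exact ⟨rfl, w⟩
        have c3 : ∀ i < n, i ∉ J → x i ≠ 0 := fun i hi hiJ e => c1 i hi hiJ (by simp [e])
        obtain ⟨i, hi, hiJ⟩ := exists_mem_notMem_of_card_lt_card (s := J) (t := range n)
          (by simp; omega)
        rw [mem_range] at hi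
        have := hx.2 (fun j => if j ∈ J then x j else x j - 1) (fun j hj => ?_) i hi
        · have := c3 i hi hiJ
          simp only [if_neg hiJ] at *
          omega
        refine le_trans ?_ ((hx.1 j hj).trans
          (wsum_mono fun g hg w => ⟨w.1, fun k hk hkj hp => ?_⟩))
        · by_cases e : j ∈ J
          · simp [e]
          · simpa [e] using hneed _ (c1 j hj e)
        · have b1 := w.2 k hk hkj hp
          by_cases e : j ∈ J <;> by_cases e' : k ∈ J <;> simp only [e, e', if_true, if_false]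
          · exact b1
          · omega
          · have := c2 j hj e k e' g hg w
            have := c3 j hj e
            omega
          · have := c3 j hj e
            have := c3 k hk e'
            omega
      obtain ⟨i, hi, hiJ, ψ, p1, p2, p3, p4⟩ := hnew
      refine ⟨insert i J, Function.update φ i ψ, by rw [card_insert_of_notMem hiJ, hJ],
        fun j hj => ?_⟩
      have old : ∀ k ∈ J, ∀ g < m, Function.update φ i ψ k (i * m + g + 1) = 0 := by
        intro k hk g hg
        rw [Function.update_of_ne (by rintro rfl; exact hiJ hk)]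
        exact by_contra fun b => hiJ ((H k hk).2.2.2.1 i g hg b)
      rcases mem_insert.1 hj with rfl | hj'
      · rw [Function.update_self]
        exact ⟨hi, p1, p2, p3, p4, fun k hk hne =>
          Or.inl (old k ((mem_insert.1 hk).resolve_left hne.symm))⟩
      · obtain ⟨k1, k2, k3, k4, k5, k6⟩ := H j hj'
        have ne : j ≠ i := fun e => hiJ (e ▸ hj')
        refine ⟨k1, by rwa [Function.update_of_ne ne], fun p => ?_, fun l g hg b => ?_,
          by rwa [Function.update_of_ne ne], fun k hk hne => ?_⟩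
        · rw [Function.update_of_ne ne]
          push_cast
          linarith [k3 p]
        · rw [Function.update_of_ne ne] at b
          exact mem_insert_of_mem (k4 l g hg b)
        · rcases mem_insert.1 hk with rfl | hk'
          · exact Or.inr (old j hj')
          · rw [Function.update_of_ne ne,
              Function.update_of_ne (show k ≠ i from fun e => hiJ (e ▸ hk'))]
            exact k6 k hk' hne
  obtain ⟨J, φ, hJ, H⟩ := main n le_rfl
  obtain rfl : J = range n := eq_of_subset_of_card_le (fun i hi => mem_range.2 (H i hi).1)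
    (by simp [hJ])
  have tie : ∀ i < n, ∀ k < n, i ≠ k → ∀ g < m, x i + a i g ≤ x k + a k g + 5 →
      x k + a k g ≤ x i + a i g + 5 → φ k (i * m + g + 1) = 0 → φ i (i * m + g + 1) ≠ 0 := by
    intro i hi k hk hne g hg t1 t2 z1 z2
    obtain ⟨-, ⟨s, i2⟩, i3, -⟩ := H i (mem_range.2 hi)
    obtain ⟨-, ⟨s', k2⟩, k3, -⟩ := H k (mem_range.2 hk)
    have := digit_zero B (n * m + 1) (fun p => φ i p - φ k p + δ (i * m + g + 1) p -
      δ (k * m + g + 1) p + ((x k + a k g : ℕ) - (x i + a i g : ℕ)) * δ 0 p) (fun p => by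
        have b1 := abs_le.1 (hδ (i * m + g) (k * m + g) p ((x k + a k g : ℕ) - (x i + a i g : ℕ))
          (abs_le.2 ⟨by omega, by omega⟩))
        have b2 := abs_le.1 (i3 p)
        have b3 := abs_le.1 (k3 p)
        have b4 : (10 * n + 7 : ℤ) < B := by exact_mod_cast hB
        exact abs_lt.2 ⟨by linarith, by linarith⟩) (by
        obtain ⟨t, e1⟩ := ha i hi g hg
        obtain ⟨t', e2⟩ := ha k hk g hg
        refine ⟨s' - s + t' - t, (hval _ _ _ _ _ (pos_lt hi hg) (pos_lt hk hg)).trans ?_⟩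
        rw [e1, e2]
        push_cast
        linarith) _ (pos_lt hi hg)
    have b2 : i * m + g + 1 ≠ k * m + g + 1 := fun b => hne (pos_inj hg hg b).1
    simp only [δ, z1, z2, if_neg b2] at this
    simp at this
  choose! crit hcrit using fun i hi => (H i hi).2.2.2.2.1
  refine ⟨crit, fun i hi k hk hne g hg t1 t2 => ?_⟩
  rcases (H i (mem_range.2 hi)).2.2.2.2.2 k (mem_range.2 hk) hne with b | b
  · exact Or.inl (hcrit i (mem_range.2 hi) g hg (tie i hi k hk hne g hg t1 t2 (b g hg)))
  · exact Or.inr (hcrit k (mem_range.2 hk) g hg (tie k hk i hi hne.symm g hg t2 t1 (b g hg)))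

section
variable {crit : ℕ → ℕ} (hc : ∀ i < n, ∀ k < n, i ≠ k → ∀ g < m, x i + a i g ≤ x k + a k g + 5 →
      x k + a k g ≤ x i + a i g + 5 →
      (g = crit i ∧ Wn n u a x i g) ∨ (g = crit k ∧ Wn n u a x k g))
include hc

/-- Every good that somebody values has a winner. -/
theorem cover {g : ℕ} (hg : g < m) {i : ℕ} (hi : i < n) (hp : 0 < u i g) :
    ∃ j < n, Wn n u a x j g := by
  obtain ⟨j, hj, hmax⟩ := exists_max_image ((range n).filter fun j => 0 < u j g)
    (fun j => x j + a j g) ⟨i, by simp [hi, hp]⟩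
  simp only [mem_filter, mem_range, and_imp] at hj hmax
  by_contra h
  push Not at h
  refine h j hj.1 ⟨hj.2, fun k hk hkj hk' => ?_⟩
  by_contra h'
  have := hmax k hk hk'
  rcases hc j hj.1 k hk hkj.symm g hg (by omega) (by omega) with b | b
  exacts [h j hj.1 b.2, h k hk b.2]

/-- Without its critical good an agent has less than it would need one level lower. -/
theorem sub_crit (hx : Least n m u a need x) {j : ℕ} (hj : j < n) (h0 : x j ≠ 0) :
    (∑ g ∈ range m, if Wn n u a x j g ∧ g ≠ crit j then u j g else 0) < need (x j - 1) := by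
  by_contra h
  have := hx.2 (Function.update x j (x j - 1)) (fun i hi => ?_) j hj
  · simp at this; omega
  by_cases e : i = j
  · subst e
    rw [Function.update_self]
    refine (not_lt.1 h).trans (sum_le_sum fun g hg => ?_)
    by_cases w : Wn n u a x i g ∧ g ≠ crit i
    · rw [if_pos w, if_pos]
      refine ⟨w.1.1, fun k hk hki hp => ?_⟩
      rw [Function.update_self, Function.update_of_ne hki]
      have b1 := w.1.2 k hk hki hp
      by_contra b2
      rcases hc i hi k hk hki.symm g (mem_range.1 hg) (by omega) (by omega) with b | b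
      exacts [w.2 b.1, hki (b.2.unique w.1 hk hi)]
    · simp [w]
  · rw [Function.update_of_ne e]
    refine (hx.1 i hi).trans (wsum_mono fun g _ w => ⟨w.1, fun k hk hki hp => ?_⟩)
    have := w.2 k hk hki hp
    rw [Function.update_of_ne e]
    by_cases e' : k = j
    · subst e'; rw [Function.update_self]; omega
    · rwa [Function.update_of_ne e']

end

/-- What a query tells about the least level vector. -/
theorem window (hx : Least n m u a need x) (hanti : Antitone need) {lo : ℕ → ℕ} {s i0 cc : ℕ}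
    (hw : ∀ i < n, lo i ≤ x i ∧ x i ≤ lo i + 4 * s) (h0 : i0 < n) {q : Prop}
    (hq : q ↔ ∃ y : ℕ → ℕ, ∀ i < n, y i ≤ lo i + (if i = i0 then cc else 5) * s ∧
      ∃ k < 5, lo i + k * s ≤ y i ∧ need (lo i + k * s) ≤ wsum n m u a y i) :
    (q → x i0 ≤ lo i0 + cc * s) ∧ (¬ q → lo i0 + cc * s < x i0 + s) := by
  rw [hq]
  refine ⟨fun ⟨y, hy⟩ => ?_, fun h => by_contra fun hc => h ⟨fun i => x i + s, fun i hi => ?_⟩⟩
  · have := (hy i0 h0).1
    rw [if_pos rfl] at this
    refine (hx.2 y (fun i hi => ?_) i0 h0).trans this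
    obtain ⟨-, k, -, b1, b2⟩ := hy i hi
    exact (hanti b1).trans b2
  · obtain ⟨b1, b2⟩ := hw i hi
    refine ⟨by split_ifs with e <;> [(subst e; simp only; omega); (simp only; omega)], ?_⟩
    obtain ⟨k, hk, c1, c2⟩ : ∃ k < 5, x i ≤ lo i + k * s ∧ lo i + k * s ≤ x i + s := by
      by_cases e1 : x i ≤ lo i + s
      · exact ⟨1, by omega⟩
      by_cases e2 : x i ≤ lo i + 2 * s
      · exact ⟨2, by omega⟩
      by_cases e3 : x i ≤ lo i + 3 * s
      · exact ⟨3, by omega⟩
      · exact ⟨4, by omega⟩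
    refine ⟨k, hk, c2, (hanti c1).trans ((hx.1 i hi).trans
      (wsum_mono fun g _ w => ⟨w.1, fun l hl hli hp => ?_⟩))⟩
    have := w.2 l hl hli hp
    simp only; omega

section
variable {α : ℕ → ℕ → ℕ} {β : ℝ} {Q : ℕ} (hβ : 1 ≤ β)
  (hα : ∀ i < n, ∀ g < m, 0 < u i g → β ^ α i g ≤ β * u i g ∧ u i g ≤ β ^ (α i g + 1))
  (ha : ∀ i < n, ∀ g < m, Q * α i g ≤ a i g ∧ a i g < Q * α i g + Q)
include hβ hα ha

theorem mbb {i j g : ℕ} (hi : i < n) (hj : j < n) (hg : g < m) (w : Wn n u a x j g) :
    β ^ (x i / Q) * u i g ≤ β ^ 3 * β ^ (x j / Q) * u j g := by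
  by_cases e : i = j
  · subst e
    rw [mul_assoc]
    exact le_mul_of_one_le_left (by positivity) (one_le_pow₀ hβ)
  rcases Nat.eq_zero_or_pos (u i g) with hp | hp
  · simp only [hp, Nat.cast_zero, mul_zero]
    positivity
  have b1 := w.2 i hi e hp
  have b2 := ha i hi g hg
  have b3 := ha j hj g hg
  have b4 : x i / Q + α i g < x j / Q + α j g + 2 := by
    have c1 := Nat.mul_div_le (x i) Q
    have c2 := Nat.lt_mul_div_succ (x j) (show 0 < Q by omega)
    refine Nat.lt_of_mul_lt_mul_left (a := Q) ?_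
    simp only [mul_add] at c2 ⊢
    omega
  calc β ^ (x i / Q) * u i g ≤ β ^ (x i / Q) * β ^ (α i g + 1) :=
        mul_le_mul_of_nonneg_left (hα i hi g hg hp).2 (by positivity)
    _ ≤ β ^ 2 * β ^ (x j / Q) * β ^ α j g := by
        simp only [← pow_add]
        exact pow_le_pow_right₀ hβ (by omega)
    _ ≤ β ^ 2 * β ^ (x j / Q) * (β * u j g) :=
        mul_le_mul_of_nonneg_left (hα j hj g hg w.1).1 (by positivity)
    _ = _ := by ring

theorem ef1_aux {T i j c : ℕ} (hi : i < n) (hj : j < n)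
    (h1 : β ^ T < 2 * (wsum n m u a x i + 1) * β ^ (x i / Q + 1)) {w : ℕ}
    (hw : w = ∑ g ∈ range m, if Wn n u a x j g ∧ g ≠ c then u j g else 0)
    (h2 : 2 * (w + 1) * β ^ ((x j - 1) / Q) ≤ β ^ T) (h3 : β ^ 5 * w < w + 1) :
    (∑ g ∈ range m, if Wn n u a x j g ∧ g ≠ c then u i g else 0) ≤ wsum n m u a x i := by
  have b1 : β ^ (x i / Q) * (∑ g ∈ range m, if Wn n u a x j g ∧ g ≠ c then u i g else 0 : ℕ) ≤
      β ^ 3 * β ^ (x j / Q) * w := by
    rw [hw]
    push_cast
    rw [mul_sum, mul_sum]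
    refine sum_le_sum fun g hg => ?_
    split_ifs with e
    · exact mbb hβ hα ha hi hj (mem_range.1 hg) e.1
    · simp
  have b2 : β ^ (x j / Q) ≤ β ^ ((x j - 1) / Q) * β := by
    rw [← pow_succ]
    refine pow_le_pow_right₀ hβ ?_
    rcases h : x j with _ | t
    · simp
    · rw [Nat.succ_div, Nat.add_sub_cancel]
      split_ifs <;> omega
  generalize (∑ g ∈ range m, if Wn n u a x j g ∧ g ≠ c then u i g else 0) = U at *
  generalize wsum n m u a x i = z at *
  rw [pow_succ] at h1
  have p1 : 0 < β ^ (x i / Q) := by positivity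
  generalize β ^ (x i / Q) = X at *
  generalize β ^ (x j / Q) = Y at *
  generalize β ^ ((x j - 1) / Q) = Z at *
  have w0 : (0 : ℝ) ≤ w := Nat.cast_nonneg _
  have z0 : (0 : ℝ) ≤ z := Nat.cast_nonneg _
  have c1 : (w + 1) * Y ≤ (z + 1) * X * β ^ 2 := by
    have d1 := mul_le_mul_of_nonneg_left b2 (show (0 : ℝ) ≤ w + 1 by positivity)
    have d2 := mul_le_mul_of_nonneg_right (show (w + 1) * Z ≤ (z + 1) * (X * β) by linarith)
      (zero_le_one.trans hβ)
    linarith
  have c2 : X * (U * (w + 1)) < X * ((z + 1) * (w + 1)) := by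
    have d1 := mul_le_mul_of_nonneg_right b1 (show (0 : ℝ) ≤ w + 1 by positivity)
    have d2 := mul_le_mul_of_nonneg_left c1 (show 0 ≤ β ^ 3 * w by positivity)
    have d3 := mul_lt_mul_of_pos_left h3 (show 0 < X * (z + 1) by positivity)
    linarith
  have c3 := lt_of_mul_lt_mul_right (lt_of_mul_lt_mul_left c2 p1.le) (by positivity)
  exact Nat.lt_succ_iff.1 (by exact_mod_cast c3)

end

end Pool.Agent.P.MP_12de15_lc
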